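import Pool.Agent.KQ.Quant
import Pool.Agent.KNL.Stack

/-! Programs with a stack on one block, with explicit parameters. -/

namespace Pool.Agent.KQ

open Pool.Agent.SemRO Pool.Agent.KNL Pool.Agent.PT44

/-- the bound for programs with a stack on one block of `n` variables -/
def SbpB (k B n : ℕ) : Prop :=
  ∀ (V Γ : Type) [Fintype V] (P : SBP V Γ (Fin n)) (F : Set (Fin n → Bool)) (L : ℕ),
    (∀ x l, P.AccWalk x l → x ∈ F) → RectFree F L → (L : ℝ) ≤ Real.exp ((n : ℝ) / B) →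
    ∀ (W : Finset (Fin n → Bool)), (∀ x ∈ W, ∃ l, P.AccWalk x l ∧ l.length ≤ k * n) →
      (W.card : ℝ) ≤ ((Fintype.card V : ℝ) + n) ^ (2 * B) * (2 ^ n * Real.exp (-((n : ℝ) / B)))

theorem sbp_of_core {k R B1 B n : ℕ} (hR : 2 ≤ R) (hRB : R ≤ B1) (hB : B1 ≤ B) (hn : B1 ≤ n)
    (hcore : Core (4 * k + 4) R (1 / (B1 : ℝ)) n) : SbpB k B n := by
  classical
  intro V Γ _ P F L hacc hrf hL W hW
  have hnR : R ≤ n := hRB.trans hn
  have hB1 : (0 : ℝ) < B1 := by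
    have : 0 < B1 := by omega
    exact_mod_cast this
  have hBr : (B1 : ℝ) ≤ B := by exact_mod_cast hB
  have hn0 : (0 : ℝ) ≤ n := Nat.cast_nonneg _
  have hle : (n : ℝ) / B ≤ 1 / (B1 : ℝ) * n := by
    rw [one_div_mul_eq_div]
    exact div_le_div_of_nonneg_left hn0 hB1 hBr
  have hcount := rs_count (k := k) hR hnR hcore P.toRS F (by
      rintro (p | p)
      · simp [SBP.toRS]
      · simpa [SBP.toRS] using hnR) (by
      rintro z ⟨l, hl⟩
      obtain ⟨l', hl'⟩ := (SBP.walk_of_pt hl).1 _ _ rfl []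
      exact hacc z l' hl') hrf (hL.trans (Real.exp_le_exp.mpr hle)) W (by
      intro x hx
      obtain ⟨l, hl, hlen⟩ := hW x hx
      exact ⟨l, SBP.pt_of_bal (SBP.bal_of_walk hl), hlen⟩)
  refine hcount.trans ?_
  have hV1 : (1 : ℝ) ≤ Fintype.card V := by
    have : 0 < Fintype.card V := Fintype.card_pos_iff.2 ⟨P.src⟩
    exact_mod_cast this
  have hQ : (Fintype.card ((V × V) ⊕ (Fin n × Bool)) : ℝ) ≤ ((Fintype.card V : ℝ) + n) ^ 2 := by
    simp only [Fintype.card_sum, Fintype.card_prod, Fintype.card_fin, Fintype.card_bool]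
    push_cast
    have hn1 : (0 : ℝ) ≤ n := by positivity
    nlinarith [mul_le_mul_of_nonneg_right hV1 hn1]
  have e1 : Real.exp (n * Real.log 2 - 1 / (B1 : ℝ) * n) = 2 ^ n * Real.exp (-(1 / (B1 : ℝ) * n)) := by
    have e2 : (2 : ℝ) ^ n = Real.exp (n * Real.log 2) := by
      rw [Real.exp_nat_mul, Real.exp_log (by norm_num)]
    rw [e2, ← Real.exp_add]
    congr 1
  rw [e1]
  have h1 : (Fintype.card ((V × V) ⊕ (Fin n × Bool)) : ℝ) ^ R ≤ ((Fintype.card V : ℝ) + n) ^ (2 * B) := by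
    calc (Fintype.card ((V × V) ⊕ (Fin n × Bool)) : ℝ) ^ R ≤ (((Fintype.card V : ℝ) + n) ^ 2) ^ R :=
          pow_le_pow_left₀ (Nat.cast_nonneg _) hQ R
      _ = ((Fintype.card V : ℝ) + n) ^ (2 * R) := by rw [← pow_mul]
      _ ≤ _ := pow_le_pow_right₀ (by linarith) (by omega)
  exact mul_le_mul h1 (mul_le_mul_of_nonneg_left (Real.exp_le_exp.mpr (by linarith)) (by positivity))
    (by positivity) (by positivity)

theorem sbp_quant : ∃ c : ℕ, ∀ k : ℕ, 2 ≤ k → ∀ B n : ℕ, 2 ^ (k ^ c) ≤ B → 2 ^ (k ^ c) ≤ n →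
    SbpB k B n := by
  obtain ⟨c, hc⟩ := core_quant
  refine ⟨4 * c, fun k hk B n hB hn => ?_⟩
  obtain ⟨R, hR2, hRB, hcore⟩ := hc (4 * k + 4) (by omega)
  have h1 : (4 * k + 4) ^ c ≤ k ^ (4 * c) := by
    rw [pow_mul]
    apply Nat.pow_le_pow_left
    have h2 : 8 ≤ k ^ 3 := by
      calc 8 = 2 ^ 3 := by norm_num
        _ ≤ k ^ 3 := Nat.pow_le_pow_left hk 3
    calc 4 * k + 4 ≤ 8 * k := by omega
      _ ≤ k ^ 3 * k := Nat.mul_le_mul_right _ h2
      _ = k ^ 4 := by ring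
  have h2 : 2 ^ ((4 * k + 4) ^ c) ≤ 2 ^ (k ^ (4 * c)) := Nat.pow_le_pow_right (by norm_num) h1
  have hcore' := hcore n (h2.trans hn)
  refine sbp_of_core (B1 := 2 ^ ((4 * k + 4) ^ c)) hR2 hRB (h2.trans hB) (h2.trans hn) ?_
  have e : (((2 ^ ((4 * k + 4) ^ c) : ℕ)) : ℝ) = 2 ^ ((4 * k + 4) ^ c) := by push_cast; rfl
  rw [e]
  exact hcore'

end Pool.Agent.KQ
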