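import Pool.Agent.KQ.Stage
import Pool.Agent.KN.Avg

/-! Averages over all sets of `t` players. -/

namespace Pool.Agent.KQ

open Finset Pool.Agent.SemRO
open Pool.Agent.KN hiding cst cst_spec cst_nonneg cost_bound T_class T_cond T_player stage avg_step

variable {n R : ℕ} {c : Fin R → (Fin n → Bool) → Fin n → Option Bool} {W : Finset (Fin n → Bool)}

/-- normalised average total correlation over all sets of `t` players -/
noncomputable def Xav (W : Finset (Fin n → Bool)) (c : Fin R → (Fin n → Bool) → Fin n → Option Bool)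
    (M : Finset (Fin n)) (t : ℕ) : ℝ :=
  (∑ S ∈ (Finset.univ : Finset (Fin R)).powersetCard t, TC W c M S) / (R.choose t * (W.card * M.card))

theorem avg_step {δ : ℝ} (hδ0 : 0 < δ) (hδ1 : δ ≤ 1 / 2)
    (hsub : ∀ z ∈ W, ∀ j, Sub (c j z) z)
    (huniq : ∀ z ∈ W, ∀ z' ∈ W, ∀ j, Sub (c j z') z → Sub (c j z) z' → c j z = c j z')
    (hW : W.Nonempty) (M : Finset (Fin n)) (hM : M.Nonempty) (t L : ℕ) (ht : t < R)
    {l : ℝ} (hl0 : 0 < l) (hl1 : l ≤ 1 / 2) {k2 : ℝ}
    (hk : ∑ z ∈ W, ∑ i ∈ M, ((rd c z i).card : ℝ) ≤ k2 * (W.card * M.card)) :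
    ((R : ℝ) - t) * (Aav W c M t - Aav W c M (t + 1)) ≤
      6 * (2 * L * (Aav W c M t + Xav W c M t) + (-Real.log l + 1) * ((((R : ℝ) - t) / R) ^ L * k2) +
      R * Real.binEntropy l) + tau δ * k2 + R / δ * Xav W c M t := by
  classical
  set D : ℝ := (W.card * M.card : ℝ) with hD
  have hWc : (0 : ℝ) < W.card := Nat.cast_pos.mpr (Finset.card_pos.mpr hW)
  have hMc : (0 : ℝ) < M.card := Nat.cast_pos.mpr (Finset.card_pos.mpr hM)
  have hDpos : 0 < D := mul_pos hWc hMc
  have hRpos : 0 < R := by omega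
  have hRr : (0 : ℝ) < R := by exact_mod_cast hRpos
  have htR : (t : ℝ) < R := by exact_mod_cast ht
  have hch : (0 : ℝ) < R.choose t := by exact_mod_cast Nat.choose_pos ht.le
  have hch' : (0 : ℝ) < R.choose (t + 1) := by exact_mod_cast Nat.choose_pos ht
  set X := ∑ S ∈ (Finset.univ : Finset (Fin R)).powersetCard t, Gs W c M S with hX
  set X' := ∑ S ∈ (Finset.univ : Finset (Fin R)).powersetCard (t + 1), Gs W c M S with hX'
  -- sum the stage inequality
  have h1 := Finset.sum_le_sum (fun S (_ : S ∈ (Finset.univ : Finset (Fin R)).powersetCard t) =>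
    stage hδ0 hδ1 hsub huniq M S L hl0 hl1)
  have e1 : ∑ S ∈ (Finset.univ : Finset (Fin R)).powersetCard t,
      ∑ j ∈ Sᶜ, (Gs W c M S - Gs W c M (insert j S)) = ((R : ℝ) - t) * X - (t + 1) * X' := by
    have h2 : ∀ S ∈ (Finset.univ : Finset (Fin R)).powersetCard t,
        ∑ j ∈ Sᶜ, (Gs W c M S - Gs W c M (insert j S)) =
        ((R : ℝ) - t) * Gs W c M S - ∑ j ∈ Finset.univ \ S, Gs W c M (insert j S) := by
      intro S hS
      rw [Finset.sum_sub_distrib, Finset.sum_const, Finset.card_compl, Fintype.card_fin,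
        (Finset.mem_powersetCard.mp hS).2, nsmul_eq_mul, Nat.cast_sub ht.le,
        Finset.compl_eq_univ_sdiff]
    rw [Finset.sum_congr rfl h2, Finset.sum_sub_distrib, ← Finset.mul_sum,
      sum_insert_powerset Finset.univ t (Gs W c M)]
  rw [e1] at h1
  have hG0 : 0 ≤ -Real.log l + 1 := by
    have := Real.log_nonpos hl0.le (by linarith)
    linarith
  have hcardU : (((Finset.univ : Finset (Fin R)).powersetCard t).card : ℝ) = R.choose t := by
    rw [Finset.card_powersetCard, Finset.card_univ, Fintype.card_fin]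
  have hTCsum : ∑ S ∈ (Finset.univ : Finset (Fin R)).powersetCard t, TC W c M S =
      (R.choose t : ℝ) * (Xav W c M t * D) := by
    unfold Xav
    rw [← hD]
    field_simp
  have hHv := sum_Hv (W := W) (c := c) M t L ht.le
  have hx0 : 0 ≤ (((R : ℝ) - t) / R) ^ L := pow_nonneg (div_nonneg (by linarith) hRr.le) _
  have hHv2 : ∑ S ∈ (Finset.univ : Finset (Fin R)).powersetCard t, Hv W c M S L ≤
      (R.choose t : ℝ) * ((((R : ℝ) - t) / R) ^ L * (k2 * D)) := by
    refine hHv.trans ?_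
    gcongr
  have e2 : ∑ S ∈ (Finset.univ : Finset (Fin R)).powersetCard t,
      (6 * (2 * L * (Gs W c M S + TC W c M S) + (-Real.log l + 1) * Hv W c M S L +
      R * (W.card * M.card * Real.binEntropy l)) + tau δ * ∑ z ∈ W, ∑ i ∈ M, ((rd c z i).card : ℝ) +
      R / δ * TC W c M S) =
      6 * (2 * L * (X + ∑ S ∈ (Finset.univ : Finset (Fin R)).powersetCard t, TC W c M S) +
      (-Real.log l + 1) * ∑ S ∈ (Finset.univ : Finset (Fin R)).powersetCard t, Hv W c M S L +
      (R.choose t : ℝ) * (R * (D * Real.binEntropy l))) +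
      (R.choose t : ℝ) * (tau δ * ∑ z ∈ W, ∑ i ∈ M, ((rd c z i).card : ℝ)) +
      R / δ * ∑ S ∈ (Finset.univ : Finset (Fin R)).powersetCard t, TC W c M S := by
    simp only [Finset.sum_add_distrib, ← Finset.mul_sum, Finset.sum_const, nsmul_eq_mul, hcardU]
    rw [hD, hX]
    ring
  rw [e2] at h1
  rw [hTCsum] at h1
  have h3 : ((R : ℝ) - t) * X - (t + 1) * X' ≤
      6 * (2 * L * (X + (R.choose t : ℝ) * (Xav W c M t * D)) +
      (-Real.log l + 1) * ((R.choose t : ℝ) * ((((R : ℝ) - t) / R) ^ L * (k2 * D))) +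
      (R.choose t : ℝ) * (R * (D * Real.binEntropy l))) +
      (R.choose t : ℝ) * (tau δ * (k2 * D)) +
      R / δ * ((R.choose t : ℝ) * (Xav W c M t * D)) := by
    refine h1.trans ?_
    have hτ := (tau_pos δ).le
    gcongr
  -- divide by `choose * D`
  have hA : Aav W c M t = X / (R.choose t * D) := rfl
  have hA' : Aav W c M (t + 1) = X' / (R.choose (t + 1) * D) := rfl
  have hchr : ((R.choose (t + 1) : ℕ) : ℝ) * (t + 1) = R.choose t * (R - t) := by
    have := Nat.choose_succ_right_eq R t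
    have h4 : ((R.choose (t + 1) * (t + 1) : ℕ) : ℝ) = ((R.choose t * (R - t) : ℕ) : ℝ) := by
      rw [this]
    push_cast [Nat.cast_sub ht.le] at h4
    exact h4
  have hpos : 0 < (R.choose t : ℝ) * D := mul_pos hch hDpos
  have e3 : ((R : ℝ) - t) * (Aav W c M t - Aav W c M (t + 1)) =
      (((R : ℝ) - t) * X - (t + 1) * X') / (R.choose t * D) := by
    rw [hA, hA']
    have : X' / ((R.choose (t + 1) : ℝ) * D) = (t + 1) * X' / ((R.choose t * (R - t)) * D) := by
      rw [← hchr]
      have h5 : ((t : ℝ) + 1) ≠ 0 := by positivity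
      field_simp
    rw [this]
    have h6 : (R : ℝ) - t ≠ 0 := by linarith
    field_simp
  rw [e3, div_le_iff₀ hpos]
  refine h3.trans (le_of_eq ?_)
  rw [hA]
  field_simp


end Pool.Agent.KQ
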