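import Pool.Agent.KQ.Cost
import Pool.Agent.KN.Gs

/-! The entropy form of the key inequality, with the sharper cost. -/

namespace Pool.Agent.KQ

open Finset Pool.Agent.SemRO
open Pool.Agent.KN hiding cst cst_spec cst_nonneg cost_bound

variable {n : ℕ} {β : Type*}

theorem T_class {δ : ℝ} (hδ0 : 0 < δ) (hδ1 : δ ≤ 1 / 2) (G : Finset (Fin n → Bool))
    (c : (Fin n → Bool) → Fin n → Option Bool) (hsub : ∀ z ∈ G, Sub (c z) z)
    (hD : ∀ z ∈ G, ∀ z' ∈ G, Sub (c z') z → Sub (c z) z' → c z = c z') :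
    δ * ∑ z ∈ G, (Real.log G.card - Real.log (fib G c z).card) ≤
      ∑ z ∈ G, ∑ i ∈ dom (c z), δ * cst δ (marg G i (z i)) +
      (1 - δ) * (∑ z ∈ G, ((∑ i, - Real.log (marg G i (z i))) - Real.log G.card)) := by
  classical
  rcases G.eq_empty_or_nonempty with rfl | hne
  · simp
  have hG : (0 : ℝ) < G.card := Nat.cast_pos.mpr (Finset.card_pos.mpr hne)
  set s : ℝ := 1 - δ with hs
  have hs0 : 0 < s := by rw [hs]; linarith
  have hs1 : s ≤ 1 := by rw [hs]; linarith
  set p : Fin n → Bool → ℝ := marg G with hp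
  have hp0 : ∀ i y, 0 ≤ p i y := marg_nonneg G
  have hp1 : ∀ i, p i false + p i true = 1 := marg_sum hne
  have hT := T_biased s hs0 hs1 n p hp0 hp1 (G.image c) (fun k => k)
    (fun k => G.filter (fun z => c z = k))
    (by
      intro k _ z hz
      obtain ⟨h1, h2⟩ := Finset.mem_filter.mp hz
      rw [← h2]; exact hsub z h1)
    (by
      intro k _ k' _ hkk z hz z' hz' ⟨h1, h2⟩
      obtain ⟨g1, g2⟩ := Finset.mem_filter.mp hz
      obtain ⟨g1', g2'⟩ := Finset.mem_filter.mp hz'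
      apply hkk
      rw [← g2, ← g2']
      apply hD z g1 z' g1'
      · rw [g2']; exact h1
      · rw [g2]; exact h2)
  let x : (Fin n → Bool) → ℝ := fun z => ∏ i, p i (z i)
  have hxpos : ∀ z ∈ G, 0 < x z := fun z hz => Finset.prod_pos fun i _ => marg_pos hz i
  let m : (Fin n → Option Bool) → ℝ := fun k => mass p (G.filter (fun z => c z = k))
  have hmpos : ∀ z ∈ G, 0 < m (c z) := by
    intro z hz
    apply Finset.sum_pos
    · intro w hw; exact hxpos w (Finset.mem_filter.mp hw).1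
    · exact ⟨z, Finset.mem_filter.mpr ⟨hz, rfl⟩⟩
  let Q : (Fin n → Option Bool) → ℝ := fun k => (∏ i, fac s (p i) (k i)) * m k ^ s
  have hfacpos : ∀ z ∈ G, ∀ i, 0 < (1 - p i (!(z i)) ^ s) := by
    intro z hz i
    have h1 : p i (!(z i)) < 1 := by
      rw [hp, marg_not hne]
      have := marg_pos hz i
      linarith
    have := Real.rpow_lt_one (hp0 i (!(z i))) h1 hs0
    linarith
  have hprodpos : ∀ z ∈ G, 0 < ∏ i, fac s (p i) (c z i) := by
    intro z hz
    rw [prod_fac_eq (hsub z hz)]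
    exact Finset.prod_pos fun i _ => div_pos (hfacpos z hz i) (Real.rpow_pos_of_pos (marg_pos hz i) _)
  have hQpos : ∀ z ∈ G, 0 < Q (c z) := fun z hz =>
    mul_pos (hprodpos z hz) (Real.rpow_pos_of_pos (hmpos z hz) _)
  let t : (Fin n → Bool) → ℝ := fun z => G.card * Q (c z) / (fib G c z).card
  have ht : ∀ z ∈ G, 0 < t z := fun z hz => div_pos (mul_pos hG (hQpos z hz)) (fib_pos' hz)
  have hts : ∑ z ∈ G, t z ≤ G.card := by
    have h1 := sum_div_fib G c (fun k => G.card * Q k)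
    simp only [t]
    rw [h1, ← Finset.mul_sum]
    calc (G.card : ℝ) * ∑ i ∈ G.image c, Q i ≤ G.card * 1 := mul_le_mul_of_nonneg_left hT hG.le
      _ = G.card := mul_one _
  have hg := gibbs G t ht hts
  have hlog : ∀ z ∈ G, Real.log (t z) = (Real.log G.card - Real.log (fib G c z).card) -
      (∑ i ∈ dom (c z), (s * Real.log (p i (z i)) - Real.log (1 - (1 - p i (z i)) ^ s))) +
      s * Real.log (m (c z)) := by
    intro z hz
    simp only [t]
    rw [Real.log_div (mul_pos hG (hQpos z hz)).ne' (fib_pos' hz).ne',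
      Real.log_mul hG.ne' (hQpos z hz).ne']
    simp only [Q]
    rw [Real.log_mul (hprodpos z hz).ne' (Real.rpow_pos_of_pos (hmpos z hz) _).ne',
      Real.log_rpow (hmpos z hz), prod_fac_eq (hsub z hz), Real.log_prod (fun i _ =>
        (div_pos (hfacpos z hz i) (Real.rpow_pos_of_pos (marg_pos hz i) _)).ne')]
    have h1 : ∀ i ∈ dom (c z), Real.log ((1 - p i (!(z i)) ^ s) / p i (z i) ^ s) =
        - (s * Real.log (p i (z i)) - Real.log (1 - (1 - p i (z i)) ^ s)) := by
      intro i _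
      rw [Real.log_div (hfacpos z hz i).ne' (Real.rpow_pos_of_pos (marg_pos hz i) _).ne',
        Real.log_rpow (marg_pos hz i), hp, marg_not hne]
      ring
    rw [Finset.sum_congr rfl h1, Finset.sum_neg_distrib]
    ring
  rw [Finset.sum_congr rfl hlog, Finset.sum_add_distrib, Finset.sum_sub_distrib, ← Finset.mul_sum] at hg
  -- Jensen
  have hJ : ∑ z ∈ G, (Real.log (fib G c z).card + ∑ i, Real.log (p i (z i))) ≤
      ∑ z ∈ G, Real.log (m (c z)) := by
    apply sum_le_of_fib G c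
    intro z hz
    have hfe : G.filter (fun w => c w = c z) = fib G c z := by
      ext w; simp [mem_fib]
    have hcard : (0 : ℝ) < (fib G c z).card := fib_pos' hz
    have hmz : m (c z) = ∑ w ∈ fib G c z, x w := by
      simp only [m, mass]; rw [hfe]
    have hg2 := gibbs (fib G c z) (fun w => x w * (fib G c z).card / m (c z))
      (fun w hw => div_pos (mul_pos (hxpos w (mem_fib.mp hw).1) hcard) (hmpos z hz))
      (by
        rw [← Finset.sum_div, ← Finset.sum_mul, ← hmz]
        rw [mul_comm, mul_div_assoc, div_self (hmpos z hz).ne', mul_one])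
    have hl2 : ∀ w ∈ fib G c z, Real.log (x w * (fib G c z).card / m (c z)) =
        (Real.log (fib G c w).card + ∑ i, Real.log (p i (w i))) - Real.log (m (c w)) := by
      intro w hw
      have hwG := (mem_fib.mp hw).1
      have hcw := (mem_fib.mp hw).2
      rw [Real.log_div (mul_pos (hxpos w hwG) hcard).ne' (hmpos z hz).ne',
        Real.log_mul (hxpos w hwG).ne' hcard.ne', fib_congr hcw, hcw]
      have : Real.log (x w) = ∑ i, Real.log (p i (w i)) := by
        simp only [x]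
        rw [Real.log_prod (fun i _ => (marg_pos hwG i).ne')]
      rw [this]; ring
    rw [Finset.sum_congr rfl hl2, Finset.sum_sub_distrib] at hg2
    linarith
  rw [Finset.sum_add_distrib] at hJ
  -- costs
  have hcost : ∑ z ∈ G, ∑ i ∈ dom (c z), (s * Real.log (p i (z i)) -
      Real.log (1 - (1 - p i (z i)) ^ s)) ≤ ∑ z ∈ G, ∑ i ∈ dom (c z), δ * cst δ (marg G i (z i)) := by
    refine Finset.sum_le_sum fun z hz => Finset.sum_le_sum fun i _ => ?_
    rw [hs, hp]
    exact cst_spec (marg_pos hz i) (marg_le_one hne i _) hδ0 hδ1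
  have hE : ∑ z ∈ G, (Real.log G.card - Real.log (fib G c z).card) =
      ∑ z ∈ G, Real.log (G.card : ℝ) - ∑ z ∈ G, Real.log ((fib G c z).card : ℝ) := Finset.sum_sub_distrib _ _
  have hF : ∑ z ∈ G, ((∑ i, - Real.log (marg G i (z i))) - Real.log G.card) =
      - ∑ z ∈ G, ∑ i, Real.log (p i (z i)) - ∑ z ∈ G, Real.log (G.card : ℝ) := by
    rw [Finset.sum_sub_distrib, ← Finset.sum_neg_distrib]
    congr 1
    refine Finset.sum_congr rfl fun z _ => ?_
    rw [Finset.sum_neg_distrib]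
  rw [hE] at hg ⊢
  rw [hF]
  generalize ∑ z ∈ G, Real.log (G.card : ℝ) = a1 at *
  generalize ∑ z ∈ G, Real.log ((fib G c z).card : ℝ) = a2 at *
  generalize ∑ z ∈ G, ∑ i, Real.log (p i (z i)) = a3 at *
  generalize ∑ z ∈ G, Real.log (m (c z)) = a4 at *
  generalize ∑ z ∈ G, ∑ i ∈ dom (c z), (s * Real.log (p i (z i)) -
      Real.log (1 - (1 - p i (z i)) ^ s)) = a5 at *
  generalize ∑ z ∈ G, ∑ i ∈ dom (c z), δ * cst δ (marg G i (z i)) = a6 at *
  have h7 : s * (a2 + a3) ≤ s * a4 := mul_le_mul_of_nonneg_left hJ hs0.le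
  have h8 : δ = 1 - s := by rw [hs]; ring
  rw [h8]
  nlinarith [h7, hg, hcost]

/-- the key inequality, conditional form -/
theorem T_cond {δ : ℝ} (hδ0 : 0 < δ) (hδ1 : δ ≤ 1 / 2) (W : Finset (Fin n → Bool))
    (u : (Fin n → Bool) → β)
    (c : (Fin n → Bool) → Fin n → Option Bool) (hsub : ∀ z ∈ W, Sub (c z) z)
    (hD : ∀ z ∈ W, ∀ z' ∈ W, Sub (c z') z → Sub (c z) z' → c z = c z') :
    ∑ z ∈ W, (Real.log (fib W u z).card - Real.log (fib W (fun x => (u x, c x)) z).card) ≤
      ∑ z ∈ W, ∑ i ∈ dom (c z), cst δ (qq W u i z) +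
      (1 / δ) * ∑ z ∈ W, ((∑ i, - Real.log (qq W u i z)) - Real.log (fib W u z).card) := by
  classical
  rw [Finset.mul_sum, ← Finset.sum_add_distrib]
  apply sum_le_of_fib W u
  intro z hz
  rw [Finset.sum_add_distrib, ← Finset.mul_sum]
  set G := fib W u z with hGdef
  have hT := T_class hδ0 hδ1 G c (fun w hw => hsub w (mem_fib.mp hw).1)
    (fun w hw w' hw' => hD w (mem_fib.mp hw).1 w' (mem_fib.mp hw').1)
  have h0 := tc_class_nonneg G
  have hGw : ∀ w ∈ G, fib W u w = G := fun w hw => fib_congr (mem_fib.mp hw).2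
  have e1 : ∑ w ∈ G, (Real.log (fib W u w).card - Real.log (fib W (fun x => (u x, c x)) w).card) =
      ∑ w ∈ G, (Real.log G.card - Real.log (fib G c w).card) := by
    refine Finset.sum_congr rfl fun w hw => ?_
    rw [hGw w hw, hGdef, fib_fib W u c hw]
  have e2 : ∑ w ∈ G, ∑ i ∈ dom (c w), cst δ (qq W u i w) =
      ∑ w ∈ G, ∑ i ∈ dom (c w), cst δ (marg G i (w i)) := by
    refine Finset.sum_congr rfl fun w hw => ?_
    unfold qq
    rw [hGw w hw]
  have e3 : ∑ w ∈ G, ((∑ i, - Real.log (qq W u i w)) - Real.log (fib W u w).card) =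
      ∑ w ∈ G, ((∑ i, - Real.log (marg G i (w i))) - Real.log G.card) := by
    refine Finset.sum_congr rfl fun w hw => ?_
    unfold qq
    rw [hGw w hw]
  rw [e1, e2, e3]
  have e4 : ∑ w ∈ G, ∑ i ∈ dom (c w), δ * cst δ (marg G i (w i)) =
      δ * ∑ w ∈ G, ∑ i ∈ dom (c w), cst δ (marg G i (w i)) := by
    rw [Finset.mul_sum]
    refine Finset.sum_congr rfl fun w _ => ?_
    rw [Finset.mul_sum]
  rw [e4] at hT
  generalize ∑ w ∈ G, (Real.log G.card - Real.log (fib G c w).card) = a at *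
  generalize ∑ w ∈ G, ∑ i ∈ dom (c w), cst δ (marg G i (w i)) = b at *
  generalize ∑ w ∈ G, ((∑ i, - Real.log (marg G i (w i))) - Real.log G.card) = d at *
  have h1 : δ * a ≤ δ * (b + 1 / δ * d) := by
    have : δ * (b + 1 / δ * d) = δ * b + d := by field_simp
    rw [this]
    nlinarith
  exact le_of_mul_le_mul_left h1 hδ0

variable {R : ℕ} {c : Fin R → (Fin n → Bool) → Fin n → Option Bool} {W : Finset (Fin n → Bool)}

/-- the key inequality for one player -/
lemma T_player {δ : ℝ} (hδ0 : 0 < δ) (hδ1 : δ ≤ 1 / 2)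
    (hsub : ∀ z ∈ W, ∀ j, Sub (c j z) z)
    (huniq : ∀ z ∈ W, ∀ z' ∈ W, ∀ j, Sub (c j z') z → Sub (c j z) z' → c j z = c j z')
    (M : Finset (Fin n)) (S : Finset (Fin R)) (j : Fin R) :
    Gs W c M S - Gs W c M (insert j S) ≤
      ∑ z ∈ W, ∑ i ∈ dom (c j z), cst δ (qs W c M S i z) + (1 / δ) * TC W c M S := by
  rw [Gs_insert, ← TC_eq]
  exact T_cond hδ0 hδ1 W (uu c M S) (c j) (fun z hz => hsub z hz j)
    (fun z hz z' hz' => huniq z hz z' hz' j)


end Pool.Agent.KQ
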