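import Pool.Agent.KQ.Rich3
import Pool.Agent.KN.Core

/-! The contradiction for fixed parameters, quantitative version. -/

namespace Pool.Agent.KQ

open Finset Pool.Agent.SemRO Pool.Agent.KN

/-- the final numerical contradiction -/
lemma final_contra' {n t1 t2 f ε lw lb lv lx l2 lN Λ : ℝ} (ht1 : 100 ≤ t1) (hf : 0 ≤ f)
    (hl2 : 0.693 < l2) (hΛ : 30 * (f + 1) ≤ Λ) (ht2 : t2 = Λ * t1)
    (hmain : lw + lb + t1 * lv + t2 * lx ≤ l2 + t1 * lN + ε * n + (n - t2) * l2)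
    (hlw : n * l2 - ε * n ≤ lw) (hlb : -(0.02 * t1) ≤ lb) (hlv : lN - lv ≤ 15 * (f + 1))
    (hlx : -(0.07 * t1) ≤ t2 * lx) (hε : ε * n ≤ t1 / 8) (hl2' : l2 ≤ 0.7) : False := by
  have h1 : t1 * lN - t1 * lv ≤ t1 * (15 * (f + 1)) := by
    have := mul_le_mul_of_nonneg_left hlv (show 0 ≤ t1 by linarith)
    linarith
  have h2 : t2 * l2 ≤ t1 * (15 * (f + 1)) + 1.1 * t1 := by
    have h3 : (n - t2) * l2 = n * l2 - t2 * l2 := by ring
    rw [h3] at hmain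
    linarith
  have h5 : t1 * (20.79 * (f + 1)) ≤ t2 * l2 := by
    rw [ht2]
    have h6 : 30 * (f + 1) * 0.693 ≤ Λ * l2 :=
      mul_le_mul hΛ hl2.le (by norm_num) (by linarith)
    have h7 : t1 * (30 * (f + 1) * 0.693) ≤ t1 * (Λ * l2) :=
      mul_le_mul_of_nonneg_left h6 (by linarith)
    calc t1 * (20.79 * (f + 1)) = t1 * (30 * (f + 1) * 0.693) := by ring
      _ ≤ t1 * (Λ * l2) := h7
      _ = Λ * t1 * l2 := by ring
  have h8 : t1 * (20.79 * (f + 1)) ≤ t1 * (15 * (f + 1) + 1.1) := by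
    have : t1 * (15 * (f + 1) + 1.1) = t1 * (15 * (f + 1)) + 1.1 * t1 := by ring
    rw [this]; exact h5.trans h2
  have h9 := le_of_mul_le_mul_left h8 (by linarith)
  linarith

lemma log_J {f : ℝ} (hf : 0 ≤ f) {J : ℕ} (hJ1 : 1 ≤ J) (hJ : (J : ℝ) ≤ 3 * f + 20) :
    Real.log (64 * (J : ℝ) ^ 2 / 1.8) ≤ 13 + f := by
  have hJ0 : (0 : ℝ) < J := by exact_mod_cast hJ1
  have h1 : 64 * (J : ℝ) ^ 2 / 1.8 ≤ 2 ^ 15 * (1 + (3 / 20) * f) ^ 2 := by
    have h2 : (J : ℝ) ^ 2 ≤ (3 * f + 20) ^ 2 := pow_le_pow_left₀ hJ0.le hJ 2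
    have h3 : (3 * f + 20) ^ 2 = 400 * (1 + (3 / 20) * f) ^ 2 := by ring
    rw [h3] at h2
    have h4 : 0 ≤ (1 + (3 / 20) * f) ^ 2 := sq_nonneg _
    have h5 : 64 * (J : ℝ) ^ 2 / 1.8 = (320 / 9) * (J : ℝ) ^ 2 := by ring
    rw [h5]
    nlinarith
  have hpos : 0 < 64 * (J : ℝ) ^ 2 / 1.8 := by positivity
  have h2 := Real.log_le_log hpos h1
  have hpos2 : (0 : ℝ) < 1 + (3 / 20) * f := by positivity
  rw [Real.log_mul (by norm_num) (by positivity), Real.log_pow, Real.log_pow] at h2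
  have h3 := Real.log_le_sub_one_of_pos hpos2
  have h4 := Real.log_two_lt_d9
  push_cast at h2
  linarith

theorem core_fixed' {n R m k : ℕ} {c : Fin R → (Fin n → Bool) → Fin n → Option Bool}
    {W : Finset (Fin n → Bool)} {F : Set (Fin n → Bool)} {L : ℕ} (hW : W.Nonempty)
    (hsub : ∀ z ∈ W, ∀ j, Sub (c j z) z)
    (hclosed : ∀ u, (∀ j, ∃ w ∈ W, Sub (c j w) u) → u ∈ F) (hRf : RectFree F L)
    (hlen : ∀ z ∈ W, ∀ j, (dom (c j z)).card * R ≤ k * n)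
    (hm : 1 ≤ m) (hR : R = m ^ 2) (S : Finset (Fin R)) (hSc : Sᶜ.card = m) (M : Finset (Fin n))
    (hM : M.Nonempty)
    {f Φ0 η ε θ : ℝ} (hf0 : 0 ≤ f) (hΦ : Φ0 = Real.exp (-f))
    (hCm : 2000 * ((k : ℝ) + 1) * (f + 1) ≤ m) (hη0 : 0 < η)
    (hent : Φ0 / 2 * (W.card * M.card) ≤ Gs W c M S) (hTC : TC W c M S ≤ 8 * η * Gs W c M S)
    {J e : ℕ} (hJ1 : 1 ≤ J) (hJf : (J : ℝ) ≤ 3 * f + 20) (hJ : Real.binEntropy ((1 / 2) ^ J) ≤ Φ0 / 16)
    (he : 32 * (J : ℝ) ^ 2 / Φ0 ≤ 2 ^ e)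
    (hη : 409600000 * (J : ℝ) ^ 2 * (f + 1) * η ≤ 1)
    (hWcard : n * Real.log 2 - ε * n ≤ Real.log W.card) (hL : (L : ℝ) ≤ Real.exp (ε * n))
    (hθ : θ * n ≤ M.card) (hε : ε * (409600 * (J : ℝ) ^ 2 * (f + 1)) ≤ Φ0 * θ)
    (hbig : 51200 * (J : ℝ) ^ 2 * (f + 1) * (2000 + 500 * J * (e + 1) / Φ0) ≤ Φ0 * (θ * n)) :
    False := by
  classical
  have hΦ0 : 0 < Φ0 := by rw [hΦ]; exact Real.exp_pos _
  have hΦ1 : Φ0 ≤ 1 := by rw [hΦ, Real.exp_le_one_iff]; linarith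
  have hn0 : (0 : ℝ) ≤ n := Nat.cast_nonneg _
  have hJr : (1 : ℝ) ≤ J := by exact_mod_cast hJ1
  have he0 : (0 : ℝ) ≤ e := Nat.cast_nonneg _
  set N : ℝ := (M.card : ℝ) with hN
  have hNn : N ≤ n := by
    have : M.card ≤ n := by simpa using Finset.card_le_univ M
    rw [hN]; exact_mod_cast this
  have hNpos : 0 < N := Nat.cast_pos.mpr (Finset.card_pos.mpr hM)
  have hWc : (0 : ℝ) < W.card := Nat.cast_pos.mpr (Finset.card_pos.mpr hW)
  obtain ⟨j, v0, W1, hW1, hj1, hjJ, hv0M, hβ, hW1c, hVf, hTC1⟩ :=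
    selection (c := c) hW M hM S hΦ0 hη0 (η2 := 32 * η) le_rfl hent hTC hJ1 hJ he
  obtain ⟨b0, hb0⟩ : ∃ b0 : ℝ, b0 = (1 / 2) ^ j := ⟨_, rfl⟩
  rw [← hb0] at hβ hVf hTC1
  have hb0pos : 0 < b0 := by rw [hb0]; positivity
  have hb01 : b0 ≤ 1 / 2 := by
    rw [hb0]
    calc (1 / 2 : ℝ) ^ j ≤ (1 / 2) ^ 1 := pow_le_pow_of_le_one (by norm_num) (by norm_num) hj1
      _ = 1 / 2 := by norm_num
  obtain ⟨β, hβdef⟩ : ∃ β : ℝ, β = b0 * v0 := ⟨_, rfl⟩
  rw [← hβdef] at hβ hTC1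
  have hv0N : (v0 : ℝ) ≤ N := by rw [hN]; exact_mod_cast hv0M
  have hβn : β ≤ n / 2 := by
    rw [hβdef]
    calc b0 * v0 ≤ 1 / 2 * n := mul_le_mul hb01 (hv0N.trans hNn) (Nat.cast_nonneg _) (by norm_num)
      _ = n / 2 := by ring
  have hJ2 : (1 : ℝ) ≤ (J : ℝ) ^ 2 := one_le_pow₀ hJr
  have hf1 : 1 ≤ f + 1 := by linarith
  -- W1 is nonempty
  have hW1pos : (0 : ℝ) < W1.card := by
    by_contra hcon
    have h0 : (W1.card : ℝ) = 0 := le_antisymm (not_lt.mp hcon) (Nat.cast_nonneg _)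
    rw [h0, mul_zero] at hW1c
    have : 0 < Φ0 / 4 * W.card := by positivity
    linarith
  have hW1ne : W1.Nonempty := Finset.card_pos.mp (by exact_mod_cast hW1pos)
  -- lower bound of β
  obtain ⟨Z, hZ⟩ : ∃ Z : ℝ, Z = 10 * J * (e + 1) / Φ0 := ⟨_, rfl⟩
  have hZ0 : 0 < Z := by rw [hZ]; positivity
  have hβbig : 800 * (f + 1) * (2000 + 50 * Z) ≤ β := by
    have h1 : Φ0 * (θ * n) ≤ Φ0 * N := mul_le_mul_of_nonneg_left hθ hΦ0.le
    have h2 : 51200 * (J : ℝ) ^ 2 * (f + 1) * (2000 + 50 * Z) ≤ Φ0 * N := by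
      have e1 : (50 : ℝ) * Z = 500 * J * (e + 1) / Φ0 := by rw [hZ]; ring
      rw [e1]; linarith
    refine le_trans ?_ hβ
    rw [le_div_iff₀ (by positivity)]
    linarith
  have hZ1 : 2000 ≤ 2000 + 50 * Z := by linarith
  have hβ1 : 800 * (f + 1) ≤ β := by
    refine le_trans ?_ hβbig
    have : 800 * (f + 1) * 1 ≤ 800 * (f + 1) * (2000 + 50 * Z) :=
      mul_le_mul_of_nonneg_left (by linarith) (by linarith)
    linarith
  have hβpos : 0 < β := by linarith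
  have hv0pos : (0 : ℝ) < v0 := by
    by_contra hcon
    have h0 : (v0 : ℝ) = 0 := le_antisymm (not_lt.mp hcon) (Nat.cast_nonneg _)
    rw [hβdef, h0, mul_zero] at hβpos
    exact lt_irrefl _ hβpos
  -- t1
  obtain ⟨t1, ht1⟩ : ∃ t1, t1 = ⌊β / (400 * (f + 1))⌋₊ := ⟨_, rfl⟩
  have ht1le : (t1 : ℝ) ≤ β / (400 * (f + 1)) := by rw [ht1]; exact Nat.floor_le (by positivity)
  have ht1ge : β / (800 * (f + 1)) ≤ t1 := by
    have h1 := Nat.lt_floor_add_one (β / (400 * (f + 1)))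
    rw [← ht1] at h1
    have h2 : 1 ≤ β / (800 * (f + 1)) := by rw [le_div_iff₀ (by positivity)]; linarith
    have h3 : β / (400 * (f + 1)) = 2 * (β / (800 * (f + 1))) := by field_simp; norm_num
    rw [h3] at h1
    linarith
  have ht1big : 2000 + 50 * Z ≤ t1 := by
    refine le_trans ?_ ht1ge
    rw [le_div_iff₀ (by positivity)]
    linarith
  have ht1100 : (100 : ℝ) ≤ t1 := by linarith
  have ht1pos : (0 : ℝ) < t1 := by linarith
  have ht1f : (t1 : ℝ) * (400 * (f + 1)) ≤ β := by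
    rwa [le_div_iff₀ (by positivity)] at ht1le
  have hβt1 : β ≤ t1 * (800 * (f + 1)) := by
    rwa [div_le_iff₀ (by positivity)] at ht1ge
  -- Λ, t2
  obtain ⟨Λ, hΛ⟩ : ∃ Λ, Λ = ⌈30 * (f + 1)⌉₊ := ⟨_, rfl⟩
  have hΛge : 30 * (f + 1) ≤ Λ := by rw [hΛ]; exact Nat.le_ceil _
  have hΛle : (Λ : ℝ) ≤ 31 * (f + 1) := by
    have := Nat.ceil_lt_add_one (show 0 ≤ 30 * (f + 1) by linarith)
    rw [← hΛ] at this; linarith
  obtain ⟨t2, ht2⟩ : ∃ t2, t2 = Λ * t1 := ⟨_, rfl⟩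
  have ht2r : (t2 : ℝ) = Λ * t1 := by rw [ht2]; push_cast; rfl
  have ht12 : (t1 : ℝ) + t2 ≤ n / 2 := by
    rw [ht2r]
    have h2 : (t1 : ℝ) + Λ * t1 = (1 + Λ) * t1 := by ring
    rw [h2]
    have h3 : (1 + (Λ : ℝ)) ≤ 32 * (f + 1) := by linarith
    calc (1 + (Λ : ℝ)) * t1 ≤ (32 * (f + 1)) * t1 :=
          mul_le_mul_of_nonneg_right h3 ht1pos.le
      _ = (32 / 400) * (t1 * (400 * (f + 1))) := by ring
      _ ≤ (32 / 400) * (n / 2) := by linarith
      _ ≤ n / 2 := by linarith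
  have ht12n : t1 + t2 ≤ n := by
    have : ((t1 + t2 : ℕ) : ℝ) ≤ n := by push_cast; linarith
    exact_mod_cast this
  -- m large
  have hk1 : (1 : ℝ) ≤ (k : ℝ) + 1 := by
    have : (0 : ℝ) ≤ k := Nat.cast_nonneg _
    linarith
  have hm2000 : 2000 * ((k : ℝ) + 1) ≤ m := by
    refine le_trans ?_ hCm
    have : 2000 * ((k : ℝ) + 1) * 1 ≤ 2000 * ((k : ℝ) + 1) * (f + 1) :=
      mul_le_mul_of_nonneg_left (by linarith) (by linarith)
    linarith
  have hmpos : (0 : ℝ) < m := by linarith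
  set w : ℝ := 2 * ((k : ℝ) + 1) / m with hw
  have hw0 : 0 ≤ w := by positivity
  have hw1 : w ≤ 1 / 1000 := by
    rw [hw, div_le_div_iff₀ hmpos (by norm_num)]; linarith
  have hwf : w * (f + 1) ≤ 1 / 1000 := by
    rw [hw, div_mul_eq_mul_div, div_le_div_iff₀ hmpos (by norm_num)]
    linarith
  obtain ⟨a, ha⟩ : ∃ a, a = k * n / m := ⟨_, rfl⟩
  have har : (a : ℝ) ≤ w * (n / 2) := by
    have h1 : (a : ℝ) ≤ ((k * n : ℕ) : ℝ) / m := by rw [ha]; exact Nat.cast_div_le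
    have h2 : w * ((n : ℝ) / 2) = ((k : ℝ) + 1) * n / m := by rw [hw]; ring
    rw [h2]
    refine h1.trans ?_
    push_cast
    apply div_le_div_of_nonneg_right _ hmpos.le
    exact mul_le_mul_of_nonneg_right (by linarith) hn0
  set x : ℝ := 1 - w with hx
  have hx0 : 0 < x := by rw [hx]; linarith
  have hx1 : x ≤ 1 := by rw [hx]; linarith
  have hlx : -(2 * w) ≤ Real.log x := by
    have h1 := exp_le_one_sub hw0 (by linarith : w ≤ 1 / 2)
    rw [← hx] at h1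
    rw [← Real.log_exp (-(2 * w))]
    exact Real.log_le_log (Real.exp_pos _) h1
  have ht2lx : -(0.07 * (t1 : ℝ)) ≤ t2 * Real.log x := by
    have h1 : (t2 : ℝ) * (-(2 * w)) ≤ t2 * Real.log x :=
      mul_le_mul_of_nonneg_left hlx (Nat.cast_nonneg _)
    refine le_trans ?_ h1
    rw [ht2r]
    have h2 : (Λ : ℝ) * w ≤ 31 * (w * (f + 1)) := by
      calc (Λ : ℝ) * w ≤ 31 * (f + 1) * w := mul_le_mul_of_nonneg_right hΛle hw0
        _ = _ := by ring
    have h3 : (Λ : ℝ) * w ≤ 0.035 := by linarith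
    have h4 : (Λ : ℝ) * w * t1 ≤ 0.035 * t1 := mul_le_mul_of_nonneg_right h3 ht1pos.le
    have h5 : (Λ : ℝ) * t1 * (-(2 * w)) = -(2 * ((Λ : ℝ) * w * t1)) := by ring
    rw [h5]; linarith
  -- ε n small
  have hεn : ε * n ≤ t1 / 8 := by
    have h1 : ε * (409600 * (J : ℝ) ^ 2 * (f + 1)) * n ≤ Φ0 * θ * n :=
      mul_le_mul_of_nonneg_right hε hn0
    have h2 : Φ0 * (θ * n) ≤ Φ0 * N := mul_le_mul_of_nonneg_left hθ hΦ0.le
    have h3 : Φ0 * N ≤ β * (64 * (J : ℝ) ^ 2) := by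
      rwa [div_le_iff₀ (by positivity)] at hβ
    have h4 : β * (64 * (J : ℝ) ^ 2) ≤ t1 * (800 * (f + 1)) * (64 * (J : ℝ) ^ 2) :=
      mul_le_mul_of_nonneg_right hβt1 (by positivity)
    have h5 : (409600 * (J : ℝ) ^ 2 * (f + 1)) * (ε * n) ≤ (409600 * (J : ℝ) ^ 2 * (f + 1)) * (t1 / 8) := by
      have e1 : (409600 * (J : ℝ) ^ 2 * (f + 1)) * (ε * n) = ε * (409600 * (J : ℝ) ^ 2 * (f + 1)) * n := by
        ring
      have e2 : (409600 * (J : ℝ) ^ 2 * (f + 1)) * ((t1 : ℝ) / 8) =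
          t1 * (800 * (f + 1)) * (64 * (J : ℝ) ^ 2) := by ring
      rw [e1, e2]; linarith
    exact le_of_mul_le_mul_left h5 (by positivity)
  have l1 := Real.log_two_gt_d9
  have l2 := Real.log_two_lt_d9
  -- rich pairs
  have hrich := rich_pairs' (c := c) hW1ne M S hb0pos (v0 := v0) (t1 := t1) hVf
    (by exact_mod_cast ht1100)
    (by
      rw [← hβdef]
      have h1 : (10 : ℝ) * t1 ≤ t1 * (400 * (f + 1)) := by
        have : (t1 : ℝ) * 400 ≤ t1 * (400 * (f + 1)) :=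
          mul_le_mul_of_nonneg_left (by linarith) ht1pos.le
        linarith
      linarith)
    (by
      have h1 : 8 * (J : ℝ) ^ 2 * (32 * η) * β ≤ t1 / 2000 := by
        have h2 : 8 * (J : ℝ) ^ 2 * (32 * η) * β ≤ 8 * (J : ℝ) ^ 2 * (32 * η) * (t1 * (800 * (f + 1))) :=
          mul_le_mul_of_nonneg_left hβt1 (by positivity)
        have h3 : 8 * (J : ℝ) ^ 2 * (32 * η) * (t1 * (800 * (f + 1))) =
            (409600000 * (J : ℝ) ^ 2 * (f + 1) * η) * (t1 / 2000) := by ring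
        have h4 : (409600000 * (J : ℝ) ^ 2 * (f + 1) * η) * ((t1 : ℝ) / 2000) ≤ 1 * (t1 / 2000) :=
          mul_le_mul_of_nonneg_right hη (by positivity)
        linarith
      have h2 : TC W1 c M S ≤ t1 / 2000 * W1.card :=
        hTC1.trans (mul_le_mul_of_nonneg_right h1 hW1pos.le)
      have h3 : (1 : ℝ) * W1.card ≤ t1 / 2000 * W1.card :=
        mul_le_mul_of_nonneg_right (by linarith) hW1pos.le
      linarith)
  set P := (W1 ×ˢ M.powersetCard t1).filter (fun p =>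
     (∀ i ∈ p.2, qs W1 c M S i p.1 < 1) ∧ (2:ℝ)^(0.8 * (t1:ℝ)) ≤ (fib W1 (uu c p.2 S) p.1).card) with hP
  -- rectangle
  have hexpK : (2 : ℝ) ^ (0.8 * (t1 : ℝ)) = Real.exp (0.8 * t1 * Real.log 2) := by
    rw [Real.rpow_def_of_pos (by norm_num)]; ring_nf
  have hrect := rectangle (c := c) (W := W1) (fun z hz => hsub z (hW1 hz))
    (F := F) (fun u hu => hclosed u fun j => by
      obtain ⟨w, hw, hs⟩ := hu j
      exact ⟨w, hW1 hw, hs⟩) hRf M S a t1 t2 (x ^ t2) ((2:ℝ)^(0.8 * (t1:ℝ)))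
    (pow_pos hx0 _)
    (by
      intro z hz
      have h1 : (Sᶜ.biUnion (fun j => dom (c j z))).card ≤ ∑ j ∈ Sᶜ, (dom (c j z)).card :=
        Finset.card_biUnion_le
      have h2 : (∑ j ∈ Sᶜ, (dom (c j z)).card) * R ≤ m * (k * n) := by
        rw [Finset.sum_mul]
        calc ∑ j ∈ Sᶜ, (dom (c j z)).card * R ≤ ∑ j ∈ Sᶜ, k * n :=
              Finset.sum_le_sum fun j _ => hlen z (hW1 hz) j
          _ = m * (k * n) := by rw [Finset.sum_const, hSc, smul_eq_mul]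
      rw [ha, Nat.le_div_iff_mul_le (by omega)]
      obtain ⟨D, hD⟩ : ∃ D, D = ∑ j ∈ Sᶜ, (dom (c j z)).card := ⟨_, rfl⟩
      rw [← hD] at h1 h2
      have h3 : m * (D * m) ≤ m * (k * n) := by
        calc m * (D * m) = D * m ^ 2 := by ring
          _ = D * R := by rw [← hR]
          _ ≤ _ := h2
      have h4 := Nat.le_of_mul_le_mul_left h3 (by omega)
      calc _ ≤ D * m := Nat.mul_le_mul_right _ h1
        _ ≤ _ := h4)
    (by
      have ha2 : (a : ℝ) ≤ n / 4 := by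
        have : w * ((n : ℝ) / 2) ≤ 1 / 1000 * (n / 2) := mul_le_mul_of_nonneg_right hw1 (by positivity)
        linarith
      have hcast : ((n - t1 : ℕ) : ℝ) = n - t1 := by
        rw [Nat.cast_sub (by omega)]
      apply choose_lower (n - t1) a x hx0.le hx1 t2 (by omega)
      · rw [hcast]
        have h1 : (n : ℝ) / 2 ≤ n - t1 - t2 := by linarith
        have h2 : 1 - x = w := by rw [hx]; ring
        rw [h2]
        exact har.trans (mul_le_mul_of_nonneg_left h1 hw0)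
      · have h3 : ((a + t2 + t1 : ℕ) : ℝ) ≤ n := by push_cast; linarith
        have h4 : a + t2 + t1 ≤ n := by exact_mod_cast h3
        omega)
    ht12n
    (by
      rw [hexpK]
      have h1 : x ^ t2 = Real.exp (t2 * Real.log x) := by
        rw [← Real.log_pow, Real.exp_log (pow_pos hx0 _)]
      rw [h1, ← Real.exp_add]
      have h2 : 2 * (L : ℝ) ≤ Real.exp (Real.log 2 + ε * n) := by
        rw [Real.exp_add, Real.exp_log (by norm_num)]; linarith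
      refine h2.trans (Real.exp_le_exp.mpr ?_)
      have h3 : 0.8 * (t1 : ℝ) * 0.693 ≤ 0.8 * t1 * Real.log 2 :=
        mul_le_mul_of_nonneg_left (by linarith) (by linarith)
      linarith)
    P
    (by
      intro p hp
      rw [hP, Finset.mem_filter, Finset.mem_product, Finset.mem_powersetCard] at hp
      obtain ⟨⟨h1, h2, h3⟩, h4, h5⟩ := hp
      refine ⟨h1, h2, h3, ?_, h5⟩
      intro i hi j hj hd
      have h6 := qs_read (W := W1) (M := M) (S := S) h1 (fun z hz => hsub z (hW1 hz)) hj hd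
      have h7 := h4 i hi
      linarith)
  -- combine
  have hchoose : (t1.factorial : ℝ) * (M.card.choose t1 : ℝ) ≤ N ^ t1 := by
    have h1 := Nat.descFactorial_eq_factorial_mul_choose M.card t1
    have h2 := Nat.descFactorial_le_pow M.card t1
    rw [h1] at h2
    rw [hN]
    exact_mod_cast h2
  have hfac0 : (0 : ℝ) < t1.factorial := by exact_mod_cast Nat.factorial_pos t1
  have hxt : (0 : ℝ) < x ^ t2 := pow_pos hx0 _
  have h2n : (0 : ℝ) < (2 : ℝ) ^ (n - t2) := by positivity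
  have hbv : (0 : ℝ) < 1.8 * b0 * v0 := by positivity
  have hWZ : W.card * Z⁻¹ ≤ 0.4 * (W1.card : ℝ) := by
    have h1 : W.card * Φ0 ≤ 4 * (J * (e + 1)) * W1.card := by linarith
    rw [hZ, inv_div, ← mul_div_assoc, div_le_iff₀ (by positivity)]
    linarith
  have hcomb : W.card * Z⁻¹ * (1.8 * b0 * v0) ^ t1 * x ^ t2 ≤
      2 * N ^ t1 * Real.exp (ε * n) * 2 ^ (n - t2) := by
    calc W.card * Z⁻¹ * (1.8 * b0 * v0) ^ t1 * x ^ t2
        ≤ 0.4 * W1.card * (1.8 * b0 * v0) ^ t1 * x ^ t2 := by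
          apply mul_le_mul_of_nonneg_right _ hxt.le
          exact mul_le_mul_of_nonneg_right hWZ (pow_pos hbv _).le
      _ ≤ (t1.factorial * (P.card : ℝ)) * x ^ t2 := mul_le_mul_of_nonneg_right hrich hxt.le
      _ = t1.factorial * ((P.card : ℝ) * x ^ t2) := by ring
      _ ≤ t1.factorial * (2 * (M.card.choose t1) * L * 2 ^ (n - t2)) :=
          mul_le_mul_of_nonneg_left hrect hfac0.le
      _ = 2 * (t1.factorial * (M.card.choose t1 : ℝ)) * L * 2 ^ (n - t2) := by ring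
      _ ≤ 2 * N ^ t1 * Real.exp (ε * n) * 2 ^ (n - t2) := by gcongr
  have hZinv : 0 < Z⁻¹ := inv_pos.mpr hZ0
  have hlog := Real.log_le_log (by positivity) hcomb
  have hNt : (0 : ℝ) < N ^ t1 := by positivity
  rw [log_mul4 hWc hZinv (pow_pos hbv t1) hxt,
    log_mul4 (by norm_num) hNt (Real.exp_pos _) h2n, Real.log_pow, Real.log_pow, Real.log_exp,
    Real.log_pow, Real.log_pow, Nat.cast_sub (show t2 ≤ n by omega)] at hlog
  have hlb : -(0.02 * (t1 : ℝ)) ≤ Real.log Z⁻¹ := by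
    rw [Real.log_inv]
    have h1 := Real.log_le_sub_one_of_pos hZ0
    linarith
  have hlv : Real.log N - Real.log (1.8 * b0 * v0) ≤ 15 * (f + 1) := by
    rw [← Real.log_div hNpos.ne' hbv.ne']
    have h1 : N / (1.8 * b0 * v0) ≤ (64 * (J : ℝ) ^ 2 / 1.8) * Real.exp f := by
      rw [div_le_iff₀ hbv]
      have h2 : Real.exp f * Φ0 = 1 := by
        rw [hΦ, ← Real.exp_add, add_neg_cancel, Real.exp_zero]
      have h3 : Φ0 * N ≤ β * (64 * (J : ℝ) ^ 2) := by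
        rwa [div_le_iff₀ (by positivity)] at hβ
      calc N = Real.exp f * (Φ0 * N) := by rw [← mul_assoc, h2, one_mul]
        _ ≤ Real.exp f * (β * (64 * (J : ℝ) ^ 2)) := mul_le_mul_of_nonneg_left h3 (Real.exp_pos _).le
        _ = _ := by rw [hβdef]; ring
    have h2 := Real.log_le_log (div_pos hNpos hbv) h1
    rw [Real.log_mul (by positivity) (Real.exp_pos _).ne', Real.log_exp] at h2
    have := log_J hf0 hJ1 hJf
    linarith
  exact final_contra' (n := n) (t1 := t1) (t2 := t2) (f := f) (ε := ε)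
    (lw := Real.log W.card) (lb := Real.log Z⁻¹) (lv := Real.log (1.8 * b0 * v0))
    (lx := Real.log x) (l2 := Real.log 2) (lN := Real.log N) (Λ := Λ)
    ht1100 hf0 (by linarith) hΛge ht2r (by linarith) hWcard hlb hlv ht2lx hεn (by linarith)

end Pool.Agent.KQ
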