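import Pool.Agent.KN.Num

/-! The numerical recursion, with explicit parameters. -/

namespace Pool.Agent.KQ

open Finset Filter Real Topology
open Pool.Agent.KN (binEntropy_le exp_neg_le log_le_div log_succ start log_bounds)

/-- the exponent -/
noncomputable def ff (y s0 s : ℝ) : ℝ := y * (1 + s / s0) ^ 60

/-- One step. -/
lemma step {k K y s0 s s' u R A A' ζ : ℝ} (hkK : k ≤ K) (hK : 1 ≤ K)
    (hy : 100 ≤ y) (hyK : 8 * log (14 * K) ≤ y) (hR : R = exp y) (hs0 : 0 < s0)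
    (hs0' : s0 ≤ 1 / 200) (hs : s0 ≤ s) (hu : 0 < u) (hs' : s + 1 / u ≤ s')
    (hx : 30 * ff y s0 s ≤ s * u) (hζ : ζ ≤ exp (-ff y s0 s) / 4)
    (hA : exp (-ff y s0 s) ≤ A)
    (huR : u ≤ R)
    (H : ∀ (L : ℕ) (l : ℝ), (L : ℝ) ≤ R → 0 < l → l ≤ 1 / 2 →
      A - ((12 * L + 1) * A + 2 * k * (log (1 / l) + 1) * (exp (-s)) ^ L +
        6 * (R * binEntropy l) + ζ) / u ≤ A') :
    exp (-ff y s0 s') ≤ A' := by
  have hspos : 0 < s := lt_of_lt_of_le hs0 hs
  set F := ff y s0 s with hF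
  have hFy : y * (1 + 60 * (s / s0)) ≤ F := by
    have hb : 1 + (60 : ℕ) * (s / s0) ≤ (1 + s / s0) ^ 60 :=
      one_add_mul_le_pow (by have : 0 < s / s0 := by positivity
                             linarith) 60
    have : y * (1 + 60 * (s / s0)) ≤ y * (1 + s / s0) ^ 60 := by
      apply mul_le_mul_of_nonneg_left _ (by linarith)
      push_cast at hb
      exact hb
    exact this
  have hss : 1 ≤ s / s0 := by rw [le_div_iff₀ hs0]; linarith
  have hys : 100 * (s / s0) ≤ y * (s / s0) := mul_le_mul_of_nonneg_right hy (by linarith)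
  have hFy' : y ≤ F := by linarith
  have hF100 : 100 ≤ F := by linarith
  have hFs : 28 * s ≤ F := by
    have h1 : s ≤ s / s0 := by
      rw [le_div_iff₀ hs0]
      exact mul_le_of_le_one_right hspos.le (by linarith)
    linarith
  set E := exp (-F) with hE
  have hEpos : 0 < E := exp_pos _
  have hRpos : 0 < R := by rw [hR]; exact exp_pos _
  have hR1 : 1 ≤ R := by rw [hR]; exact one_le_exp (by linarith)
  -- the parameter `l`
  set l := E ^ 2 / (4 * R ^ 2) with hl
  have hlpos : 0 < l := by positivity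
  have hE1 : E ≤ 1 := by rw [hE]; exact exp_le_one_iff.mpr (by linarith)
  have hl2 : l ≤ 1 / 2 := by
    rw [hl, div_le_iff₀ (by positivity)]
    have h1 : E ^ 2 ≤ 1 := pow_le_one₀ hEpos.le hE1
    have h2 : 1 ≤ R ^ 2 := one_le_pow₀ hR1
    linarith
  have hlogl : log (1 / l) = 2 * F + 2 * y + log 4 := by
    rw [one_div, Real.log_inv, hl, Real.log_div (by positivity) (by positivity), Real.log_pow,
      Real.log_mul (by norm_num) (by positivity), Real.log_pow, hE, Real.log_exp, hR, Real.log_exp]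
    push_cast
    ring
  have hlog4 : log 4 ≤ 2 := by
    have h1 : log 4 = 2 * log 2 := by
      rw [show (4 : ℝ) = 2 ^ 2 by norm_num, Real.log_pow]; norm_num
    have := Real.log_two_lt_d9
    rw [h1]; linarith
  have hlog4' : 0 ≤ log 4 := Real.log_nonneg (by norm_num)
  set G := log (1 / l) + 1 with hG
  have hG7 : G ≤ 7 * F := by rw [hG, hlogl]; linarith
  have hGpos : 1 ≤ G := by rw [hG, hlogl]; linarith
  have hGE : E * G ≤ 1 := by
    have h1 : 7 * F ≤ exp F := by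
      have h2 := Real.quadratic_le_exp_of_nonneg (x := F) (by linarith)
      nlinarith
    have h2 : E * exp F = 1 := by rw [hE, ← Real.exp_add]; simp
    calc E * G ≤ E * exp F := mul_le_mul_of_nonneg_left (hG7.trans h1) hEpos.le
      _ = 1 := h2
  -- the logarithm
  set Q := log (2 * K * G) with hQ
  have hQle : 4 * Q + 7 * s ≤ F := by
    have h1 : Q ≤ log (14 * K * F) := by
      apply Real.log_le_log (by positivity)
      calc 2 * K * G ≤ 2 * K * (7 * F) := mul_le_mul_of_nonneg_left hG7 (by positivity)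
        _ = 14 * K * F := by ring
    have h2 : log (14 * K * F) = log (14 * K) + log F :=
      Real.log_mul (by positivity) (by positivity)
    have h3 := log_le_div hF100
    linarith
  have hQ0 : 0 ≤ Q := by
    apply Real.log_nonneg
    have := one_le_mul_of_one_le_of_one_le hK hGpos
    linarith
  set L := ⌈(F + Q) / s⌉₊ with hL
  have hL1 : (F + Q) / s ≤ L := Nat.le_ceil _
  have hL2 : (L : ℝ) < (F + Q) / s + 1 := Nat.ceil_lt_add_one (by positivity)
  have hLs1 : F + Q ≤ L * s := by rwa [div_le_iff₀ hspos] at hL1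
  have hLs2 : (L : ℝ) * s ≤ F + Q + s := by
    have h1 : (L : ℝ) * s ≤ ((F + Q) / s + 1) * s := mul_le_mul_of_nonneg_right hL2.le hspos.le
    have h2 : ((F + Q) / s + 1) * s = F + Q + s := by field_simp
    linarith
  have hLR : (L : ℝ) ≤ R := by
    have h1 : (F + Q) / s ≤ 2 * F / s := div_le_div_of_nonneg_right (by linarith) hspos.le
    have h2 : 2 * F / s ≤ 2 / 30 * u := by
      rw [div_le_iff₀ hspos]
      linarith
    have h3 : 100 + 1 ≤ R := by
      rw [hR]
      have := Real.add_one_le_exp y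
      linarith
    linarith
  have hH := H L l hLR hlpos hl2
  -- the error terms
  have e1 : 2 * k * G * (exp (-s)) ^ L ≤ E := by
    have h1 : (exp (-s)) ^ L = exp (-(L * s)) := by
      rw [← Real.exp_nat_mul]
      congr 1
      ring
    have h2 : exp (-(L * s)) ≤ exp (-F) * exp (-Q) := by
      rw [← Real.exp_add]
      apply Real.exp_le_exp.mpr
      linarith
    have h3 : exp (-Q) = (2 * K * G)⁻¹ := by
      rw [Real.exp_neg, hQ, Real.exp_log (by positivity)]
    rw [h3] at h2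
    rw [h1]
    calc 2 * k * G * exp (-(L * s)) ≤ 2 * K * G * (exp (-F) * (2 * K * G)⁻¹) := by
          apply mul_le_mul _ h2 (exp_pos _).le (by positivity)
          apply mul_le_mul_of_nonneg_right _ (by linarith)
          linarith
      _ = E := by
          rw [hE]
          field_simp
  have e2 : 6 * (R * binEntropy l) ≤ E / 4 := by
    have h1 := binEntropy_le (l := l) (by linarith)
    have h2 : R * binEntropy l ≤ R * (l * G) := mul_le_mul_of_nonneg_left h1 hRpos.le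
    have h3 : R * (l * G) = E * (E * G) / (4 * R) := by
      rw [hl]
      field_simp
    have h4 : 6 * (E * (E * G) / (4 * R)) ≤ E / 4 := by
      have hR6 : 6 ≤ R := by
        have := Real.add_one_le_exp y
        rw [hR]; linarith
      have h5 : 6 * (E * (E * G)) ≤ E * R := by
        have h6 : E * (6 * (E * G)) ≤ E * R := mul_le_mul_of_nonneg_left (by linarith) hEpos.le
        linarith
      rw [mul_div_assoc', div_le_div_iff₀ (by positivity) (by norm_num)]
      linarith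
    linarith
  have hErr : (12 * L + 1) * A + 2 * k * G * (exp (-s)) ^ L + 6 * (R * binEntropy l) + ζ ≤
      (12 * L + 1) * A + 3 / 2 * E := by linarith
  have hA1 : A - ((12 * L + 1) * A + 3 / 2 * E) / u ≤ A' := by
    refine le_trans ?_ hH
    have := div_le_div_of_nonneg_right hErr hu.le
    linarith
  -- the potential
  set x := 30 * F / (s * u) with hxdef
  have hx0 : 0 ≤ x := by positivity
  have hx1 : x ≤ 1 := by rw [hxdef, div_le_one (by positivity)]; exact hx
  have hff : F + x ≤ ff y s0 s' := by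
    have h1 : (1 + s / s0) ^ 60 * (1 + 60 * (1 / u / (s0 + s))) ≤ (1 + s' / s0) ^ 60 := by
      have h2 : (1 + s / s0) * (1 + 1 / u / (s0 + s)) ≤ 1 + s' / s0 := by
        have h3 : (1 + s / s0) * (1 + 1 / u / (s0 + s)) = 1 + (s + 1 / u) / s0 := by
          field_simp
          ring
        rw [h3]
        have := div_le_div_of_nonneg_right hs' hs0.le
        linarith
      have h4 : 1 + (60 : ℕ) * (1 / u / (s0 + s)) ≤ (1 + 1 / u / (s0 + s)) ^ 60 :=
        one_add_mul_le_pow (by have : 0 < 1 / u / (s0 + s) := by positivity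
                               linarith) 60
      push_cast at h4
      calc (1 + s / s0) ^ 60 * (1 + 60 * (1 / u / (s0 + s)))
          ≤ (1 + s / s0) ^ 60 * (1 + 1 / u / (s0 + s)) ^ 60 :=
            mul_le_mul_of_nonneg_left h4 (by positivity)
        _ = ((1 + s / s0) * (1 + 1 / u / (s0 + s))) ^ 60 := by rw [mul_pow]
        _ ≤ (1 + s' / s0) ^ 60 := pow_le_pow_left₀ (by positivity) h2 60
    have h5 : F * (1 + 60 * (1 / u / (s0 + s))) ≤ ff y s0 s' := by
      rw [hF]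
      unfold ff
      rw [mul_assoc]
      exact mul_le_mul_of_nonneg_left h1 (by linarith)
    have h6 : x ≤ F * (60 * (1 / u / (s0 + s))) := by
      have h7 : F * (60 * (1 / u / (s0 + s))) = 60 * F / (u * (s0 + s)) := by
        field_simp
      rw [h7, hxdef, div_le_div_iff₀ (by positivity) (by positivity)]
      have h8 : 0 ≤ F * u := by positivity
      have h9 : F * u * s0 ≤ F * u * s := mul_le_mul_of_nonneg_left hs h8
      linarith
    linarith
  have hexp : exp (-ff y s0 s') ≤ E * (1 - x / 2) := by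
    have h1 : exp (-ff y s0 s') ≤ exp (-F) * exp (-x) := by
      rw [← Real.exp_add]
      apply Real.exp_le_exp.mpr
      linarith
    exact h1.trans (mul_le_mul_of_nonneg_left (exp_neg_le hx0 hx1) (exp_pos _).le)
  -- comparison
  have hcmp : (12 * L + 5 / 2) / u ≤ x / 2 := by
    rw [hxdef, div_div, div_le_div_iff₀ hu (by positivity)]
    have h0 : (12 * (L : ℝ) + 5 / 2) * s = 12 * (L * s) + 5 / 2 * s := by ring
    have h1 : (12 * (L : ℝ) + 5 / 2) * s ≤ 15 * F := by rw [h0]; linarith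
    have h2 : (12 * (L : ℝ) + 5 / 2) * s * (u * 2) ≤ 15 * F * (u * 2) :=
      mul_le_mul_of_nonneg_right h1 (by positivity)
    calc (12 * (L : ℝ) + 5 / 2) * (s * u * 2) = (12 * (L : ℝ) + 5 / 2) * s * (u * 2) := by ring
      _ ≤ 15 * F * (u * 2) := h2
      _ = 30 * F * u := by ring
  have hLu : (12 * L + 1) / u ≤ 1 := by
    have h1 : (12 * L + 1) / u ≤ (12 * L + 5 / 2) / u := div_le_div_of_nonneg_right (by linarith) hu.le
    linarith
  have hfin : E * (1 - x / 2) ≤ A - ((12 * L + 1) * A + 3 / 2 * E) / u := by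
    have h1 : A - ((12 * L + 1) * A + 3 / 2 * E) / u = A * (1 - (12 * L + 1) / u) - 3 / 2 * E / u := by
      field_simp
      ring
    rw [h1]
    have h2 : E * (1 - (12 * L + 1) / u) ≤ A * (1 - (12 * L + 1) / u) :=
      mul_le_mul_of_nonneg_right hA (by linarith)
    have h3 : E * (1 - x / 2) ≤ E * (1 - (12 * L + 5 / 2) / u) :=
      mul_le_mul_of_nonneg_left (by linarith) hEpos.le
    have h4 : E * (1 - (12 * L + 5 / 2) / u) = E * (1 - (12 * L + 1) / u) - 3 / 2 * E / u := by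
      field_simp
      ring
    linarith
  linarith

lemma ff_mono {y s0 s s' : ℝ} (hy : 0 ≤ y) (hs0 : 0 < s0) (h0 : 0 ≤ s) (h1 : s ≤ s') :
    ff y s0 s ≤ ff y s0 s' := by
  unfold ff
  apply mul_le_mul_of_nonneg_left _ hy
  apply pow_le_pow_left₀ (by positivity)
  have := div_le_div_of_nonneg_right h1 hs0.le
  linarith

lemma le_ff {y s0 s : ℝ} (hy : 0 ≤ y) (hs0 : 0 < s0) (h0 : 0 ≤ s) : y ≤ ff y s0 s := by
  unfold ff
  have h1 : 1 ≤ (1 + s / s0) ^ 60 := one_le_pow₀ (by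
    have : 0 ≤ s / s0 := by positivity
    linarith)
  calc y = y * 1 := (mul_one y).symm
    _ ≤ _ := mul_le_mul_of_nonneg_left h1 hy


/-- Choice of `M`. -/
lemma exists_M (C1 : ℝ) : ∃ c : ℕ, ∀ K : ℝ, 2 ≤ K → ∃ M : ℕ, (M : ℝ) ≤ K ^ c ∧ 4 ≤ M ∧
    100 ≤ 2 * log M ∧ 8 * log (14 * (3 * K)) ≤ 2 * log M ∧ C1 * K ^ 61 * (2 * log M) ^ 122 ≤ M := by
  have h1 : Tendsto (fun x : ℝ => x ^ 244 * exp (-x)) atTop (𝓝 0) :=
    Real.tendsto_pow_mul_exp_neg_atTop_nhds_zero 244
  have h2 : Tendsto (fun M : ℕ => log (M : ℝ)) atTop atTop :=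
    Real.tendsto_log_atTop.comp tendsto_natCast_atTop_atTop
  have h4 : ∀ᶠ M : ℕ in atTop, ((log (M : ℝ)) ^ 244 * exp (-(log (M : ℝ)))) < 1 / 2 ^ 244 :=
    (h1.comp h2).eventually_lt_const (by positivity)
  have hlog : Tendsto (fun M : ℕ => 2 * log (M : ℝ)) atTop atTop :=
    h2.const_mul_atTop (by norm_num)
  obtain ⟨M0, hM0⟩ := eventually_atTop.mp (h4.and ((hlog.eventually_ge_atTop 100).and
    (eventually_ge_atTop 4)))
  set C2 : ℝ := max |C1| 42 ^ 2 with hC2
  have hC42 : (42 : ℝ) ≤ max |C1| 42 := le_max_right _ _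
  have hCC1 : |C1| ≤ max |C1| 42 := le_max_left _ _
  obtain ⟨c, hc⟩ : ∃ c : ℕ, (C2 ^ 2 + 1 + M0) ≤ 2 ^ c := by
    obtain ⟨c, hc⟩ := pow_unbounded_of_one_lt (C2 ^ 2 + 1 + M0) (show (1 : ℝ) < 2 by norm_num)
    exact ⟨c, hc.le⟩
  refine ⟨c + 122, fun K hK => ⟨⌈(C2 * K ^ 61) ^ 2⌉₊ + M0, ?_, ?_⟩⟩
  · push_cast
    have h5 := (Nat.ceil_lt_add_one (show 0 ≤ (C2 * K ^ 61) ^ 2 by positivity)).le
    have h6 : (1 : ℝ) ≤ K ^ 122 := one_le_pow₀ (by linarith)
    have h7 : (C2 ^ 2 + 1 + M0) * K ^ 122 ≤ K ^ (c + 122) := by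
      rw [pow_add]
      apply mul_le_mul_of_nonneg_right _ (by positivity)
      exact hc.trans (pow_le_pow_left₀ (by norm_num) hK c)
    have h8 : (0 : ℝ) ≤ M0 := Nat.cast_nonneg _
    have e : (C2 * K ^ 61) ^ 2 = C2 ^ 2 * K ^ 122 := by ring
    rw [e] at h5 ⊢
    nlinarith
  · set M := ⌈(C2 * K ^ 61) ^ 2⌉₊ + M0 with hM
    obtain ⟨a1, a2, a3⟩ := hM0 M (by omega)
    have hMpos : (0 : ℝ) < M := by exact_mod_cast (by omega : 0 < M)
    have hMC : (C2 * K ^ 61) ^ 2 ≤ M := by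
      rw [hM]; push_cast
      have h8 : (0 : ℝ) ≤ M0 := Nat.cast_nonneg _
      have := Nat.le_ceil ((C2 * K ^ 61) ^ 2)
      linarith
    have hC2pos : 0 < C2 := by rw [hC2]; positivity
    have hC21 : (42 : ℝ) ^ 2 ≤ C2 := by rw [hC2]; exact pow_le_pow_left₀ (by norm_num) hC42 2
    have hK1 : (1 : ℝ) ≤ K := by linarith
    refine ⟨a3, a2, ?_, ?_⟩
    · have h9 : (14 * (3 * K)) ^ 4 ≤ (M : ℝ) := by
        refine le_trans ?_ hMC
        have h10 : (14 * (3 * K)) ^ 2 ≤ C2 * K ^ 61 := by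
          have h11 : K ^ 2 ≤ K ^ 61 := pow_le_pow_right₀ hK1 (by norm_num)
          calc (14 * (3 * K)) ^ 2 = 42 ^ 2 * K ^ 2 := by ring
            _ ≤ C2 * K ^ 61 := mul_le_mul hC21 h11 (by positivity) hC2pos.le
        calc (14 * (3 * K)) ^ 4 = ((14 * (3 * K)) ^ 2) ^ 2 := by ring
          _ ≤ (C2 * K ^ 61) ^ 2 := pow_le_pow_left₀ (by positivity) h10 2
      have h12 := Real.log_le_log (by positivity) h9
      rw [Real.log_pow] at h12
      push_cast at h12
      linarith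
    · rw [Real.exp_neg, Real.exp_log hMpos, lt_div_iff₀ (by positivity)] at a1
      have h5 : ((2 * log (M : ℝ)) ^ 122) ^ 2 ≤ M := by
        have h6 : (log (M : ℝ)) ^ 244 * (M : ℝ)⁻¹ * 2 ^ 244 * M < 1 * M :=
          mul_lt_mul_of_pos_right a1 hMpos
        have h7 : (log (M : ℝ)) ^ 244 * (M : ℝ)⁻¹ * 2 ^ 244 * M =
            ((2 * log (M : ℝ)) ^ 122) ^ 2 := by
          field_simp
        linarith
      have hy0 : 0 ≤ (2 * log (M : ℝ)) ^ 122 := pow_nonneg (by linarith) _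
      have h6 : (C2 * K ^ 61) * (2 * log (M : ℝ)) ^ 122 ≤ M := by
        have h7 : ((C2 * K ^ 61) * (2 * log (M : ℝ)) ^ 122) ^ 2 ≤ (M : ℝ) ^ 2 := by
          rw [mul_pow, sq (M : ℝ)]
          exact mul_le_mul hMC h5 (by positivity) hMpos.le
        exact le_trans (le_abs_self _) (abs_le_of_sq_le_sq h7 hMpos.le)
      refine le_trans ?_ h6
      apply mul_le_mul_of_nonneg_right _ hy0
      apply mul_le_mul_of_nonneg_right _ (by positivity)
      have h8 : C1 ≤ max |C1| 42 := (le_abs_self _).trans hCC1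
      have h9 : max |C1| 42 ≤ C2 := by
        rw [hC2, sq]
        exact le_mul_of_one_le_left (by linarith) (by linarith)
      linarith

/-- Choice of the parameters. -/
lemma params (C : ℝ) (hC : 1 ≤ C) : ∃ c : ℕ, ∀ K : ℝ, 2 ≤ K → ∃ (M : ℕ) (y s0 : ℝ),
    (M : ℝ) ≤ K ^ c ∧ 4 ≤ M ∧ 100 ≤ y ∧
    8 * log (14 * (3 * K)) ≤ y ∧ exp y = (M : ℝ) ^ 2 ∧ 0 < s0 ∧ s0 ≤ 1 / 200 ∧
    s0 * (200 * (3 * K) * y) = 1 ∧ 30 * ff y s0 y ≤ s0 * M ∧ C * K * (ff y s0 y + 2) ≤ M ∧
    4 ≤ (M : ℝ) ^ 2 * s0 := by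
  obtain ⟨c, hc⟩ := exists_M ((20400 + 3 * C) * 601 ^ 60)
  refine ⟨c, fun K hK => ?_⟩
  obtain ⟨M, hMc, hM4, hM2, hM3, hM1⟩ := hc K hK
  obtain ⟨y, hy⟩ : ∃ y, y = 2 * log (M : ℝ) := ⟨_, rfl⟩
  rw [← hy] at hM1 hM2 hM3
  have hMpos : (0 : ℝ) < M := by exact_mod_cast (by omega : 0 < M)
  have hM4' : (4 : ℝ) ≤ M := by exact_mod_cast hM4
  have hexpy : exp y = (M : ℝ) ^ 2 := by
    rw [hy, show 2 * log (M : ℝ) = log (M : ℝ) + log (M : ℝ) by ring, Real.exp_add,
      Real.exp_log hMpos]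
    ring
  have hypos : 0 < y := by linarith
  have hKpos : 0 < K := by linarith
  obtain ⟨s0, hs0def⟩ : ∃ s0, s0 = 1 / (200 * (3 * K) * y) := ⟨_, rfl⟩
  have hs0 : 0 < s0 := by rw [hs0def]; positivity
  have hKy : 1 ≤ K * y := one_le_mul_of_one_le_of_one_le (by linarith) (by linarith)
  have hs0' : s0 ≤ 1 / 200 := by
    rw [hs0def]
    apply one_div_le_one_div_of_le (by norm_num)
    linarith
  have hs0'' : s0 * (200 * (3 * K) * y) = 1 := by rw [hs0def]; field_simp
  have hfm : ff y s0 y ≤ (601 * K) ^ 60 * y ^ 121 := by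
    unfold ff
    have h1 : y / s0 = 600 * K * y ^ 2 := by
      rw [hs0def]
      field_simp
      ring
    have h2 : 1 + y / s0 ≤ (601 * K) * y ^ 2 := by
      rw [h1]
      have : (1 : ℝ) ≤ K * y ^ 2 := one_le_mul_of_one_le_of_one_le (by linarith) (one_le_pow₀ (by linarith))
      linarith
    calc y * (1 + y / s0) ^ 60 ≤ y * ((601 * K) * y ^ 2) ^ 60 := by
          apply mul_le_mul_of_nonneg_left _ hypos.le
          exact pow_le_pow_left₀ (by positivity) h2 60
      _ = (601 * K) ^ 60 * y ^ 121 := by ring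
  have hP : (0 : ℝ) ≤ 601 ^ 60 * K ^ 61 * y ^ 122 := by positivity
  have hM1' : (20400 + 3 * C) * (601 ^ 60 * K ^ 61 * y ^ 122) ≤ M := by
    refine le_trans (le_of_eq ?_) hM1
    ring
  have c1 : 30 * ff y s0 y ≤ s0 * M := by
    have h1 : 18000 * (601 ^ 60 * K ^ 61 * y ^ 122) ≤ M := by nlinarith
    have h2 : s0 * (18000 * (601 ^ 60 * K ^ 61 * y ^ 122)) ≤ s0 * M :=
      mul_le_mul_of_nonneg_left h1 hs0.le
    have h3 : s0 * (18000 * (601 ^ 60 * K ^ 61 * y ^ 122)) =
        30 * ((601 * K) ^ 60 * y ^ 121) := by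
      calc s0 * (18000 * (601 ^ 60 * K ^ 61 * y ^ 122)) =
          (s0 * (200 * (3 * K) * y)) * (30 * ((601 * K) ^ 60 * y ^ 121)) := by ring
        _ = _ := by rw [hs0'', one_mul]
    linarith
  have c2 : C * K * (ff y s0 y + 2) ≤ M := by
    have h1 : (3 * C) * (601 ^ 60 * K ^ 61 * y ^ 122) ≤ M := by nlinarith
    have h4 : ff y s0 y + 2 ≤ 3 * ((601 * K) ^ 60 * y ^ 122) := by
      have h5 : (601 * K) ^ 60 * y ^ 121 ≤ (601 * K) ^ 60 * y ^ 122 := by
        apply mul_le_mul_of_nonneg_left _ (by positivity)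
        exact pow_le_pow_right₀ (by linarith) (by norm_num)
      have h6 : (1 : ℝ) ≤ (601 * K) ^ 60 * y ^ 122 :=
        one_le_mul_of_one_le_of_one_le (one_le_pow₀ (by linarith)) (one_le_pow₀ (by linarith))
      linarith
    have h5 := mul_le_mul_of_nonneg_left h4 (show 0 ≤ C * K by positivity)
    have e : C * K * (3 * ((601 * K) ^ 60 * y ^ 122)) = (3 * C) * (601 ^ 60 * K ^ 61 * y ^ 122) := by ring
    linarith
  have c3 : 4 ≤ (M : ℝ) ^ 2 * s0 := by
    have h1 : 2400 * K * y ≤ M := by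
      have h2 : K * y ≤ 601 ^ 60 * K ^ 61 * y ^ 122 := by
        have h3 : K ≤ K ^ 61 := le_self_pow₀ (by linarith) (by norm_num)
        have h4 : y ≤ y ^ 122 := le_self_pow₀ (by linarith) (by norm_num)
        have h5 : K * y ≤ K ^ 61 * y ^ 122 := mul_le_mul h3 h4 hypos.le (by positivity)
        have h6 : (1 : ℝ) ≤ 601 ^ 60 := one_le_pow₀ (by norm_num)
        have h7 : (0 : ℝ) ≤ K ^ 61 * y ^ 122 := by positivity
        calc K * y ≤ K ^ 61 * y ^ 122 := h5
          _ = 1 * (K ^ 61 * y ^ 122) := (one_mul _).symm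
          _ ≤ 601 ^ 60 * (K ^ 61 * y ^ 122) := mul_le_mul_of_nonneg_right h6 h7
          _ = _ := by ring
      nlinarith
    have h2 : (M : ℝ) ≤ (M : ℝ) ^ 2 := le_self_pow₀ (by linarith) (by norm_num)
    have h3 : 2400 * K * y * s0 ≤ (M : ℝ) ^ 2 * s0 :=
      mul_le_mul_of_nonneg_right (h1.trans h2) hs0.le
    have h4 : 2400 * K * y * s0 = 4 * (s0 * (200 * (3 * K) * y)) := by ring
    rw [h4, hs0''] at h3
    linarith
  exact ⟨M, y, s0, hMc, hM4, hM2, hM3, hexpy, hs0, hs0', hs0'', c1, c2, c3⟩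

/-- Error of a step of the first phase. -/
lemma phase1_error {k K y R ζ : ℝ} (hkK : k ≤ K) (hK : 1 ≤ K) (hy : 100 ≤ y)
    (hR : exp y = R) (hR16 : 16 ≤ R) (hζ : ζ ≤ 1) (a x : ℝ) (ha : a ≤ 1) :
    (12 * ((0 : ℕ) : ℝ) + 1) * a + 2 * k * (log (1 / (1 / (4 * R ^ 2))) + 1) * x ^ 0 +
      6 * (R * binEntropy (1 / (4 * R ^ 2))) + ζ ≤ 10 * K * y := by
  have hRpos : 0 < R := by linarith
  have hR2 : R ≤ R ^ 2 := le_self_pow₀ (by linarith) (by norm_num)
  have h4 : log (1 / (1 / (4 * R ^ 2))) = 2 * y + log 4 := by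
    rw [one_div_one_div, Real.log_mul (by norm_num) (by positivity), Real.log_pow, ← hR,
      Real.log_exp]
    push_cast
    ring
  have h5 : log 4 ≤ 2 := by
    have h1 : log 4 = 2 * log 2 := by
      rw [show (4 : ℝ) = 2 ^ 2 by norm_num, Real.log_pow]; norm_num
    have := Real.log_two_lt_d9
    rw [h1]; linarith
  have h5' : 0 ≤ log 4 := Real.log_nonneg (by norm_num)
  have h6 : R * binEntropy (1 / (4 * R ^ 2)) ≤ 1 := by
    have h7 := binEntropy_le (l := 1 / (4 * R ^ 2)) (by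
      rw [div_lt_one (by positivity)]
      linarith)
    have h8 := mul_le_mul_of_nonneg_left h7 hRpos.le
    rw [h4] at h8
    have h9 : R * (1 / (4 * R ^ 2) * (2 * y + log 4 + 1)) = (2 * y + log 4 + 1) / (4 * R) := by
      field_simp
    rw [h9] at h8
    refine h8.trans ?_
    rw [div_le_one (by positivity)]
    have h10 : y + 1 ≤ R := by rw [← hR]; exact Real.add_one_le_exp y
    linarith
  rw [h4, pow_zero]
  simp only [Nat.cast_zero, mul_zero, zero_add, mul_one, one_mul]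
  have h8 : 2 * k * (2 * y + log 4 + 1) ≤ 2 * K * (2 * y + 3) := by
    apply mul_le_mul (by linarith) (by linarith) (by linarith) (by positivity)
  have h9 : K * 100 ≤ K * y := mul_le_mul_of_nonneg_left hy (by linarith)
  linarith

/-- The first phase. -/
lemma phase1 {k K y R ζ : ℝ} {n : ℕ} (hkK : k ≤ K) (hK : 1 ≤ K) (hy : 100 ≤ y)
    (hR : exp y = R) (hR16 : 16 ≤ R) (hζ : ζ ≤ 1) (hn : (n : ℝ) < R) (A : ℕ → ℝ)
    (hA0 : 6 / 10 ≤ A 0) (hA1 : ∀ t, A t ≤ 1)
    (H : ∀ t < n, ∀ (L : ℕ) (l : ℝ), (L : ℝ) ≤ R → 0 < l → l ≤ 1 / 2 →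
      A t - ((12 * L + 1) * A t + 2 * k * (log (1 / l) + 1) * ((R - t) / R) ^ L +
        6 * (R * binEntropy l) + ζ) / (R - t) ≤ A (t + 1)) :
    ∀ j ≤ n, 6 / 10 - 10 * K * y * log (R / (R - j)) ≤ A j := by
  have hRpos : 0 < R := by linarith
  have hR2 : R ≤ R ^ 2 := le_self_pow₀ (by linarith) (by norm_num)
  intro j
  induction j with
  | zero =>
    intro _
    simp only [Nat.cast_zero, sub_zero]
    rw [div_self hRpos.ne', Real.log_one]
    linarith
  | succ j ih =>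
    intro hj
    have h0 := ih (by omega)
    have hjR : (j : ℝ) + 1 < R := by
      have h1 : ((j + 1 : ℕ) : ℝ) ≤ n := by exact_mod_cast hj
      push_cast at h1
      linarith
    have h1 := H j (by omega) 0 (1 / (4 * R ^ 2)) (by simpa using hRpos.le) (by positivity) (by
      rw [div_le_div_iff₀ (by positivity) (by norm_num)]
      linarith)
    have h2 := log_succ hjR
    have hpos : 0 < R - j := by linarith
    have h3 := phase1_error (k := k) (K := K) hkK hK hy hR hR16 hζ (A j) ((R - j) / R) (hA1 j)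
    have h4 := div_le_div_of_nonneg_right h3 hpos.le
    have hE : 0 ≤ 10 * K * y := by positivity
    have h5 := mul_le_mul_of_nonneg_left h2 hE
    rw [mul_add, mul_one_div] at h5
    linarith

/-- The second phase. -/
lemma phase2 {k K y R s0 : ℝ} {M j0 : ℕ} (hkK : k ≤ K) (hK : 1 ≤ K)
    (hy : 100 ≤ y) (hyK : 8 * log (14 * K) ≤ y) (hR : R = (M : ℝ) ^ 2) (hyR : exp y = R)
    (hM : 4 ≤ M) (hs0 : 0 < s0) (hs0' : s0 ≤ 1 / 200) (c1 : 30 * ff y s0 y ≤ s0 * M)
    (A : ℕ → ℝ)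
    (H : ∀ t < M ^ 2 - M, ∀ (L : ℕ) (l : ℝ), (L : ℝ) ≤ R → 0 < l → l ≤ 1 / 2 →
      A t - ((12 * L + 1) * A t + 2 * k * (log (1 / l) + 1) * ((R - t) / R) ^ L +
        6 * (R * binEntropy l) + exp (-ff y s0 y) / 4) / (R - t) ≤ A (t + 1))
    (hs : s0 ≤ log (R / (R - j0))) (hA : 1 / 2 ≤ A j0) :
    ∀ d : ℕ, j0 + d ≤ M ^ 2 - M →
      exp (-ff y s0 (log (R / (R - (j0 + d : ℕ))))) ≤ A (j0 + d) := by
  have hMpos : (0 : ℝ) < M := by exact_mod_cast (by omega : 0 < M)
  have hM4' : (4 : ℝ) ≤ M := by exact_mod_cast hM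
  have hypos : 0 ≤ y := by linarith
  intro d
  induction d with
  | zero =>
    intro _
    refine le_trans ?_ hA
    have h3 := le_ff hypos hs0 (s := log (R / (R - (j0 + 0 : ℕ)))) (by
      rw [add_zero]; exact hs0.le.trans hs)
    have h4 : exp (-ff y s0 (log (R / (R - (j0 + 0 : ℕ))))) ≤ exp (-1) :=
      Real.exp_le_exp.mpr (by linarith)
    have h5 := exp_neg_le (x := 1) (by norm_num) (by norm_num)
    linarith
  | succ d ih =>
    intro hd
    have h0 := ih (by omega)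
    rw [← add_assoc]
    generalize hj : j0 + d = j at *
    have hjlt : j < M ^ 2 - M := by omega
    obtain ⟨hs1, hs2, hjM⟩ := log_bounds hR hyR hM hs j (by omega) (by omega)
    have hpos : 0 < R - j := by linarith
    have hjR : (j : ℝ) + 1 < R := by linarith
    have hRpos : 0 < R := by
      have : (0 : ℝ) ≤ j := Nat.cast_nonneg j
      linarith
    have hlog := log_succ hjR
    have hexps : exp (-log (R / (R - j))) = (R - j) / R := by
      rw [Real.exp_neg, Real.exp_log (by positivity), inv_div]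
    have hH := H j hjlt
    rw [← hexps] at hH
    generalize hsdef : log (R / (R - j)) = s at *
    have hs0s : 0 ≤ s := hs0.le.trans hs1
    have hffs := ff_mono hypos hs0 hs0s hs2
    refine step (R := R) (u := R - j) (A := A j) (ζ := exp (-ff y s0 y) / 4) (k := k) (K := K)
      hkK hK hy hyK hyR.symm hs0 hs0' hs1 hpos hlog ?_ ?_ h0
      (by have : (0 : ℝ) ≤ j := Nat.cast_nonneg j
          linarith) hH
    · calc 30 * ff y s0 s ≤ 30 * ff y s0 y := by linarith
        _ ≤ s0 * M := c1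
        _ ≤ s * (R - j) := mul_le_mul hs1 hjM hMpos.le hs0s
    · have : exp (-ff y s0 y) ≤ exp (-ff y s0 s) := Real.exp_le_exp.mpr (by linarith)
      linarith


/-- the recursion, with explicit parameters -/
theorem recursion (C : ℝ) : ∃ c : ℕ, ∀ K : ℝ, 2 ≤ K → ∃ (m : ℕ) (f : ℝ), 4 ≤ m ∧ (m : ℝ) ≤ K ^ c ∧
    0 ≤ f ∧ C * K * (f + 1) ≤ m ∧ ∀ (A : ℕ → ℝ) (ζ : ℝ),
      ζ ≤ Real.exp (-f) / 2 → 0.69 ≤ A 0 → (∀ t, A t ≤ 1) →
      (∀ t < m ^ 2, ∀ L ≤ m ^ 2, ∀ l : ℝ, 0 < l → l ≤ 1 / 2 →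
      ((m : ℝ) ^ 2 - t) * (A t - A (t + 1)) ≤ (12 * L + 1) * A t + 6 * ((-Real.log l + 1) *
        ((((m : ℝ) ^ 2 - t) / (m : ℝ) ^ 2) ^ L * K)) + 6 * ((m : ℝ) ^ 2 * Real.binEntropy l) + ζ) →
      Real.exp (-f) ≤ A (m ^ 2 - m) := by
  obtain ⟨C', hC', hCC'⟩ : ∃ C' : ℝ, 1 ≤ C' ∧ C ≤ C' := ⟨max C 1, le_max_right _ _, le_max_left _ _⟩
  obtain ⟨c, hc⟩ := params C' hC'
  refine ⟨c, fun K hK => ?_⟩
  obtain ⟨M, y, s0, hMc, hM4, hM2, hM3, hexpy, hs0, hs0', hs0'', c1, c2, c3⟩ := hc K hK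
  have hMpos : (0 : ℝ) < M := by exact_mod_cast (by omega : 0 < M)
  have hM4' : (4 : ℝ) ≤ M := by exact_mod_cast hM4
  have hypos : 0 ≤ y := by linarith
  have hyff : y ≤ ff y s0 y := le_ff hypos hs0 hypos
  have hMM : M * 4 ≤ M ^ 2 := by rw [sq]; exact Nat.mul_le_mul_left M hM4
  have hK3 : (1 : ℝ) ≤ 3 * K := by linarith
  refine ⟨M, ff y s0 y + 1, hM4, hMc, by linarith, ?_, ?_⟩
  · have h1 : C' * K * (ff y s0 y + 1 + 1) ≤ M := by
      refine le_trans (le_of_eq ?_) c2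
      ring
    refine le_trans ?_ h1
    apply mul_le_mul_of_nonneg_right _ (by linarith)
    exact mul_le_mul_of_nonneg_right hCC' (by linarith)
  · intro A ζ hζ hA0 hA1 H
    obtain ⟨R, hR⟩ : ∃ R : ℝ, R = (M : ℝ) ^ 2 := ⟨_, rfl⟩
    rw [← hR] at H c3 hexpy
    have hMR : 4 * (M : ℝ) ≤ R := by
      rw [hR, sq]
      exact mul_le_mul_of_nonneg_right hM4' (by linarith)
    have hn : ((M ^ 2 - M : ℕ) : ℝ) < R := by
      have h1 : M ^ 2 - M < M ^ 2 := by omega
      rw [hR]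
      exact_mod_cast h1
    have hζ' : ζ ≤ exp (-ff y s0 y) / 4 := by
      have h1 : exp (-(ff y s0 y + 1)) = exp (-ff y s0 y) * exp (-1) := by
        rw [← Real.exp_add]; congr 1; ring
      have h2 := exp_neg_le (x := 1) (by norm_num) (by norm_num)
      have h3 : exp (-ff y s0 y) * exp (-1) ≤ exp (-ff y s0 y) * (1 / 2) :=
        mul_le_mul_of_nonneg_left (by linarith) (exp_pos _).le
      rw [h1] at hζ
      linarith
    have H' : ∀ t < M ^ 2 - M, ∀ (L : ℕ) (l : ℝ), (L : ℝ) ≤ R → 0 < l → l ≤ 1 / 2 →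
        A t - ((12 * L + 1) * A t + 2 * (3 * K) * (log (1 / l) + 1) * ((R - t) / R) ^ L +
          6 * (R * binEntropy l) + exp (-ff y s0 y) / 4) / (R - t) ≤ A (t + 1) := by
      intro t ht L l hL hl hl'
      have h1 := H t (by omega) L (by
        rw [hR] at hL
        exact_mod_cast hL) l hl hl'
      have h2 : (t : ℝ) < R := by
        have h3 : t < M ^ 2 := by omega
        rw [hR]
        exact_mod_cast h3
      have h3 : 0 < R - t := by linarith
      have h4 : log (1 / l) = -log l := by rw [one_div, Real.log_inv]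
      rw [h4, sub_le_iff_le_add, ← sub_le_iff_le_add', le_div_iff₀ h3]
      have h5 : (R - t) * (A t - A (t + 1)) ≤ (12 * L + 1) * A t + 2 * (3 * K) * (-log l + 1) *
          ((R - t) / R) ^ L + 6 * (R * binEntropy l) + exp (-ff y s0 y) / 4 := by
        have h6 : 2 * (3 * K) * (-log l + 1) * ((R - t) / R) ^ L =
            6 * ((-log l + 1) * (((R - t) / R) ^ L * K)) := by ring
        rw [h6]
        linarith
      linarith
    obtain ⟨j0, hj0, hja, hjb⟩ := start hR hM4 hs0 hs0' c3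
    have ph1 := phase1 (k := 3 * K) (K := 3 * K) (ζ := exp (-ff y s0 y) / 4) le_rfl hK3 hM2 hexpy
      (by linarith)
      (by
        have : exp (-ff y s0 y) ≤ 1 := Real.exp_le_one_iff.mpr (by linarith)
        linarith) hn A (by norm_num at hA0 ⊢; linarith) hA1 H' j0 hj0
    have hE : 10 * (3 * K) * y * log (R / (R - j0)) ≤ 1 / 10 := by
      have h3 : 10 * (3 * K) * y * log (R / (R - j0)) ≤ 10 * (3 * K) * y * (2 * s0) :=
        mul_le_mul_of_nonneg_left hjb (by positivity)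
      have h4 : 10 * (3 * K) * y * (2 * s0) = 1 / 10 := by
        calc 10 * (3 * K) * y * (2 * s0) = (s0 * (200 * (3 * K) * y)) / 10 := by ring
          _ = 1 / 10 := by rw [hs0'']
      linarith
    have hend := phase2 (k := 3 * K) (K := 3 * K) le_rfl hK3 hM2 hM3 hR hexpy hM4 hs0 hs0' c1 A H' hja
      (by linarith) (M ^ 2 - M - j0) (by omega)
    rw [show j0 + (M ^ 2 - M - j0) = M ^ 2 - M by omega] at hend
    refine le_trans ?_ hend
    apply Real.exp_le_exp.mpr
    obtain ⟨h1, h2, -⟩ := log_bounds hR hexpy hM4 hja (M ^ 2 - M) hj0 le_rfl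
    have := ff_mono hypos hs0 (hs0.le.trans h1) h2
    linarith


end Pool.Agent.KQ
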