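import Mathlib

/-! A relative regularity lemma for families of supermodular set functions. -/

namespace Pool.Agent.KQ

open Finset

variable {n : ℕ}

lemma exists_chain (w : Finset (Fin n) → Fin n → ℝ) :
    ∃ Mv : ℕ → Finset (Fin n), Mv n = Finset.univ ∧ (∀ v, v ≤ n → (Mv v).card = v) ∧
      ∀ v, v < n → ∃ i ∈ Mv (v + 1), Mv v = (Mv (v + 1)).erase i ∧
        ∀ j ∈ Mv (v + 1), w (Mv (v + 1)) j ≤ w (Mv (v + 1)) i := by
  classical
  let step : Finset (Fin n) → Finset (Fin n) := fun M =>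
    if h : M.Nonempty then M.erase (Classical.choose (Finset.exists_max_image M (w M) h)) else ∅
  let f : ℕ → Finset (Fin n) := fun t => step^[t] Finset.univ
  have hstep : ∀ M : Finset (Fin n), M.Nonempty → ∃ i ∈ M, step M = M.erase i ∧
      ∀ j ∈ M, w M j ≤ w M i := by
    intro M h
    obtain ⟨h1, h2⟩ := Classical.choose_spec (Finset.exists_max_image M (w M) h)
    refine ⟨_, h1, ?_, h2⟩
    simp only [step]
    rw [dif_pos h]
  have hf : ∀ t, f (t + 1) = step (f t) := by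
    intro t
    simp only [f]
    rw [Function.iterate_succ_apply']
  have hcard : ∀ t, t ≤ n → (f t).card = n - t := by
    intro t
    induction t with
    | zero => intro _; simp [f]
    | succ t ih =>
      intro ht
      have h1 := ih (by omega)
      have hne : (f t).Nonempty := by
        rw [← Finset.card_pos]; omega
      obtain ⟨i, hi, he, _⟩ := hstep (f t) hne
      rw [hf, he, Finset.card_erase_of_mem hi, h1]
      omega
  refine ⟨fun v => f (n - v), ?_, ?_, ?_⟩
  · simp [f]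
  · intro v hv
    simp only
    rw [hcard _ (by omega)]
    omega
  · intro v hv
    have hne : (f (n - (v + 1))).Nonempty := by
      rw [← Finset.card_pos, hcard _ (by omega)]; omega
    obtain ⟨i, hi, he, hm⟩ := hstep _ hne
    refine ⟨i, hi, ?_, hm⟩
    have : n - v = (n - (v + 1)) + 1 := by omega
    simp only
    rw [this, hf, he]

/-- sum of the marginal differences -/
def EE (g : Finset (Fin n) → ℝ) (M : Finset (Fin n)) : ℝ := ∑ i ∈ M, (g M - g (M.erase i))

/-- average of the marginal differences -/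
noncomputable def AA (g : Finset (Fin n) → ℝ) (M : Finset (Fin n)) : ℝ := EE g M / M.card

section step

variable {g : Finset (Fin n) → ℝ}

lemma EE_nonneg (he0 : ∀ M, ∀ i ∈ M, 0 ≤ g M - g (M.erase i)) (M : Finset (Fin n)) :
    0 ≤ EE g M := Finset.sum_nonneg fun i hi => he0 M i hi

lemma EE_le (he1 : ∀ M, ∀ i ∈ M, g M - g (M.erase i) ≤ 1) (M : Finset (Fin n)) :
    EE g M ≤ M.card := by
  unfold EE
  calc ∑ i ∈ M, (g M - g (M.erase i)) ≤ ∑ _i ∈ M, (1 : ℝ) := Finset.sum_le_sum fun i hi => he1 M i hi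
    _ = M.card := by simp

/-- the drop of the total correlation -/
lemma EE_step (hmono : ∀ M M', M' ⊆ M → ∀ i ∈ M', g M' - g (M'.erase i) ≤ g M - g (M.erase i))
    {M : Finset (Fin n)} {i : Fin n} (hi : i ∈ M) :
    EE g (M.erase i) + (g M - g (M.erase i)) ≤ EE g M := by
  unfold EE
  rw [← Finset.add_sum_erase _ _ hi, add_comm]
  have := Finset.sum_le_sum fun j (hj : j ∈ M.erase i) => hmono M (M.erase i) (Finset.erase_subset _ _) j hj
  linarith

end step

theorem potential_step {ι : Type*} [Fintype ι] (g : ι → Finset (Fin n) → ℝ) (κ : Fin n → ℝ)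
    (b Φ : ℝ) (he0 : ∀ t, ∀ M, ∀ i ∈ M, 0 ≤ g t M - g t (M.erase i)) (hΦ : 0 < Φ)
    (M : Finset (Fin n)) (v : ℕ) (hv : 1 ≤ v) (hM : M.card = v + 1) (i : Fin n) (hi : i ∈ M)
    (hmax : ∀ j ∈ M, ∑ t, (g t M - g t (M.erase j)) / (AA (g t) M + Φ) + b * κ j ≤
      ∑ t, (g t M - g t (M.erase i)) / (AA (g t) M + Φ) + b * κ i) :
    ∑ t, Real.log (AA (g t) (M.erase i) + Φ) + b * ((∑ j ∈ M.erase i, κ j) / (M.erase i).card) +
      ∑ t, (EE (g t) M - (g t M - g t (M.erase i)) - EE (g t) (M.erase i)) /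
        (v * (AA (g t) M + Φ)) ≤
    ∑ t, Real.log (AA (g t) M + Φ) + b * ((∑ j ∈ M, κ j) / M.card) := by
  have hv0 : (0 : ℝ) < v := by exact_mod_cast hv
  have hM' : (M.erase i).card = v := by rw [Finset.card_erase_of_mem hi, hM]; rfl
  have hMr : (M.card : ℝ) = v + 1 := by rw [hM]; push_cast; rfl
  have hMr' : ((M.erase i).card : ℝ) = v := by rw [hM']
  have hA0 : ∀ t N, 0 ≤ AA (g t) N := fun t N => div_nonneg (EE_nonneg (he0 t) N) (Nat.cast_nonneg _)
  have hApos : ∀ t N, 0 < AA (g t) N + Φ := fun t N => by have := hA0 t N; linarith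
  -- logarithms
  have h1 : ∀ t, Real.log (AA (g t) (M.erase i) + Φ) ≤ Real.log (AA (g t) M + Φ) +
      (AA (g t) M - (g t M - g t (M.erase i)) -
        (EE (g t) M - (g t M - g t (M.erase i)) - EE (g t) (M.erase i))) /
        (v * (AA (g t) M + Φ)) := by
    intro t
    have h2 := Real.log_le_sub_one_of_pos (div_pos (hApos t (M.erase i)) (hApos t M))
    rw [Real.log_div (hApos t (M.erase i)).ne' (hApos t M).ne'] at h2
    have h3 : (AA (g t) (M.erase i) + Φ) / (AA (g t) M + Φ) - 1 =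
        (AA (g t) M - (g t M - g t (M.erase i)) -
        (EE (g t) M - (g t M - g t (M.erase i)) - EE (g t) (M.erase i))) /
        (v * (AA (g t) M + Φ)) := by
      rw [div_sub_one (hApos t M).ne', div_eq_div_iff (hApos t M).ne'
        (mul_pos hv0 (hApos t M)).ne']
      have e1 : AA (g t) (M.erase i) * v = EE (g t) (M.erase i) := by
        unfold AA; rw [hMr', div_mul_cancel₀ _ hv0.ne']
      have e2 : AA (g t) M * (v + 1) = EE (g t) M := by
        unfold AA; rw [hMr, div_mul_cancel₀ _ (by positivity)]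
      have e3 : (AA (g t) (M.erase i) + Φ - (AA (g t) M + Φ)) * v =
          AA (g t) M - (g t M - g t (M.erase i)) -
        (EE (g t) M - (g t M - g t (M.erase i)) - EE (g t) (M.erase i)) := by
        rw [← e1, ← e2]; ring
      calc (AA (g t) (M.erase i) + Φ - (AA (g t) M + Φ)) * (v * (AA (g t) M + Φ))
          = ((AA (g t) (M.erase i) + Φ - (AA (g t) M + Φ)) * v) * (AA (g t) M + Φ) := by ring
        _ = _ := by rw [e3]
    linarith
  have h2 := Finset.sum_le_sum fun t (_ : t ∈ (Finset.univ : Finset ι)) => h1 t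
  rw [Finset.sum_add_distrib] at h2
  -- split the fractions
  have h3 : ∀ t, (AA (g t) M - (g t M - g t (M.erase i)) -
        (EE (g t) M - (g t M - g t (M.erase i)) - EE (g t) (M.erase i))) /
        (v * (AA (g t) M + Φ)) =
      (1 / v) * (AA (g t) M / (AA (g t) M + Φ) - (g t M - g t (M.erase i)) / (AA (g t) M + Φ)) -
      (EE (g t) M - (g t M - g t (M.erase i)) - EE (g t) (M.erase i)) / (v * (AA (g t) M + Φ)) := by
    intro t
    have := (hApos t M).ne'
    field_simp
  rw [Finset.sum_congr rfl fun t _ => h3 t, Finset.sum_sub_distrib, ← Finset.mul_sum,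
    Finset.sum_sub_distrib] at h2
  -- the average of the weights
  have h4 : ∑ j ∈ M, (∑ t, (g t M - g t (M.erase j)) / (AA (g t) M + Φ) + b * κ j) =
      (v + 1) * (∑ t, AA (g t) M / (AA (g t) M + Φ) + b * ((∑ j ∈ M, κ j) / M.card)) := by
    have hcomm : ∑ j ∈ M, ∑ t, (g t M - g t (M.erase j)) / (AA (g t) M + Φ) =
        ∑ t, ∑ j ∈ M, (g t M - g t (M.erase j)) / (AA (g t) M + Φ) := Finset.sum_comm
    rw [Finset.sum_add_distrib, hcomm, ← Finset.mul_sum M κ b, mul_add,
      Finset.mul_sum Finset.univ (fun t => AA (g t) M / (AA (g t) M + Φ)) ((v : ℝ) + 1)]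
    have e5 : b * ∑ j ∈ M, κ j = ((v : ℝ) + 1) * (b * ((∑ j ∈ M, κ j) / M.card)) := by
      rw [hMr]; field_simp
    rw [e5]
    congr 1
    refine Finset.sum_congr rfl fun t _ => ?_
    rw [← Finset.sum_div]
    have e2 : AA (g t) M * (v + 1) = ∑ j ∈ M, (g t M - g t (M.erase j)) := by
      unfold AA; rw [hMr, div_mul_cancel₀ _ (by positivity)]; rfl
    rw [← e2]; ring
  have h5 : ∑ j ∈ M, (∑ t, (g t M - g t (M.erase j)) / (AA (g t) M + Φ) + b * κ j) ≤
      (v + 1) * (∑ t, (g t M - g t (M.erase i)) / (AA (g t) M + Φ) + b * κ i) := by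
    calc _ ≤ ∑ _j ∈ M, (∑ t, (g t M - g t (M.erase i)) / (AA (g t) M + Φ) + b * κ i) :=
          Finset.sum_le_sum hmax
      _ = _ := by rw [Finset.sum_const, nsmul_eq_mul, hMr]
  rw [h4] at h5
  have h6 := le_of_mul_le_mul_left h5 (by positivity : (0 : ℝ) < v + 1)
  have h7 : b * ((∑ j ∈ M.erase i, κ j) / (M.erase i).card) =
      b * ((∑ j ∈ M, κ j) / M.card) + (1 / v) * (b * ((∑ j ∈ M, κ j) / M.card) - b * κ i) := by
    rw [← Finset.add_sum_erase _ _ hi, hMr, hMr']
    field_simp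
    ring
  rw [h7]
  have h8 : (1 / (v : ℝ)) * (∑ t, AA (g t) M / (AA (g t) M + Φ) -
      ∑ t, (g t M - g t (M.erase i)) / (AA (g t) M + Φ)) +
      (1 / v) * (b * ((∑ j ∈ M, κ j) / M.card) - b * κ i) ≤ 0 := by
    rw [← mul_add]
    apply mul_nonpos_of_nonneg_of_nonpos (by positivity)
    linarith
  linarith

theorem regularity {ι : Type*} [Fintype ι] [Nonempty ι] (g : ι → Finset (Fin n) → ℝ)
    (κ : Fin n → ℝ) (K Φ η : ℝ) (T Q : ℕ)
    (hg0 : ∀ t M, 0 ≤ g t M)
    (he0 : ∀ t, ∀ M, ∀ i ∈ M, 0 ≤ g t M - g t (M.erase i))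
    (he1 : ∀ t, ∀ M, ∀ i ∈ M, g t M - g t (M.erase i) ≤ 1)
    (hmono : ∀ t, ∀ M M', M' ⊆ M → ∀ i ∈ M', g t M' - g t (M'.erase i) ≤ g t M - g t (M.erase i))
    (hκ0 : ∀ i, 0 ≤ κ i) (hκ : ∑ i, κ i ≤ K * n) (hK : 0 < K) (hΦ0 : 0 < Φ) (hΦ1 : Φ ≤ 1)
    (hη : 0 < η) (hT1 : 1 ≤ T) (hT : 1 / (η * Φ) ≤ T)
    (hQ : 2 * (Fintype.card ι * Real.log (2 / Φ)) / η ≤ Q) (hn : T ^ Q ≤ n) :
    ∃ q < Q, ∃ M : Finset (Fin n), M.card = n / T ^ q ∧
      (∀ t, EE (g t) M - g t M ≤ η * (EE (g t) M + 2 * Φ * M.card)) ∧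
      ∑ i ∈ M, κ i ≤ 2 * K * M.card := by
  classical
  set β : ℝ := Fintype.card ι * Real.log (2 / Φ) with hβ
  have hlog : 0 < Real.log (2 / Φ) := Real.log_pos (by rw [lt_div_iff₀ hΦ0]; linarith)
  have hι : (0 : ℝ) < Fintype.card ι := by exact_mod_cast Fintype.card_pos
  have hβ0 : 0 < β := mul_pos hι hlog
  have hlog2 : Real.log (2 / Φ) = Real.log 2 - Real.log Φ :=
    Real.log_div (by norm_num) hΦ0.ne'
  set b : ℝ := β / K with hb
  have hb0 : 0 < b := div_pos hβ0 hK
  obtain ⟨Mv, hMn, hcard, hstep⟩ := exists_chain (n := n)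
    (fun M j => ∑ t, (g t M - g t (M.erase j)) / (AA (g t) M + Φ) + b * κ j)
  have hn0 : 0 < n := lt_of_lt_of_le (pow_pos (by omega) _) hn
  have hnr : (0 : ℝ) < n := Nat.cast_pos.mpr hn0
  have hA0 : ∀ t N, 0 ≤ AA (g t) N := fun t N => div_nonneg (EE_nonneg (he0 t) N) (Nat.cast_nonneg _)
  have hA1 : ∀ t N, AA (g t) N ≤ 1 := fun t N => by
    unfold AA
    exact div_le_one_of_le₀ (EE_le (he1 t) N) (Nat.cast_nonneg _)
  have hApos : ∀ t N, 0 < AA (g t) N + Φ := fun t N => by have := hA0 t N; linarith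
  let D : ℕ → ℝ := fun v => ∑ t, Real.log (AA (g t) (Mv v) + Φ) +
    b * ((∑ j ∈ Mv v, κ j) / (Mv v).card)
  let TCv : ι → ℕ → ℝ := fun t v => EE (g t) (Mv v) - g t (Mv v)
  -- one step
  have hone : ∀ v, 1 ≤ v → v < n → (∀ t, 0 ≤ TCv t (v + 1) - TCv t v) ∧
      D v + ∑ t, (TCv t (v + 1) - TCv t v) / (v * (AA (g t) (Mv (v + 1)) + Φ)) ≤ D (v + 1) ∧
      ∀ t, EE (g t) (Mv v) ≤ EE (g t) (Mv (v + 1)) := by
    intro v hv hvn
    obtain ⟨i, hi, he, hm⟩ := hstep v hvn
    have e1 : ∀ t, TCv t (v + 1) - TCv t v = EE (g t) (Mv (v + 1)) -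
        (g t (Mv (v + 1)) - g t ((Mv (v + 1)).erase i)) - EE (g t) ((Mv (v + 1)).erase i) := by
      intro t
      simp only [TCv]
      rw [he]; ring
    have e2 := fun t => EE_step (hmono t) hi
    refine ⟨fun t => ?_, ?_, fun t => ?_⟩
    · rw [e1]; have := e2 t; linarith
    · have h1 := potential_step g κ b Φ he0 hΦ0 (Mv (v + 1)) v hv (hcard _ (by omega)) i hi hm
      have e3 : ∑ t, (TCv t (v + 1) - TCv t v) / (v * (AA (g t) (Mv (v + 1)) + Φ)) =
          ∑ t, (EE (g t) (Mv (v + 1)) - (g t (Mv (v + 1)) - g t ((Mv (v + 1)).erase i)) -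
            EE (g t) ((Mv (v + 1)).erase i)) / (v * (AA (g t) (Mv (v + 1)) + Φ)) :=
        Finset.sum_congr rfl fun t _ => by rw [e1 t]
      simp only [D]
      rw [e3, he]
      exact h1
    · have := e2 t
      have h3 := he0 t _ i hi
      rw [he]; linarith
  have hDmono : ∀ a c, 1 ≤ a → a ≤ c → c ≤ n → D a ≤ D c := by
    intro a c ha hac
    induction c, hac using Nat.le_induction with
    | base => intro _; exact le_rfl
    | succ c hc ih =>
      intro hcn
      obtain ⟨h1, h2, _⟩ := hone c (by omega) (by omega)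
      have h3 := ih (by omega)
      have h4 : 0 ≤ ∑ t, (TCv t (c + 1) - TCv t c) / (c * (AA (g t) (Mv (c + 1)) + Φ)) :=
        Finset.sum_nonneg fun t _ => div_nonneg (h1 t)
          (mul_nonneg (Nat.cast_nonneg _) (hApos t _).le)
      linarith
  have hEmono : ∀ t a c, 1 ≤ a → a ≤ c → c ≤ n → EE (g t) (Mv a) ≤ EE (g t) (Mv c) := by
    intro t a c ha hac
    induction c, hac using Nat.le_induction with
    | base => intro _; exact le_rfl
    | succ c hc ih =>
      intro hcn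
      exact (ih (by omega)).trans ((hone c (by omega) (by omega)).2.2 t)
  have hEA : ∀ t v, 1 ≤ v → v ≤ n → (v : ℝ) * AA (g t) (Mv v) = EE (g t) (Mv v) := by
    intro t v hv hvn
    unfold AA
    rw [hcard v hvn, mul_div_cancel₀]
    exact_mod_cast (by omega : v ≠ 0)
  -- growth of the total correlation
  have hgrow : ∀ t a N, 1 ≤ a → N ≤ n → ∀ c, a ≤ c → c ≤ N →
      TCv t c - TCv t a ≤ (EE (g t) (Mv N) + N * Φ) * (D c - D a) := by
    intro t a N ha hN c hac
    induction c, hac using Nat.le_induction with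
    | base => intro _; simp
    | succ c hc ih =>
      intro hcN
      obtain ⟨h1, h2, _⟩ := hone c (by omega) (by omega)
      have h3 := ih (by omega)
      have hcpos : (0 : ℝ) < c := by exact_mod_cast (by omega : 0 < c)
      have h4 : (TCv t (c + 1) - TCv t c) / (c * (AA (g t) (Mv (c + 1)) + Φ)) ≤
          ∑ t, (TCv t (c + 1) - TCv t c) / (c * (AA (g t) (Mv (c + 1)) + Φ)) :=
        Finset.single_le_sum (f := fun t => (TCv t (c + 1) - TCv t c) /
          (c * (AA (g t) (Mv (c + 1)) + Φ))) (fun t _ => div_nonneg (h1 t)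
          (mul_nonneg (Nat.cast_nonneg _) (hApos t _).le)) (Finset.mem_univ t)
      have h5 : (TCv t (c + 1) - TCv t c) / (c * (AA (g t) (Mv (c + 1)) + Φ)) ≤ D (c + 1) - D c := by
        linarith
      have hpos : 0 < c * (AA (g t) (Mv (c + 1)) + Φ) := mul_pos hcpos (hApos t _)
      rw [div_le_iff₀ hpos] at h5
      have hD0 : 0 ≤ D (c + 1) - D c := by
        have := hDmono c (c + 1) (by omega) (by omega) (by omega)
        linarith
      have h6 : c * (AA (g t) (Mv (c + 1)) + Φ) ≤ EE (g t) (Mv N) + N * Φ := by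
        have h7 := hEA t (c + 1) (by omega) (by omega)
        have h8 := hEmono t (c + 1) N (by omega) hcN hN
        have h9 := hA0 t (Mv (c + 1))
        push_cast at h7
        have h10 : ((c : ℝ) + 1) ≤ N := by exact_mod_cast hcN
        nlinarith
      have h7 := mul_le_mul_of_nonneg_left h6 hD0
      nlinarith
  -- bounds for the potential
  have hDlow : ∀ v, 1 ≤ v → v ≤ n → Fintype.card ι * Real.log Φ + b * ((∑ j ∈ Mv v, κ j) / (Mv v).card) ≤ D v := by
    intro v _ _
    simp only [D]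
    have h1 : ∑ _t : ι, Real.log Φ ≤ ∑ t, Real.log (AA (g t) (Mv v) + Φ) :=
      Finset.sum_le_sum fun t _ => Real.log_le_log hΦ0 (by have := hA0 t (Mv v); linarith)
    rw [Finset.sum_const, Finset.card_univ, nsmul_eq_mul] at h1
    linarith
  have hDtop : D n ≤ Fintype.card ι * Real.log 2 + β := by
    simp only [D]
    have h1 : ∑ t, Real.log (AA (g t) (Mv n) + Φ) ≤ ∑ _t : ι, Real.log 2 :=
      Finset.sum_le_sum fun t _ => Real.log_le_log (hApos t _) (by have := hA1 t (Mv n); linarith)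
    rw [Finset.sum_const, Finset.card_univ, nsmul_eq_mul] at h1
    have h2 : b * ((∑ j ∈ Mv n, κ j) / (Mv n).card) ≤ β := by
      rw [hcard n le_rfl, hMn]
      have h3 : (∑ j, κ j) / (n : ℝ) ≤ K := by
        rw [div_le_iff₀ hnr]; exact hκ
      calc b * ((∑ j, κ j) / (n : ℝ)) ≤ b * K := mul_le_mul_of_nonneg_left h3 hb0.le
        _ = β := by rw [hb]; field_simp
    linarith
  have hrange : Fintype.card ι * Real.log 2 + β - Fintype.card ι * Real.log Φ = 2 * β := by
    rw [hβ, hlog2]; ring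
  -- scales
  have hN1 : ∀ q, q ≤ Q → 1 ≤ n / T ^ q := by
    intro q hq
    rw [Nat.one_le_div_iff (pow_pos (by omega) _)]
    exact le_trans (Nat.pow_le_pow_right hT1 hq) hn
  have hNn : ∀ q, n / T ^ q ≤ n := fun q => Nat.div_le_self _ _
  have hκn : ∀ v, 0 ≤ b * ((∑ j ∈ Mv v, κ j) / (Mv v).card) := fun v =>
    mul_nonneg hb0.le (div_nonneg (Finset.sum_nonneg fun i _ => hκ0 i) (Nat.cast_nonneg _))
  have hQ0 : (0 : ℝ) < Q := lt_of_lt_of_le (by positivity) hQ
  have hQ1 : 0 < Q := by exact_mod_cast hQ0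
  have hpig : ∃ q ∈ Finset.range Q, D (n / T ^ q) - D (n / T ^ (q + 1)) ≤ 2 * β / Q := by
    apply Finset.exists_le_of_sum_le (Finset.nonempty_range_iff.mpr hQ1.ne')
    rw [Finset.sum_range_sub', Finset.sum_const, Finset.card_range, nsmul_eq_mul]
    have h1 : (Q : ℝ) * (2 * β / Q) = 2 * β := by field_simp
    rw [h1, pow_zero, Nat.div_one]
    have h2 := hDlow (n / T ^ Q) (hN1 Q le_rfl) (hNn Q)
    have h3 := hκn (n / T ^ Q)
    linarith
  obtain ⟨q, hq, hqd⟩ := hpig
  rw [Finset.mem_range] at hq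
  have hdrop : D (n / T ^ q) - D (n / T ^ (q + 1)) ≤ η := by
    refine hqd.trans ?_
    rw [div_le_iff₀ hQ0]
    rw [div_le_iff₀ hη] at hQ
    linarith
  refine ⟨q, hq, Mv (n / T ^ q), hcard _ (hNn q), ?_, ?_⟩
  · intro t
    set N := n / T ^ q with hN
    have hN' : n / T ^ (q + 1) = N / T := by
      rw [hN, Nat.div_div_eq_div_mul, pow_succ]
    rw [hN'] at hdrop
    have ha : 1 ≤ N / T := by rw [← hN']; exact hN1 _ (by omega)
    have h1 := hgrow t (N / T) N ha (hNn q) N (Nat.div_le_self _ _) le_rfl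
    have h2 : TCv t (N / T) ≤ η * Φ * N := by
      have h3 : TCv t (N / T) ≤ ((N / T : ℕ) : ℝ) := by
        have h4 := EE_le (he1 t) (Mv (N / T))
        have h5 := hg0 t (Mv (N / T))
        rw [hcard _ ((Nat.div_le_self _ _).trans (hNn q))] at h4
        simp only [TCv]
        linarith
      have h4 : ((N / T : ℕ) : ℝ) ≤ N / T := Nat.cast_div_le
      have hT0 : (0 : ℝ) < T := by exact_mod_cast hT1
      have h5 : (N : ℝ) / T ≤ η * Φ * N := by
        rw [div_le_iff₀ hT0]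
        rw [div_le_iff₀ (by positivity)] at hT
        have hN0 : (0 : ℝ) ≤ N := Nat.cast_nonneg _
        nlinarith
      linarith
    have h3 : 0 ≤ EE (g t) (Mv N) + N * Φ := by
      have := EE_nonneg (he0 t) (Mv N)
      positivity
    have h4 := mul_le_mul_of_nonneg_left hdrop h3
    have h5 : TCv t N = EE (g t) (Mv N) - g t (Mv N) := rfl
    rw [hcard _ (hNn q), ← h5]
    have e1 : η * (EE (g t) (Mv N) + 2 * Φ * N) = (EE (g t) (Mv N) + N * Φ) * η + η * Φ * N := by ring
    linarith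
  · set N := n / T ^ q with hN
    have h1 := hDlow N (hN1 q (by omega)) (hNn q)
    have h2 := hDmono N n (hN1 q (by omega)) (hNn q) le_rfl
    have h3 : b * ((∑ j ∈ Mv N, κ j) / (Mv N).card) ≤ 2 * β := by linarith
    have hNpos : (0 : ℝ) < N := by exact_mod_cast hN1 q (by omega)
    rw [hcard _ (hNn q)] at h3 ⊢
    rw [mul_div_assoc', div_le_iff₀ hNpos] at h3
    have h4 : b * ∑ j ∈ Mv N, κ j ≤ b * (2 * K * N) := by
      have : b * (2 * K * N) = 2 * β * N := by rw [hb]; field_simp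
      linarith
    exact le_of_mul_le_mul_left h4 hb0

end Pool.Agent.KQ
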