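import Pool.Agent.KQ.Avg
import Pool.Agent.KQ.Num
import Pool.Agent.KQ.Reg
import Pool.Agent.KN.CoreA

/-! Choice of the set `M` and of the players, quantitative version. -/

namespace Pool.Agent.KQ

open Finset Pool.Agent.SemRO
open Pool.Agent.KN (Gs TC rd Aav Gs_nonneg Gs_mono_M Gs_diff_le Gs_super TC_nonneg sum_rd)

variable {n R : ℕ} {c : Fin R → (Fin n → Bool) → Fin n → Option Bool} {W : Finset (Fin n → Bool)}

/-- average over the sets of `t` players, per point of `W` -/
noncomputable def gq (W : Finset (Fin n → Bool)) (c : Fin R → (Fin n → Bool) → Fin n → Option Bool)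
    (t : Fin (R + 1)) (M : Finset (Fin n)) : ℝ :=
  (∑ S ∈ (Finset.univ : Finset (Fin R)).powersetCard t, Gs W c M S) / (R.choose t * W.card)

lemma gq_diff (t : Fin (R + 1)) (M : Finset (Fin n)) (i : Fin n) :
    gq W c t M - gq W c t (M.erase i) =
      (∑ S ∈ (Finset.univ : Finset (Fin R)).powersetCard t, (Gs W c M S - Gs W c (M.erase i) S)) /
        (R.choose t * W.card) := by
  unfold gq
  rw [Finset.sum_sub_distrib]; ring

lemma EE_gq (t : Fin (R + 1)) (M : Finset (Fin n)) :
    EE (gq W c t) M = (∑ S ∈ (Finset.univ : Finset (Fin R)).powersetCard t,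
      (Gs W c M S + TC W c M S)) / (R.choose t * W.card) := by
  unfold EE
  rw [Finset.sum_congr rfl fun i _ => gq_diff t M i, ← Finset.sum_div, Finset.sum_comm]
  congr 1
  refine Finset.sum_congr rfl fun S _ => ?_
  unfold TC
  ring

theorem exists_M' (hW : W.Nonempty) (k : ℕ) (hR : 0 < R)
    (hlen : ∀ z ∈ W, ∀ j, (dom (c j z)).card * R ≤ k * n) {Φ η : ℝ} (T Q : ℕ)
    (hΦ0 : 0 < Φ) (hΦ1 : Φ ≤ 1) (hη : 0 < η) (hη1 : η ≤ 1 / 2) (hT1 : 1 ≤ T)
    (hT : 1 / (η * Φ) ≤ T) (hQ : 2 * (((R : ℝ) + 1) * Real.log (2 / Φ)) / η ≤ Q) (hn : T ^ Q ≤ n) :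
    ∃ M : Finset (Fin n), n / T ^ Q ≤ M.card ∧ M.Nonempty ∧
      (∀ t ≤ R, Xav W c M t ≤ 2 * η * (Aav W c M t + 2 * Φ)) ∧
      ∑ z ∈ W, ∑ i ∈ M, ((rd c z i).card : ℝ) ≤ (2 * ((k : ℝ) + 1)) * (W.card * M.card) := by
  classical
  have hWc : (0 : ℝ) < W.card := Nat.cast_pos.mpr (Finset.card_pos.mpr hW)
  set K : ℝ := (k : ℝ) + 1 with hK
  have hKpos : 0 < K := by positivity
  let κ : Fin n → ℝ := fun i => (∑ z ∈ W, ((rd c z i).card : ℝ)) / W.card
  have hch : ∀ t : Fin (R + 1), (0 : ℝ) < R.choose t := fun t => by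
    exact_mod_cast Nat.choose_pos (by omega)
  have hden : ∀ t : Fin (R + 1), (0 : ℝ) < R.choose t * W.card := fun t => mul_pos (hch t) hWc
  have hcardU : ∀ t : Fin (R + 1),
      (((Finset.univ : Finset (Fin R)).powersetCard (t : ℕ)).card : ℝ) = R.choose t := by
    intro t
    rw [Finset.card_powersetCard, Finset.card_univ, Fintype.card_fin]
  have hreg := regularity (n := n) (ι := Fin (R + 1)) (gq W c) κ K Φ η T Q
    (by
      intro t M
      unfold gq
      exact div_nonneg (Finset.sum_nonneg fun S _ => Gs_nonneg _ _) (hden t).le)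
    (by
      intro t M i _
      rw [gq_diff]
      apply div_nonneg _ (hden t).le
      refine Finset.sum_nonneg fun S _ => ?_
      have := Gs_mono_M (W := W) (c := c) (Finset.erase_subset i M) S
      linarith)
    (by
      intro t M i _
      rw [gq_diff, div_le_one (hden t)]
      have hl : Real.log 2 ≤ 1 := by
        have := Real.log_two_lt_d9; linarith
      calc ∑ S ∈ (Finset.univ : Finset (Fin R)).powersetCard t, (Gs W c M S - Gs W c (M.erase i) S)
          ≤ ∑ S ∈ (Finset.univ : Finset (Fin R)).powersetCard t, (W.card : ℝ) := by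
            refine Finset.sum_le_sum fun S _ => (Gs_diff_le i).trans ?_
            calc (W.card : ℝ) * Real.log 2 ≤ W.card * 1 := mul_le_mul_of_nonneg_left hl hWc.le
              _ = W.card := mul_one _
        _ = R.choose t * W.card := by rw [Finset.sum_const, nsmul_eq_mul, hcardU])
    (by
      intro t M M' h i hi
      rw [gq_diff, gq_diff]
      exact div_le_div_of_nonneg_right (Finset.sum_le_sum fun S _ => Gs_super h S hi) (hden t).le)
    (fun i => div_nonneg (Finset.sum_nonneg fun z _ => Nat.cast_nonneg _) hWc.le)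
    (by
      simp only [κ]
      rw [← Finset.sum_div, div_le_iff₀ hWc, Finset.sum_comm]
      have h1 : ∀ z ∈ W, ∑ i, ((rd c z i).card : ℝ) ≤ k * n := by
        intro z hz
        have h2 : ∑ i, (rd c z i).card ≤ k * n := by
          rw [sum_rd]
          have h3 : (∑ j, (dom (c j z)).card) * R ≤ R * (k * n) := by
            rw [Finset.sum_mul]
            calc ∑ j, (dom (c j z)).card * R ≤ ∑ j : Fin R, k * n :=
                  Finset.sum_le_sum fun j _ => hlen z hz j
              _ = R * (k * n) := by rw [Finset.sum_const, Finset.card_univ, Fintype.card_fin, smul_eq_mul]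
          have h4 : R * (∑ j, (dom (c j z)).card) ≤ R * (k * n) := by rw [mul_comm]; exact h3
          exact Nat.le_of_mul_le_mul_left h4 hR
        exact_mod_cast h2
      calc ∑ z ∈ W, ∑ i, ((rd c z i).card : ℝ) ≤ ∑ z ∈ W, ((k : ℝ) * n) := Finset.sum_le_sum h1
        _ = W.card * (k * n) := by rw [Finset.sum_const, nsmul_eq_mul]
        _ ≤ K * n * W.card := by
            have : (0 : ℝ) ≤ n := Nat.cast_nonneg _
            rw [hK]; nlinarith)
    hKpos hΦ0 hΦ1 hη hT1 hT
    (by
      rw [Fintype.card_fin]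
      push_cast
      exact hQ) hn
  obtain ⟨q, hq, M, hMc, h1, h2⟩ := hreg
  have hTQ : 0 < T ^ Q := pow_pos (by omega) _
  have hMQ : n / T ^ Q ≤ M.card := by
    rw [hMc]
    exact Nat.div_le_div_left (Nat.pow_le_pow_right hT1 hq.le) (pow_pos (by omega) _)
  have hM1 : 1 ≤ M.card := le_trans ((Nat.one_le_div_iff hTQ).mpr hn) hMQ
  have hMr : (0 : ℝ) < M.card := by exact_mod_cast hM1
  refine ⟨M, hMQ, Finset.card_pos.mp (by omega), ?_, ?_⟩
  · intro t ht
    have h3 := h1 ⟨t, by omega⟩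
    rw [EE_gq] at h3
    have hc := (hch ⟨t, by omega⟩)
    simp only at h3 hc
    have e1 : (∑ S ∈ (Finset.univ : Finset (Fin R)).powersetCard t, (Gs W c M S + TC W c M S)) /
        (R.choose t * W.card) = (Aav W c M t + Xav W c M t) * M.card := by
      unfold Aav Xav
      rw [Finset.sum_add_distrib]
      field_simp
    have e2 : gq W c ⟨t, by omega⟩ M = Aav W c M t * M.card := by
      unfold gq Aav
      field_simp
    rw [e1, e2] at h3
    have h4 : Xav W c M t * M.card ≤ (η * (Aav W c M t + Xav W c M t + 2 * Φ)) * M.card := by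
      linarith
    have h5 := le_of_mul_le_mul_right h4 hMr
    have hX0 : 0 ≤ Xav W c M t := by
      unfold Xav
      exact div_nonneg (Finset.sum_nonneg fun S _ => TC_nonneg _ _) (by positivity)
    have h6 : η * Xav W c M t ≤ 1 / 2 * Xav W c M t := mul_le_mul_of_nonneg_right hη1 hX0
    linarith
  · simp only [κ] at h2
    rw [← Finset.sum_div, div_le_iff₀ hWc, Finset.sum_comm] at h2
    calc _ ≤ _ := h2
      _ = _ := by ring

lemma Gs_le (hW : W.Nonempty) (M : Finset (Fin n)) (S : Finset (Fin R)) :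
    Gs W c M S ≤ W.card * M.card := by
  have hWc : (0 : ℝ) < W.card := Nat.cast_pos.mpr (Finset.card_pos.mpr hW)
  have h0 := TC_nonneg (W := W) (c := c) M S
  unfold TC at h0
  have hl : Real.log 2 ≤ 1 := by
    have := Real.log_two_lt_d9; linarith
  have h1 : ∑ i ∈ M, (Gs W c M S - Gs W c (M.erase i) S) ≤ ∑ _i ∈ M, (W.card : ℝ) := by
    refine Finset.sum_le_sum fun i _ => (Gs_diff_le i).trans ?_
    calc (W.card : ℝ) * Real.log 2 ≤ W.card * 1 := mul_le_mul_of_nonneg_left hl hWc.le
      _ = W.card := mul_one _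
  rw [Finset.sum_const, nsmul_eq_mul] at h1
  linarith

lemma Aav_le_one (hW : W.Nonempty) (M : Finset (Fin n)) (hM : M.Nonempty) (t : ℕ) :
    Aav W c M t ≤ 1 := by
  have hWc : (0 : ℝ) < W.card := Nat.cast_pos.mpr (Finset.card_pos.mpr hW)
  have hMc : (0 : ℝ) < M.card := Nat.cast_pos.mpr (Finset.card_pos.mpr hM)
  unfold Aav
  apply div_le_one_of_le₀ _ (by positivity)
  calc ∑ S ∈ (Finset.univ : Finset (Fin R)).powersetCard t, Gs W c M S
      ≤ ∑ _S ∈ (Finset.univ : Finset (Fin R)).powersetCard t, ((W.card : ℝ) * M.card) :=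
        Finset.sum_le_sum fun S _ => Gs_le hW M S
    _ = _ := by
        rw [Finset.sum_const, nsmul_eq_mul, Finset.card_powersetCard, Finset.card_univ,
          Fintype.card_fin]

/-- the set of revealed players -/
theorem exists_S' (hsub : ∀ z ∈ W, ∀ j, Sub (c j z) z)
    (huniq : ∀ z ∈ W, ∀ z' ∈ W, ∀ j, Sub (c j z') z → Sub (c j z) z' → c j z = c j z')
    (hW : W.Nonempty) (M : Finset (Fin n)) (hM : M.Nonempty) {m : ℕ} (hm : 1 ≤ m) (hR : R = m ^ 2)
    {f k2 δ η Φ : ℝ} (hδ0 : 0 < δ) (hδ1 : δ ≤ 1 / 2) (hη0 : 0 < η)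
    (hX : ∀ t ≤ R, Xav W c M t ≤ 2 * η * (Aav W c M t + 2 * Φ))
    (hk : ∑ z ∈ W, ∑ i ∈ M, ((rd c z i).card : ℝ) ≤ k2 * (W.card * M.card))
    (hηδ : 2 * η * (12 * R + R / δ) ≤ 1) (hΦ0 : 0 < Φ) (hΦ : Φ ≤ Real.exp (-f) / 8)
    (hτ : tau δ * k2 ≤ Real.exp (-f) / 4)
    (hstart : 0.69 * (W.card * M.card) ≤ Gs W c M ∅)
    (hrec : ∀ (A : ℕ → ℝ) (ζ : ℝ),
      ζ ≤ Real.exp (-f) / 2 → 0.69 ≤ A 0 → (∀ t, A t ≤ 1) →
      (∀ t < m ^ 2, ∀ L ≤ m ^ 2, ∀ l : ℝ, 0 < l → l ≤ 1 / 2 →
      ((m : ℝ) ^ 2 - t) * (A t - A (t + 1)) ≤ (12 * L + 1) * A t + 6 * ((-Real.log l + 1) *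
        ((((m : ℝ) ^ 2 - t) / (m : ℝ) ^ 2) ^ L * k2)) + 6 * ((m : ℝ) ^ 2 * Real.binEntropy l) + ζ) →
      Real.exp (-f) ≤ A (m ^ 2 - m)) :
    ∃ S : Finset (Fin R), Sᶜ.card = m ∧ Real.exp (-f) / 2 * (W.card * M.card) ≤ Gs W c M S ∧
      TC W c M S ≤ 8 * η * Gs W c M S := by
  classical
  have hWc : (0 : ℝ) < W.card := Nat.cast_pos.mpr (Finset.card_pos.mpr hW)
  have hMc : (0 : ℝ) < M.card := Nat.cast_pos.mpr (Finset.card_pos.mpr hM)
  have hD : (0 : ℝ) < W.card * M.card := mul_pos hWc hMc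
  have hRm : (R : ℝ) = (m : ℝ) ^ 2 := by rw [hR]; push_cast; rfl
  have hR0 : (0 : ℝ) ≤ R := Nat.cast_nonneg _
  have h1 := hrec (Aav W c M) (tau δ * k2 + 2 * Φ) (by linarith)
    (by
      unfold Aav
      rw [Finset.powersetCard_zero, Finset.sum_singleton, Nat.choose_zero_right, Nat.cast_one, one_mul,
        le_div_iff₀ hD]
      exact hstart)
    (Aav_le_one hW M hM)
    (by
      intro t ht L hL l hl0 hl1
      have ht' : t < R := by rw [hR]; exact ht
      have h2 := avg_step hδ0 hδ1 hsub huniq hW M hM t L ht' hl0 hl1 hk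
      rw [← hRm]
      refine h2.trans ?_
      have hL' : (L : ℝ) ≤ R := by rw [hRm]; exact_mod_cast hL
      have hXt := hX t ht'.le
      have hX0 : 0 ≤ Xav W c M t := by
        unfold Xav
        exact div_nonneg (Finset.sum_nonneg fun S _ => TC_nonneg _ _) (by positivity)
      have hRδ : 0 ≤ R / δ := div_nonneg hR0 hδ0.le
      have hY : 0 ≤ Aav W c M t + 2 * Φ := by
        have h5 : 0 ≤ 2 * η * (Aav W c M t + 2 * Φ) := hX0.trans hXt
        by_contra hcon
        push Not at hcon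
        have : 2 * η * (Aav W c M t + 2 * Φ) < 0 := mul_neg_of_pos_of_neg (by linarith) hcon
        linarith
      have h3 : 12 * (L : ℝ) * Xav W c M t + R / δ * Xav W c M t ≤ Aav W c M t + 2 * Φ := by
        calc 12 * (L : ℝ) * Xav W c M t + R / δ * Xav W c M t
            = (12 * L + R / δ) * Xav W c M t := by ring
          _ ≤ (12 * R + R / δ) * (2 * η * (Aav W c M t + 2 * Φ)) := by
              apply mul_le_mul _ hXt hX0 (by positivity)
              linarith
          _ = (2 * η * (12 * R + R / δ)) * (Aav W c M t + 2 * Φ) := by ring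
          _ ≤ 1 * (Aav W c M t + 2 * Φ) := mul_le_mul_of_nonneg_right hηδ hY
          _ = _ := one_mul _
      have e : 6 * (2 * L * (Aav W c M t + Xav W c M t) +
          (-Real.log l + 1) * ((((R : ℝ) - t) / R) ^ L * k2) + R * Real.binEntropy l) +
          tau δ * k2 + R / δ * Xav W c M t =
          12 * L * Aav W c M t + 6 * ((-Real.log l + 1) * ((((R : ℝ) - t) / R) ^ L * k2)) +
          6 * (R * Real.binEntropy l) + tau δ * k2 +
          (12 * (L : ℝ) * Xav W c M t + R / δ * Xav W c M t) := by ring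
      rw [e]
      linarith)
  have hmm : m ≤ m ^ 2 := by nlinarith
  obtain ⟨t, ht⟩ : ∃ t, t = m ^ 2 - m := ⟨_, rfl⟩
  rw [← ht] at h1
  have htR : t ≤ R := by rw [ht, hR]; omega
  have hXt := hX t htR
  have hch : (0 : ℝ) < R.choose t := by
    exact_mod_cast Nat.choose_pos htR
  have hcardU : (((Finset.univ : Finset (Fin R)).powersetCard t).card : ℝ) = R.choose t := by
    rw [Finset.card_powersetCard, Finset.card_univ, Fintype.card_fin]
  have hX2 : Xav W c M t ≤ 4 * η * Aav W c M t := by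
    have : 2 * Φ ≤ Aav W c M t := by
      have := Real.exp_pos (-f)
      linarith
    have h5 : 2 * η * (Aav W c M t + 2 * Φ) ≤ 2 * η * (Aav W c M t + Aav W c M t) := by
      apply mul_le_mul_of_nonneg_left _ (by linarith)
      linarith
    linarith
  have hsG : ∑ S ∈ (Finset.univ : Finset (Fin R)).powersetCard t, Gs W c M S =
      Aav W c M t * (R.choose t * (W.card * M.card)) := by
    unfold Aav
    rw [div_mul_cancel₀ _ (mul_pos hch hD).ne']
  have hsT : ∑ S ∈ (Finset.univ : Finset (Fin R)).powersetCard t, TC W c M S =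
      Xav W c M t * (R.choose t * (W.card * M.card)) := by
    unfold Xav
    rw [div_mul_cancel₀ _ (mul_pos hch hD).ne']
  have h4 : ∑ S ∈ (Finset.univ : Finset (Fin R)).powersetCard t,
      (Aav W c M t / 2 * (W.card * M.card)) ≤
      ∑ S ∈ (Finset.univ : Finset (Fin R)).powersetCard t, (Gs W c M S - TC W c M S / (8 * η)) := by
    rw [Finset.sum_const, nsmul_eq_mul, hcardU, Finset.sum_sub_distrib, ← Finset.sum_div, hsG, hsT]
    have h5 : Xav W c M t * (R.choose t * (W.card * M.card)) / (8 * η) ≤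
        Aav W c M t / 2 * (R.choose t * (W.card * M.card)) := by
      rw [div_le_iff₀ (by positivity)]
      have h6 := mul_le_mul_of_nonneg_right hX2 (mul_pos hch hD).le
      calc _ ≤ _ := h6
        _ = _ := by ring
    have e : (R.choose t : ℝ) * (Aav W c M t / 2 * (W.card * M.card)) =
        Aav W c M t * (R.choose t * (W.card * M.card)) -
        Aav W c M t / 2 * (R.choose t * (W.card * M.card)) := by ring
    rw [e]
    linarith
  obtain ⟨S, hS, h5⟩ := Finset.exists_le_of_sum_le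
    (by
      rw [← Finset.card_pos]
      have h6 := hch
      rw [← hcardU] at h6
      exact_mod_cast h6) h4
  have hTC0 := TC_nonneg (W := W) (c := c) M S
  have hT8 : 0 ≤ TC W c M S / (8 * η) := div_nonneg hTC0 (by positivity)
  have hA2 : Real.exp (-f) / 2 * (W.card * M.card) ≤ Aav W c M t / 2 * (W.card * M.card) :=
    mul_le_mul_of_nonneg_right (by linarith) hD.le
  have hA0 : 0 ≤ Aav W c M t / 2 * (W.card * M.card) := by
    have := Real.exp_pos (-f)
    exact le_trans (by positivity) hA2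
  refine ⟨S, ?_, by linarith, ?_⟩
  · rw [Finset.card_compl, Fintype.card_fin, (Finset.mem_powersetCard.mp hS).2, hR, ht]
    omega
  · have h6 : TC W c M S / (8 * η) ≤ Gs W c M S := by linarith
    rw [div_le_iff₀ (by positivity)] at h6
    linarith

end Pool.Agent.KQ
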