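import Pool.Agent.KQ.Core
import Pool.Agent.KQ.CoreA
import Pool.Agent.PT44.Count

/-! The core theorem with explicit parameters. -/

namespace Pool.Agent.KQ

open Finset Pool.Agent.SemRO Pool.Agent.KN

/-- the core theorem for given parameters -/
theorem core_one {k m R : ℕ} (hR : R = m ^ 2) {f : ℝ} (hf0 : 0 ≤ f) (hm : 4 ≤ m)
    (hCm : 2000 * ((k : ℝ) + 1) * (f + 1) ≤ m)
    (hrec : ∀ (A : ℕ → ℝ) (ζ : ℝ),
      ζ ≤ Real.exp (-f) / 2 → 0.69 ≤ A 0 → (∀ t, A t ≤ 1) →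
      (∀ t < m ^ 2, ∀ L ≤ m ^ 2, ∀ l : ℝ, 0 < l → l ≤ 1 / 2 →
      ((m : ℝ) ^ 2 - t) * (A t - A (t + 1)) ≤ (12 * L + 1) * A t + 6 * ((-Real.log l + 1) *
        ((((m : ℝ) ^ 2 - t) / (m : ℝ) ^ 2) ^ L * (2 * ((k : ℝ) + 1)))) +
          6 * ((m : ℝ) ^ 2 * Real.binEntropy l) + ζ) →
      Real.exp (-f) ≤ A (m ^ 2 - m))
    {J e T Q : ℕ} {δ η ε : ℝ} (hδ0 : 0 < δ) (hδ1 : δ ≤ 1 / 2)
    (hτ : tau δ * (2 * ((k : ℝ) + 1)) ≤ Real.exp (-f) / 4) (hη0 : 0 < η) (hη2 : η ≤ 1 / 2)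
    (hηδ : 2 * η * (12 * (R : ℝ) + R / δ) ≤ 1)
    (hJ1 : 1 ≤ J) (hJf : (J : ℝ) ≤ 3 * f + 20)
    (hJ : Real.binEntropy ((1 / 2) ^ J) ≤ Real.exp (-f) / 16)
    (he : 32 * (J : ℝ) ^ 2 / Real.exp (-f) ≤ 2 ^ e)
    (hη : 409600000 * (J : ℝ) ^ 2 * (f + 1) * η ≤ 1) (hT1 : 1 ≤ T)
    (hT : 1 / (η * (Real.exp (-f) / 8)) ≤ T)
    (hQ : 2 * (((R : ℝ) + 1) * Real.log (2 / (Real.exp (-f) / 8))) / η ≤ Q)
    (hε0 : 0 < ε) (hε : ε * (409600 * (J : ℝ) ^ 2 * (f + 1)) * (2 * T ^ Q) ≤ Real.exp (-f))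
    {n : ℕ} (hn : 2 * T ^ Q ≤ n)
    (hbig : 51200 * (J : ℝ) ^ 2 * (f + 1) * (2000 + 500 * J * (e + 1) / Real.exp (-f)) * (2 * T ^ Q) ≤
      Real.exp (-f) * n) :
    Pool.Agent.PT44.Core k R ε n := by
  classical
  intro W c F L hWcard hsub huniq hlen hclosed hL hRf
  have hR0 : 0 < R := by rw [hR]; positivity
  have hexp1 : Real.exp (-f) ≤ 1 := by rw [Real.exp_le_one_iff]; linarith
  have hexp0 : 0 < Real.exp (-f) := Real.exp_pos _
  have hJr : (1 : ℝ) ≤ J := by exact_mod_cast hJ1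
  have hTQn : 0 < T ^ Q := pow_pos (by omega) _
  have hTQ : (0 : ℝ) < (T : ℝ) ^ Q := by exact_mod_cast hTQn
  have hTQ1 : (1 : ℝ) ≤ (T : ℝ) ^ Q := by exact_mod_cast hTQn
  obtain ⟨θ, hθ⟩ : ∃ θ : ℝ, θ = 1 / (2 * (T : ℝ) ^ Q) := ⟨_, rfl⟩
  have hθ0 : 0 < θ := by rw [hθ]; positivity
  have hnpos : (0 : ℝ) < n := by
    have : 0 < n := by omega
    exact_mod_cast this
  have hJ2 : (1 : ℝ) ≤ (J : ℝ) ^ 2 := one_le_pow₀ hJr
  have hεθ : ε ≤ 0.003 * θ := by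
    rw [hθ, mul_one_div, le_div_iff₀ (by positivity)]
    have h1 : ε * 1 * (2 * (T : ℝ) ^ Q) ≤ ε * (1024 * ((J : ℝ) ^ 2 * (f + 1))) * (2 * (T : ℝ) ^ Q) := by
      apply mul_le_mul_of_nonneg_right _ (by positivity)
      apply mul_le_mul_of_nonneg_left _ hε0.le
      have : (1 : ℝ) ≤ (J : ℝ) ^ 2 * (f + 1) := by
        calc (1 : ℝ) = 1 * 1 := by ring
          _ ≤ (J : ℝ) ^ 2 * (f + 1) := mul_le_mul hJ2 (by linarith) (by norm_num) (by positivity)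
      linarith
    have h2 : ε * (409600 * (J : ℝ) ^ 2 * (f + 1)) * (2 * T ^ Q) =
        400 * (ε * (1024 * ((J : ℝ) ^ 2 * (f + 1))) * (2 * (T : ℝ) ^ Q)) := by ring
    rw [h2] at hε
    linarith
  have hθ12 : θ ≤ 1 / 2 := by
    rw [hθ, div_le_div_iff₀ (by positivity) (by norm_num)]
    linarith
  have hW : W.Nonempty := by
    by_contra hcon
    rw [Finset.not_nonempty_iff_eq_empty] at hcon
    rw [hcon] at hWcard
    simp only [Finset.card_empty, Nat.cast_zero, Real.log_zero] at hWcard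
    have h2 := Real.log_two_gt_d9
    have h3 : ε * n ≤ 0.0015 * n := mul_le_mul_of_nonneg_right (by linarith) hnpos.le
    have h4 : (n : ℝ) * 0.6931471803 < n * Real.log 2 := mul_lt_mul_of_pos_left h2 hnpos
    linarith
  have hWc : (0 : ℝ) < W.card := Nat.cast_pos.mpr (Finset.card_pos.mpr hW)
  obtain ⟨M, hMc, hMne, hX, hk⟩ := exists_M' (c := c) hW k hR0 hlen (Φ := Real.exp (-f) / 8) (η := η) T Q
    (by positivity) (by linarith) hη0 hη2 hT1 hT hQ (by omega)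
  have hMpos : (0 : ℝ) < M.card := by exact_mod_cast Finset.card_pos.mpr hMne
  have hθn : θ * n ≤ M.card := by
    have h1 : ((n / T ^ Q : ℕ) : ℝ) ≤ M.card := by exact_mod_cast hMc
    have h2 : (n : ℝ) / (T : ℝ) ^ Q - 1 ≤ ((n / T ^ Q : ℕ) : ℝ) := by
      have h3 := Nat.lt_div_mul_add (a := n) hTQn
      have h4 : (n : ℝ) < ((n / T ^ Q : ℕ) : ℝ) * (T : ℝ) ^ Q + (T : ℝ) ^ Q := by exact_mod_cast h3
      rw [sub_le_iff_le_add, div_le_iff₀ hTQ]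
      linarith
    have h3 : (2 : ℝ) * (T : ℝ) ^ Q ≤ n := by exact_mod_cast hn
    have h4 : θ * n = n / (T : ℝ) ^ Q / 2 := by rw [hθ]; field_simp
    have h5 : 2 ≤ (n : ℝ) / (T : ℝ) ^ Q := by rw [le_div_iff₀ hTQ]; linarith
    rw [h4]; linarith
  have hstart : 0.69 * (W.card * M.card) ≤ Gs W c M ∅ := by
    have h1 := Gs_start (c := c) M hW
    refine le_trans ?_ h1
    have h2 := Real.log_two_gt_d9
    have h3 : ε * n ≤ 0.003 * M.card := by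
      calc ε * n ≤ 0.003 * θ * n := mul_le_mul_of_nonneg_right hεθ hnpos.le
        _ = 0.003 * (θ * n) := by ring
        _ ≤ 0.003 * M.card := by linarith
    have h4 : 0.69 * (M.card : ℝ) ≤ Real.log W.card - (n - M.card) * Real.log 2 := by
      have h5 : (M.card : ℝ) * 0.6931471803 < M.card * Real.log 2 := mul_lt_mul_of_pos_left h2 hMpos
      have h6 : ((n : ℝ) - M.card) * Real.log 2 = n * Real.log 2 - M.card * Real.log 2 := by ring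
      rw [h6]; linarith
    calc 0.69 * ((W.card : ℝ) * M.card) = W.card * (0.69 * M.card) := by ring
      _ ≤ _ := mul_le_mul_of_nonneg_left h4 hWc.le
  obtain ⟨S, hSc, hent, hTC⟩ := exists_S' (m := m) (f := f) (δ := δ) hsub
    (fun z hz z' hz' j => huniq j z hz z' hz') hW M hMne (by omega) hR hδ0 hδ1 hη0 hX hk hηδ
    (by positivity) le_rfl hτ hstart hrec
  refine core_fixed' hW hsub hclosed hRf hlen (by omega) hR S hSc M hMne hf0 rfl hCm hη0 hent hTC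
    hJ1 hJf hJ he hη hWcard hL hθn ?_ ?_
  · rw [hθ, mul_one_div, le_div_iff₀ (by positivity)]
    exact hε
  · rw [hθ, one_div, ← div_eq_inv_mul, mul_div_assoc', le_div_iff₀ (by positivity)]
    exact hbig

end Pool.Agent.KQ
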