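import Pool.Agent.KN.Cost

/-! A sharper bound for the cost of reading a bit: a constant factor times the ideal cost, up to an
exponentially small error. -/

namespace Pool.Agent.KQ

open Finset Pool.Agent.SemRO Pool.Agent.KN

/-- the additive error -/
noncomputable def tau (δ : ℝ) : ℝ := 8 * Real.exp (-(1 / (4 * δ)))

lemma tau_pos (δ : ℝ) : 0 < tau δ := by unfold tau; positivity

lemma cost_bound {y δ : ℝ} (hy0 : 0 < y) (hy1 : y < 1) (hδ0 : 0 < δ) (hδ1 : δ ≤ 1 / 2) :
    (1 - δ) * Real.log y - Real.log (1 - (1 - y) ^ (1 - δ)) ≤ δ * (6 * hh y + tau δ) := by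
  set q : ℝ := 1 - y with hq
  have hq0 : 0 < q := by rw [hq]; linarith
  have hq1 : q < 1 := by rw [hq]; linarith
  have hyq : y = 1 - q := by rw [hq]; ring
  set s : ℝ := 1 - δ with hs
  have hs0 : 0 < s := by rw [hs]; linarith
  have hs1 : s ≤ 1 := by rw [hs]; linarith
  set a : ℝ := -Real.log q with ha
  have ha0 : 0 < a := by
    have := Real.log_neg hq0 hq1
    rw [ha]; linarith
  set x : ℝ := q ^ s with hx
  have hx0 : 0 < x := Real.rpow_pos_of_pos hq0 _
  have hx1 : x < 1 := Real.rpow_lt_one hq0.le hq1 hs0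
  have hlx : Real.log x = - (s * a) := by rw [hx, Real.log_rpow hq0, ha]; ring
  have hqx : q = x * q ^ δ := by
    rw [hx, ← Real.rpow_add hq0, hs]; simp
  have hqd : 1 - δ * a ≤ q ^ δ := by
    rw [Real.rpow_def_of_pos hq0]
    have := Real.add_one_le_exp (Real.log q * δ)
    rw [ha]; linarith
  have hxq : x - q ≤ x * (δ * a) := by
    have : x * (1 - δ * a) ≤ q := by
      calc x * (1 - δ * a) ≤ x * q ^ δ := mul_le_mul_of_nonneg_left hqd hx0.le
        _ = q := hqx.symm
    linarith
  have h1x : 0 < 1 - x := by linarith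
  have h1q : 0 < 1 - q := by linarith
  -- first step
  have step1 : Real.log y - Real.log (1 - x) ≤ δ * (a * (x / (1 - x))) := by
    rw [← Real.log_div hy0.ne' h1x.ne']
    have h1 := Real.log_le_sub_one_of_pos (div_pos hy0 h1x)
    have h2 : y / (1 - x) - 1 = (x - q) / (1 - x) := by
      rw [hyq]; field_simp; ring
    rw [h2] at h1
    calc _ ≤ (x - q) / (1 - x) := h1
      _ ≤ (x * (δ * a)) / (1 - x) := by gcongr
      _ = _ := by ring
  -- `1 - x ≥ s (1 - q)`
  have hbern : s * (1 - q) ≤ 1 - x := by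
    have h1 := rpow_one_add_le_one_add_mul_self (s := q - 1) (p := s) (by linarith) hs0.le hs1
    have h2 : (1 + (q - 1)) = q := by ring
    rw [h2] at h1
    linarith
  have hhalf : (1 - q) / 2 ≤ 1 - x := by
    have : (1 / 2 : ℝ) ≤ s := by rw [hs]; linarith
    nlinarith
  have hL0 : 0 ≤ -Real.log y := by
    have := Real.log_nonpos hy0.le hy1.le
    linarith
  have hhy : hh y = -Real.log y + q / (1 - q) * a := by
    unfold hh; rw [← hq, ← ha, ← hyq]
  have hmain : a * (x / (1 - x)) ≤ 6 * (q / (1 - q) * a) + tau δ := by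
    by_cases hd : δ * a ≤ 1
    · -- `x ≤ e q`
      have hxe : x ≤ Real.exp 1 * q := by
        have h1 : x = q * Real.exp (δ * a) := by
          have h2 : Real.exp (δ * a) = (q ^ δ)⁻¹ := by
            rw [Real.rpow_def_of_pos hq0, ← Real.exp_neg]
            congr 1; rw [ha]; ring
          rw [h2]
          have h3 : 0 < q ^ δ := Real.rpow_pos_of_pos hq0 _
          rw [← div_eq_mul_inv, eq_div_iff h3.ne']
          exact hqx.symm
        rw [h1, mul_comm]
        exact mul_le_mul_of_nonneg_right (Real.exp_le_exp.mpr hd) hq0.le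
      have he : Real.exp 1 ≤ 3 := by
        have := Real.exp_one_lt_d9; linarith
      have hx3 : x ≤ 3 * q := hxe.trans (mul_le_mul_of_nonneg_right he hq0.le)
      have h4 : x / (1 - x) ≤ (3 * q) / ((1 - q) / 2) :=
        div_le_div₀ (by positivity) hx3 (by positivity) hhalf
      have h5 : (3 * q) / ((1 - q) / 2) = 6 * (q / (1 - q)) := by field_simp; ring
      rw [h5] at h4
      have h6 := mul_le_mul_of_nonneg_left h4 ha0.le
      have h7 := tau_pos δ
      linarith
    · push Not at hd
      have hau : 1 / δ < a := by rw [div_lt_iff₀ hδ0]; linarith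
      have ha2 : 2 ≤ a := by
        have : 2 ≤ 1 / δ := by rw [le_div_iff₀ hδ0]; linarith
        linarith
      have hqe : q = Real.exp (-a) := by rw [ha, neg_neg, Real.exp_log hq0]
      have hq12 : 1 - q ≥ 1 / 2 := by
        have h1 : Real.exp (-a) ≤ Real.exp (-1) := Real.exp_le_exp.mpr (by linarith)
        have h2 : Real.exp (-1) ≤ 1 / 2 := by
          rw [Real.exp_neg]
          have := Real.add_one_le_exp (1 : ℝ)
          rw [inv_le_comm₀ (Real.exp_pos _) (by norm_num)]
          linarith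
        linarith
      have hxe : x ≤ Real.exp (-(a / 2)) := by
        rw [hx, Real.rpow_def_of_pos hq0]
        apply Real.exp_le_exp.mpr
        have : (1 / 2 : ℝ) ≤ s := by rw [hs]; linarith
        rw [show Real.log q = -a by rw [ha]; ring]
        nlinarith
      have h4 : x / (1 - x) ≤ 4 * Real.exp (-(a / 2)) := by
        rw [div_le_iff₀ h1x]
        have h5 : (1 / 4 : ℝ) ≤ 1 - x := by linarith
        have h6 := Real.exp_pos (-(a / 2))
        nlinarith
      have h5 : a * Real.exp (-(a / 2)) ≤ 2 * Real.exp (-(a / 4)) := by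
        have e1 : Real.exp (-(a / 2)) = Real.exp (-(a / 4)) * Real.exp (-(a / 4)) := by
          rw [← Real.exp_add]; congr 1; ring
        have e2 : a * Real.exp (-(a / 4)) ≤ 2 := by
          have h6 := Real.quadratic_le_exp_of_nonneg (x := a / 4) (by linarith)
          rw [Real.exp_neg, ← div_eq_mul_inv, div_le_iff₀ (Real.exp_pos _)]
          nlinarith [sq_nonneg (a / 4 - 1), sq_nonneg (a - 4)]
        rw [e1, ← mul_assoc]
        exact mul_le_mul_of_nonneg_right e2 (Real.exp_pos _).le
      have h6 : Real.exp (-(a / 4)) ≤ Real.exp (-(1 / (4 * δ))) := by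
        apply Real.exp_le_exp.mpr
        have : 1 / (4 * δ) = (1 / δ) / 4 := by field_simp
        rw [this]; linarith
      have h7 : 0 ≤ 6 * (q / (1 - q) * a) := by positivity
      have h8 := mul_le_mul_of_nonneg_left h4 ha0.le
      unfold tau
      nlinarith
  rw [hhy]
  have e4 : s * Real.log y = Real.log y - δ * Real.log y := by rw [hs]; ring
  rw [e4]
  have h9 := mul_le_mul_of_nonneg_left hmain hδ0.le
  have h10 : 0 ≤ δ * (-Real.log y) := mul_nonneg hδ0.le hL0
  nlinarith

/-- actual cost -/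
noncomputable def cst (δ y : ℝ) : ℝ := if y = 1 then 0 else 6 * hh y + tau δ

lemma cst_nonneg {δ y : ℝ} (hy0 : 0 < y) (hy1 : y ≤ 1) : 0 ≤ cst δ y := by
  unfold cst
  split_ifs
  · exact le_rfl
  · have := hh_nonneg hy0 hy1
    have := tau_pos δ
    linarith

lemma cst_spec {y δ : ℝ} (hy0 : 0 < y) (hy1 : y ≤ 1) (hδ0 : 0 < δ) (hδ1 : δ ≤ 1 / 2) :
    (1 - δ) * Real.log y - Real.log (1 - (1 - y) ^ (1 - δ)) ≤ δ * cst δ y := by
  unfold cst
  split_ifs with h
  · rw [h]
    simp [Real.zero_rpow (show (1 - δ) ≠ 0 by linarith)]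
  · exact cost_bound hy0 (lt_of_le_of_ne hy1 h) hδ0 hδ1

end Pool.Agent.KQ
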