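import Mathlib

/-! Functions of polynomial growth and functions bounded by `2 ^ (k ^ c)`. -/

namespace Pool.Agent.KQ

/-- at most a power of `k` -/
def PB (g : ℕ → ℝ) : Prop := ∃ c : ℕ, ∀ k : ℕ, 2 ≤ k → g k ≤ (k : ℝ) ^ c

/-- at most `2 ^ (k ^ c)` -/
def EB (g : ℕ → ℝ) : Prop := ∃ c : ℕ, ∀ k : ℕ, 2 ≤ k → g k ≤ 2 ^ (k ^ c)

lemma PB.mono {g h : ℕ → ℝ} (hh : PB h) (hgh : ∀ k, 2 ≤ k → g k ≤ h k) : PB g := by
  obtain ⟨c, hc⟩ := hh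
  exact ⟨c, fun k hk => (hgh k hk).trans (hc k hk)⟩

lemma EB.mono {g h : ℕ → ℝ} (hh : EB h) (hgh : ∀ k, 2 ≤ k → g k ≤ h k) : EB g := by
  obtain ⟨c, hc⟩ := hh
  exact ⟨c, fun k hk => (hgh k hk).trans (hc k hk)⟩

lemma two_pow_le {k : ℕ} (hk : 2 ≤ k) (c : ℕ) : (2 : ℝ) ^ c ≤ (k : ℝ) ^ c :=
  pow_le_pow_left₀ (by norm_num) (by exact_mod_cast hk) c

lemma PB.const (r : ℝ) : PB (fun _ => r) := by
  obtain ⟨c, hc⟩ := pow_unbounded_of_one_lt r (show (1 : ℝ) < 2 by norm_num)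
  exact ⟨c, fun k hk => hc.le.trans (two_pow_le hk c)⟩

lemma PB.id : PB (fun k => (k : ℝ)) := ⟨1, fun k _ => by rw [pow_one]⟩

lemma kpow_mono {k : ℕ} (hk : 2 ≤ k) {a b : ℕ} (h : a ≤ b) : (k : ℝ) ^ a ≤ (k : ℝ) ^ b :=
  pow_le_pow_right₀ (by
    have : (2 : ℝ) ≤ k := by exact_mod_cast hk
    linarith) h

lemma kpow_mono' {k : ℕ} (hk : 2 ≤ k) {a b : ℕ} (h : a ≤ b) : (2 : ℝ) ^ (k ^ a) ≤ (2 : ℝ) ^ (k ^ b) :=
  pow_le_pow_right₀ (by norm_num) (Nat.pow_le_pow_right (by omega) h)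

lemma PB.add {g h : ℕ → ℝ} (hg : PB g) (hh : PB h) : PB (fun k => g k + h k) := by
  obtain ⟨a, ha⟩ := hg
  obtain ⟨b, hb⟩ := hh
  refine ⟨max a b + 1, fun k hk => ?_⟩
  have h1 := (ha k hk).trans (kpow_mono hk (le_max_left a b))
  have h2 := (hb k hk).trans (kpow_mono hk (le_max_right a b))
  have h3 : (2 : ℝ) ≤ k := by exact_mod_cast hk
  have h4 : (k : ℝ) ^ max a b * 2 ≤ (k : ℝ) ^ max a b * k :=
    mul_le_mul_of_nonneg_left h3 (by positivity)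
  rw [pow_succ]
  show g k + h k ≤ _
  linarith

lemma PB.mul {g h : ℕ → ℝ} (hg : PB g) (hh : PB h) (h0 : ∀ k, 2 ≤ k → 0 ≤ h k) :
    PB (fun k => g k * h k) := by
  obtain ⟨a, ha⟩ := hg
  obtain ⟨b, hb⟩ := hh
  refine ⟨a + b, fun k hk => ?_⟩
  rw [pow_add]
  exact mul_le_mul (ha k hk) (hb k hk) (h0 k hk) (by positivity)

lemma PB.pow {g : ℕ → ℝ} (hg : PB g) (h0 : ∀ k, 2 ≤ k → 0 ≤ g k) (d : ℕ) : PB (fun k => g k ^ d) := by
  obtain ⟨a, ha⟩ := hg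
  refine ⟨a * d, fun k hk => ?_⟩
  rw [pow_mul]
  exact pow_le_pow_left₀ (h0 k hk) (ha k hk) d

lemma PB.sub_pow {g h : ℕ → ℝ} (hg : PB g) (hh : ∀ k, 2 ≤ k → 0 ≤ h k) : PB (fun k => g k - h k) :=
  hg.mono fun k hk => by
    have := hh k hk
    show g k - h k ≤ g k
    linarith

lemma PB.toEB {g : ℕ → ℝ} (hg : PB g) : EB g := by
  obtain ⟨a, ha⟩ := hg
  refine ⟨a, fun k hk => (ha k hk).trans ?_⟩
  exact_mod_cast (Nat.lt_two_pow_self (n := k ^ a)).le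

lemma EB.const (r : ℝ) : EB (fun _ => r) := (PB.const r).toEB

lemma EB.mul {g h : ℕ → ℝ} (hg : EB g) (hh : EB h) (h0 : ∀ k, 2 ≤ k → 0 ≤ h k) :
    EB (fun k => g k * h k) := by
  obtain ⟨a, ha⟩ := hg
  obtain ⟨b, hb⟩ := hh
  refine ⟨max a b + 1, fun k hk => ?_⟩
  have h1 := (ha k hk).trans (kpow_mono' hk (le_max_left a b))
  have h2 := (hb k hk).trans (kpow_mono' hk (le_max_right a b))
  have h3 : k ^ max a b + k ^ max a b ≤ k ^ (max a b + 1) := by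
    rw [pow_succ]
    calc k ^ max a b + k ^ max a b = k ^ max a b * 2 := by ring
      _ ≤ k ^ max a b * k := Nat.mul_le_mul_left _ hk
  calc g k * h k ≤ (2 : ℝ) ^ (k ^ max a b) * 2 ^ (k ^ max a b) :=
        mul_le_mul h1 h2 (h0 k hk) (by positivity)
    _ = 2 ^ (k ^ max a b + k ^ max a b) := by rw [pow_add]
    _ ≤ _ := pow_le_pow_right₀ (by norm_num) h3

lemma EB.add {g h : ℕ → ℝ} (hg : EB g) (hh : EB h) : EB (fun k => g k + h k) := by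
  obtain ⟨a, ha⟩ := hg
  obtain ⟨b, hb⟩ := hh
  refine ⟨max a b + 1, fun k hk => ?_⟩
  have h1 := (ha k hk).trans (kpow_mono' hk (le_max_left a b))
  have h2 := (hb k hk).trans (kpow_mono' hk (le_max_right a b))
  have h3 : k ^ max a b + 1 ≤ k ^ (max a b + 1) := by
    have h4 : 1 ≤ k ^ max a b := Nat.one_le_pow _ _ (by omega)
    rw [pow_succ]
    calc k ^ max a b + 1 ≤ k ^ max a b * 2 := by omega
      _ ≤ k ^ max a b * k := Nat.mul_le_mul_left _ hk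
  calc g k + h k ≤ (2 : ℝ) ^ (k ^ max a b) * 2 := by linarith
    _ = 2 ^ (k ^ max a b + 1) := by rw [pow_succ]
    _ ≤ _ := pow_le_pow_right₀ (by norm_num) h3

lemma EB.exp {g : ℕ → ℝ} (hg : PB g) : EB (fun k => Real.exp (g k)) := by
  obtain ⟨c, hc⟩ := (hg.mul (PB.const 2) (fun _ _ => by norm_num))
  refine ⟨c, fun k hk => ?_⟩
  have h1 := hc k hk
  have h2 : Real.exp (g k) ≤ Real.exp (Real.log 2 * (k ^ c : ℕ)) := by
    apply Real.exp_le_exp.mpr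
    have h3 : (0.5 : ℝ) ≤ Real.log 2 := by
      have := Real.log_two_gt_d9
      linarith
    have h4 : 0.5 * ((k : ℝ) ^ c) ≤ Real.log 2 * (k : ℝ) ^ c :=
      mul_le_mul_of_nonneg_right h3 (by positivity)
    push_cast
    linarith
  refine h2.trans ?_
  rw [Real.exp_mul, Real.exp_log (by norm_num), Real.rpow_natCast]

/-- `T ^ Q` with `T` of exponential and `Q` of polynomial growth -/
lemma EB.npow {g : ℕ → ℝ} {Q : ℕ → ℕ} (hg : EB g) (h1 : ∀ k, 2 ≤ k → 1 ≤ g k) (hQ : PB (fun k => (Q k : ℝ))) :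
    EB (fun k => g k ^ Q k) := by
  obtain ⟨a, ha⟩ := hg
  obtain ⟨b, hb⟩ := hQ
  refine ⟨a + b, fun k hk => ?_⟩
  have hQb : Q k ≤ k ^ b := by
    have h := hb k hk
    simp only at h
    exact_mod_cast h
  calc g k ^ Q k ≤ g k ^ (k ^ b) := pow_le_pow_right₀ (h1 k hk) hQb
    _ ≤ (2 ^ (k ^ a)) ^ (k ^ b) := pow_le_pow_left₀ (by linarith [h1 k hk]) (ha k hk) _
    _ = 2 ^ (k ^ (a + b)) := by rw [← pow_mul, pow_add]

lemma PB.ceil {g : ℕ → ℝ} (hg : PB g) (h0 : ∀ k, 2 ≤ k → 0 ≤ g k) : PB (fun k => ((⌈g k⌉₊ : ℕ) : ℝ)) :=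
  (hg.add (PB.const 1)).mono fun k hk => (Nat.ceil_lt_add_one (h0 k hk)).le

lemma EB.ceil {g : ℕ → ℝ} (hg : EB g) (h0 : ∀ k, 2 ≤ k → 0 ≤ g k) : EB (fun k => ((⌈g k⌉₊ : ℕ) : ℝ)) :=
  (hg.add (EB.const 1)).mono fun k hk => (Nat.ceil_lt_add_one (h0 k hk)).le

end Pool.Agent.KQ
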