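import Pool.Agent.KQ.CoreF
import Pool.Agent.KQ.Growth

/-! The core theorem with parameters `2 ^ (k ^ c)`. -/

namespace Pool.Agent.KQ

open Finset Pool.Agent.SemRO Pool.Agent.KN

lemma entropy_J {f : ℝ} (hf : 0 ≤ f) {J : ℕ} (hJ : 3 * f + 17 ≤ J) :
    Real.binEntropy ((1 / 2) ^ J) ≤ Real.exp (-f) / 16 := by
  have hJ0 : (0 : ℝ) ≤ J := Nat.cast_nonneg _
  have hJ1 : 1 ≤ J := by
    have : (1 : ℝ) ≤ J := by linarith
    exact_mod_cast this
  have h1 : ((1 : ℝ) / 2) ^ J < 1 := by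
    apply pow_lt_one₀ (by norm_num) (by norm_num) (by omega)
  have h2 := Pool.Agent.KN.binEntropy_le (l := (1 / 2 : ℝ) ^ J) h1
  refine h2.trans ?_
  have h3 : Real.log (1 / (1 / 2 : ℝ) ^ J) = J * Real.log 2 := by
    rw [one_div_pow, one_div_one_div, Real.log_pow]
  rw [h3]
  have l1 := Real.log_two_gt_d9
  have l2 := Real.log_two_lt_d9
  have h4 : (1 / 2 : ℝ) ^ J = Real.exp (-(J * Real.log 2)) := by
    rw [Real.exp_neg, mul_comm, Real.exp_mul, Real.exp_log (by norm_num), Real.rpow_natCast, one_div,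
      inv_pow]
  have h5 : (J : ℝ) * Real.log 2 + 1 ≤ Real.exp (0.35 * J + 5) / 16 := by
    have h6 : Real.exp (0.35 * J + 5) = Real.exp 5 * Real.exp (0.35 * J) := by
      rw [← Real.exp_add]; ring_nf
    have h7 := Real.add_one_le_exp (0.35 * (J : ℝ))
    have h8 : (32 : ℝ) ≤ Real.exp 5 := by
      have h9 := Real.exp_one_gt_d9
      have h10 : Real.exp 5 = Real.exp 1 ^ 5 := by rw [← Real.exp_nat_mul]; norm_num
      rw [h10]
      calc (32 : ℝ) = 2 ^ 5 := by norm_num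
        _ ≤ Real.exp 1 ^ 5 := pow_le_pow_left₀ (by norm_num) (by linarith) 5
    rw [h6]
    have h9 : 32 * (0.35 * (J : ℝ) + 1) ≤ Real.exp 5 * Real.exp (0.35 * J) :=
      mul_le_mul h8 h7 (by positivity) (by positivity)
    have h10 : (J : ℝ) * Real.log 2 ≤ J * 0.7 := mul_le_mul_of_nonneg_left (by linarith) hJ0
    linarith
  calc (1 / 2 : ℝ) ^ J * (J * Real.log 2 + 1) ≤ (1 / 2 : ℝ) ^ J * (Real.exp (0.35 * J + 5) / 16) :=
        mul_le_mul_of_nonneg_left h5 (by positivity)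
    _ = Real.exp (-(J * Real.log 2) + (0.35 * J + 5)) / 16 := by
        rw [h4, Real.exp_add (-(J * Real.log 2))]; ring
    _ ≤ Real.exp (-f) / 16 := by
        apply div_le_div_of_nonneg_right _ (by norm_num)
        apply Real.exp_le_exp.mpr
        have h6 : (J : ℝ) * 0.6931 ≤ J * Real.log 2 := mul_le_mul_of_nonneg_left (by linarith) hJ0
        linarith

lemma tau_K {f K : ℝ} (hf : 0 ≤ f) (hK : 2 ≤ K) :
    tau (1 / (4 * (f + 64 * K))) * K ≤ Real.exp (-f) / 4 := by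
  unfold tau
  have h1 : 1 / (4 * (1 / (4 * (f + 64 * K)))) = f + 64 * K := by field_simp
  rw [h1, neg_add, Real.exp_add]
  have h2 : 32 * K ≤ Real.exp (64 * K) := by
    have := Real.add_one_le_exp (64 * K)
    linarith
  have h3 : Real.exp (-(64 * K)) * Real.exp (64 * K) = 1 := by rw [← Real.exp_add]; simp
  have h4 : Real.exp (-(64 * K)) * (32 * K) ≤ 1 := by
    rw [← h3]
    exact mul_le_mul_of_nonneg_left h2 (Real.exp_pos _).le
  have h5 : 8 * (Real.exp (-f) * Real.exp (-(64 * K))) * K =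
      Real.exp (-f) / 4 * (Real.exp (-(64 * K)) * (32 * K)) := by ring
  rw [h5]
  calc Real.exp (-f) / 4 * (Real.exp (-(64 * K)) * (32 * K)) ≤ Real.exp (-f) / 4 * 1 :=
        mul_le_mul_of_nonneg_left h4 (by positivity)
    _ = _ := mul_one _

/-- **The quantitative core theorem.** -/
theorem core_quant : ∃ c : ℕ, ∀ k : ℕ, 2 ≤ k → ∃ R : ℕ, 2 ≤ R ∧ R ≤ 2 ^ (k ^ c) ∧
    ∀ n : ℕ, 2 ^ (k ^ c) ≤ n → Pool.Agent.PT44.Core k R (1 / 2 ^ (k ^ c)) n := by
  classical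
  obtain ⟨c0, hc0⟩ := recursion 1000
  have h0 := fun k : ℕ => hc0 (2 * ((k : ℝ) + 1)) (by
    have : (0 : ℝ) ≤ k := Nat.cast_nonneg _
    linarith)
  choose m f hm hmK hf hCm hrec using h0
  have hK0 : ∀ k : ℕ, (2 : ℝ) ≤ 2 * ((k : ℝ) + 1) := fun k => by
    have : (0 : ℝ) ≤ k := Nat.cast_nonneg _
    linarith
  have hKPB : PB (fun k => 2 * ((k : ℝ) + 1)) :=
    (PB.const 2).mul (PB.id.add (PB.const 1)) (fun k _ => by positivity)
  have hmPB : PB (fun k => (m k : ℝ)) := (hKPB.pow (fun k _ => by positivity) c0).mono fun k _ => hmK k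
  have hf1m : ∀ k, f k + 1 ≤ m k := fun k => by
    refine le_trans ?_ (hCm k)
    have h1 : (1 : ℝ) ≤ 1000 * (2 * ((k : ℝ) + 1)) := by linarith [hK0 k]
    have h2 : 1 * (f k + 1) ≤ 1000 * (2 * ((k : ℝ) + 1)) * (f k + 1) :=
      mul_le_mul_of_nonneg_right h1 (by linarith [hf k])
    linarith
  have hfPB : PB f := hmPB.mono fun k _ => by
    have := hf1m k
    show f k ≤ m k
    linarith
  obtain ⟨J, hJ⟩ : ∃ J : ℕ → ℕ, ∀ k, J k = ⌈3 * f k⌉₊ + 17 := ⟨_, fun _ => rfl⟩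
  obtain ⟨R, hR⟩ : ∃ R : ℕ → ℕ, ∀ k, R k = m k ^ 2 := ⟨_, fun _ => rfl⟩
  obtain ⟨D, hD⟩ : ∃ D : ℕ → ℝ, ∀ k, D k = 4 * (f k + 64 * (2 * ((k : ℝ) + 1))) := ⟨_, fun _ => rfl⟩
  obtain ⟨H, hH⟩ : ∃ H : ℕ → ℝ, ∀ k, H k = 409600000 * (J k : ℝ) ^ 2 * (f k + 1) *
    (2 * (12 * R k + R k * D k)) := ⟨_, fun _ => rfl⟩
  have hJge : ∀ k, 3 * f k + 17 ≤ J k := fun k => by
    rw [hJ]; push_cast
    have := Nat.le_ceil (3 * f k)
    linarith
  have hJle : ∀ k, (J k : ℝ) ≤ 3 * f k + 20 := fun k => by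
    rw [hJ]; push_cast
    have := Nat.ceil_lt_add_one (show 0 ≤ 3 * f k by linarith [hf k])
    linarith
  have hJ1 : ∀ k, 1 ≤ J k := fun k => by rw [hJ]; omega
  have hJ1r : ∀ k, (1 : ℝ) ≤ J k := fun k => by exact_mod_cast hJ1 k
  have hRr : ∀ k, (R k : ℝ) = (m k : ℝ) ^ 2 := fun k => by rw [hR]; push_cast; rfl
  have hm4 : ∀ k, (4 : ℝ) ≤ m k := fun k => by exact_mod_cast hm k
  have hR16 : ∀ k, (16 : ℝ) ≤ R k := fun k => by
    rw [hRr]
    have := pow_le_pow_left₀ (by norm_num) (hm4 k) 2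
    linarith
  have hD1 : ∀ k, 1 ≤ D k := fun k => by rw [hD]; linarith [hf k, hK0 k]
  have hf1 : ∀ k, (1 : ℝ) ≤ f k + 1 := fun k => by linarith [hf k]
  have hJ21 : ∀ k, (1 : ℝ) ≤ (J k : ℝ) ^ 2 := fun k => one_le_pow₀ (hJ1r k)
  have hX1 : ∀ k, (1 : ℝ) ≤ 2 * (12 * R k + R k * D k) := fun k => by
    have h1 : (0 : ℝ) ≤ R k * D k := mul_nonneg (by linarith [hR16 k]) (by linarith [hD1 k])
    linarith [hR16 k]
  have hJf1 : ∀ k, (1 : ℝ) ≤ (J k : ℝ) ^ 2 * (f k + 1) := fun k => by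
    calc (1 : ℝ) = 1 * 1 := by ring
      _ ≤ _ := mul_le_mul (hJ21 k) (hf1 k) (by norm_num) (by positivity)
  have hHge1 : ∀ k, 409600000 * (J k : ℝ) ^ 2 * (f k + 1) ≤ H k := fun k => by
    rw [hH]
    have h1 : 0 ≤ 409600000 * (J k : ℝ) ^ 2 * (f k + 1) := by
      have := hJf1 k
      have e1 : 409600000 * (J k : ℝ) ^ 2 * (f k + 1) = 409600000 * ((J k : ℝ) ^ 2 * (f k + 1)) := by ring
      rw [e1]; linarith
    exact le_mul_of_one_le_right h1 (hX1 k)
  have hHge2 : ∀ k, 2 * (12 * R k + R k * D k) ≤ H k := fun k => by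
    rw [hH]
    have h1 : 1 ≤ 409600000 * (J k : ℝ) ^ 2 * (f k + 1) := by
      have := hJf1 k
      have e1 : 409600000 * (J k : ℝ) ^ 2 * (f k + 1) = 409600000 * ((J k : ℝ) ^ 2 * (f k + 1)) := by ring
      rw [e1]; linarith
    exact le_mul_of_one_le_left (by linarith [hX1 k]) h1
  have hH2 : ∀ k, 2 ≤ H k := fun k => by
    have h1 := hHge2 k
    have h2 : (0 : ℝ) ≤ R k * D k := mul_nonneg (by linarith [hR16 k]) (by linarith [hD1 k])
    linarith [hR16 k]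
  have hHpos : ∀ k, 0 < H k := fun k => by linarith [hH2 k]
  obtain ⟨T, hT⟩ : ∃ T : ℕ → ℕ, ∀ k, T k = ⌈H k * (8 * Real.exp (f k))⌉₊ := ⟨_, fun _ => rfl⟩
  obtain ⟨Q, hQ⟩ : ∃ Q : ℕ → ℕ, ∀ k, Q k = ⌈2 * (((R k : ℝ) + 1) * (3 + f k)) * H k⌉₊ := ⟨_, fun _ => rfl⟩
  obtain ⟨e, he⟩ : ∃ e : ℕ → ℕ, ∀ k, e k = ⌈32 * (J k : ℝ) ^ 2 * Real.exp (f k)⌉₊ := ⟨_, fun _ => rfl⟩
  have hT1 : ∀ k, 1 ≤ T k := fun k => by
    rw [hT, Nat.one_le_ceil_iff]
    have := hHpos k
    positivity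
  -- growth
  have hJPB : PB (fun k => (J k : ℝ)) := (((PB.const 3).mul hfPB (fun k _ => hf k)).add (PB.const 20)).mono
    fun k _ => hJle k
  have hRPB : PB (fun k => (R k : ℝ)) := (hmPB.pow (fun k _ => Nat.cast_nonneg _) 2).mono
    fun k _ => (hRr k).le
  have hDPB : PB D := ((PB.const 4).mul (hfPB.add ((PB.const 64).mul hKPB (fun k _ => by positivity)))
    (fun k _ => by
      have := hf k
      have := hK0 k
      show 0 ≤ f k + 64 * (2 * ((k : ℝ) + 1))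
      linarith)).mono fun k _ => (hD k).le
  have hf1PB : PB (fun k => f k + 1) := hfPB.add (PB.const 1)
  have hJ2PB : PB (fun k => (J k : ℝ) ^ 2) := hJPB.pow (fun k _ => Nat.cast_nonneg _) 2
  have hHPB : PB H := ((((PB.const 409600000).mul hJ2PB (fun k _ => by positivity)).mul hf1PB
    (fun k _ => by linarith [hf1 k])).mul ((PB.const 2).mul (((PB.const 12).mul hRPB
      (fun k _ => Nat.cast_nonneg _)).add (hRPB.mul hDPB (fun k _ => by linarith [hD1 k])))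
      (fun k _ => by
        have h1 := hX1 k
        show 0 ≤ 12 * (R k : ℝ) + R k * D k
        linarith))
      (fun k _ => by linarith [hX1 k])).mono fun k _ => (hH k).le
  have hexpEB : EB (fun k => Real.exp (f k)) := EB.exp hfPB
  have hTEB : EB (fun k => (T k : ℝ)) :=
    ((hHPB.toEB.mul ((EB.const 8).mul hexpEB (fun k _ => (Real.exp_pos _).le))
      (fun k _ => by positivity)).ceil (fun k _ => by
        have := hHpos k
        positivity)).mono fun k _ => by rw [hT]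
  have hQPB : PB (fun k => (Q k : ℝ)) :=
    ((((PB.const 2).mul ((hRPB.add (PB.const 1)).mul ((PB.const 3).add hfPB)
      (fun k _ => by
        have := hf k
        show 0 ≤ 3 + f k
        linarith)) (fun k _ => by
        have := hf k
        show 0 ≤ ((R k : ℝ) + 1) * (3 + f k)
        positivity)).mul hHPB (fun k _ => (hHpos k).le)).ceil (fun k _ => by
        have := hHpos k
        have := hf k
        show 0 ≤ 2 * (((R k : ℝ) + 1) * (3 + f k)) * H k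
        positivity)).mono fun k _ => by rw [hQ]
  have heEB : EB (fun k => (e k : ℝ)) :=
    ((((EB.const 32).mul hJ2PB.toEB (fun k _ => by positivity)).mul hexpEB
      (fun k _ => (Real.exp_pos _).le)).ceil (fun k _ => by positivity)).mono fun k _ => by rw [he]
  have hTQEB : EB (fun k => (T k : ℝ) ^ Q k) := hTEB.npow (fun k _ => by exact_mod_cast hT1 k) hQPB
  have hG1 : EB (fun k => 409600 * (J k : ℝ) ^ 2 * (f k + 1) *
      (2000 + 500 * (J k : ℝ) * ((e k : ℝ) + 1) * Real.exp (f k)) * (2 * (T k : ℝ) ^ Q k) * Real.exp (f k)) := by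
    refine EB.mul (EB.mul (EB.mul (EB.mul (EB.mul (EB.const _) hJ2PB.toEB ?_) hf1PB.toEB ?_)
      (EB.add (EB.const _) (EB.mul (EB.mul (EB.mul (EB.const _) hJPB.toEB ?_)
        (EB.add heEB (EB.const _)) ?_) hexpEB ?_)) ?_) (EB.mul (EB.const _) hTQEB ?_) ?_) hexpEB ?_
    all_goals
      intro k _
      have := hf k
      positivity
  obtain ⟨c1, hc1⟩ := hG1
  obtain ⟨c2, hc2⟩ := hRPB.toEB
  refine ⟨max c1 c2, fun k hk => ⟨R k, ?_, ?_, ?_⟩⟩
  · have := hR16 k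
    have h2 : (2 : ℝ) ≤ R k := by linarith
    exact_mod_cast h2
  · have h1 := (hc2 k hk).trans (kpow_mono' hk (le_max_right c1 c2))
    simp only at h1
    exact_mod_cast h1
  intro n hn
  have hG := (hc1 k hk).trans (kpow_mono' hk (le_max_left c1 c2))
  simp only at hG
  obtain ⟨B, hB⟩ : ∃ B : ℝ, B = 2 ^ (k ^ max c1 c2) := ⟨_, rfl⟩
  have hBn : B ≤ n := by rw [hB]; exact_mod_cast hn
  rw [← hB] at hG ⊢
  have hB0 : 0 < B := by rw [hB]; positivity
  have hexp0 : 0 < Real.exp (f k) := Real.exp_pos _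
  have hexpf : Real.exp (-(f k)) = (Real.exp (f k))⁻¹ := Real.exp_neg _
  have hexp1 : 1 ≤ Real.exp (f k) := by rw [Real.one_le_exp_iff]; exact hf k
  have hTQ1 : (1 : ℝ) ≤ (T k : ℝ) ^ Q k := one_le_pow₀ (by exact_mod_cast hT1 k)
  have hHk := hHpos k
  have hfk := hf k
  obtain ⟨U, hU⟩ : ∃ U : ℝ, U = 2000 + 500 * (J k : ℝ) * ((e k : ℝ) + 1) * Real.exp (f k) := ⟨_, rfl⟩
  rw [← hU] at hG
  have hU1 : 2000 ≤ U := by
    rw [hU]
    have : 0 ≤ 500 * (J k : ℝ) * ((e k : ℝ) + 1) * Real.exp (f k) := by positivity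
    linarith
  have hV0 : 0 ≤ 409600 * (J k : ℝ) ^ 2 * (f k + 1) := by positivity
  have hV1 : 1 ≤ 409600 * (J k : ℝ) ^ 2 * (f k + 1) := by
    have := hJf1 k
    have e1 : 409600 * (J k : ℝ) ^ 2 * (f k + 1) = 409600 * ((J k : ℝ) ^ 2 * (f k + 1)) := by ring
    rw [e1]; linarith
  have hVTe : 409600 * (J k : ℝ) ^ 2 * (f k + 1) * (2 * (T k : ℝ) ^ Q k) * Real.exp (f k) ≤ B := by
    refine le_trans ?_ hG
    have h1 : 409600 * (J k : ℝ) ^ 2 * (f k + 1) ≤ 409600 * (J k : ℝ) ^ 2 * (f k + 1) * U :=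
      le_mul_of_one_le_right hV0 (by linarith)
    have h2 : 0 ≤ (2 * (T k : ℝ) ^ Q k) * Real.exp (f k) := by positivity
    calc 409600 * (J k : ℝ) ^ 2 * (f k + 1) * (2 * (T k : ℝ) ^ Q k) * Real.exp (f k) =
        409600 * (J k : ℝ) ^ 2 * (f k + 1) * ((2 * (T k : ℝ) ^ Q k) * Real.exp (f k)) := by ring
      _ ≤ 409600 * (J k : ℝ) ^ 2 * (f k + 1) * U * ((2 * (T k : ℝ) ^ Q k) * Real.exp (f k)) :=
          mul_le_mul_of_nonneg_right h1 h2
      _ = _ := by ring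
  have h2TQ : 2 * (T k : ℝ) ^ Q k ≤ B := by
    refine le_trans ?_ hVTe
    have h1 : 0 ≤ 2 * (T k : ℝ) ^ Q k := by positivity
    calc 2 * (T k : ℝ) ^ Q k = 1 * (2 * (T k : ℝ) ^ Q k) * 1 := by ring
      _ ≤ 409600 * (J k : ℝ) ^ 2 * (f k + 1) * (2 * (T k : ℝ) ^ Q k) * Real.exp (f k) := by
          apply mul_le_mul _ hexp1 (by norm_num) (by positivity)
          exact mul_le_mul_of_nonneg_right hV1 h1
  refine core_one (hR k) (hf k) (hm k) ?_ (hrec k) (J := J k) (e := e k) (T := T k) (Q := Q k)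
    (δ := 1 / D k) (η := 1 / H k) (ε := 1 / B) ?_ ?_ ?_ ?_ ?_ ?_ (hJ1 k) (hJle k) (entropy_J (hf k) (hJge k)) ?_ ?_
    (hT1 k) ?_ ?_ ?_ ?_ ?_ ?_
  · have := hCm k
    linarith
  · have := hD1 k
    positivity
  · rw [div_le_div_iff₀ (by linarith [hD1 k]) (by norm_num), hD]
    linarith [hf k, hK0 k]
  · rw [hD]
    exact tau_K (hf k) (hK0 k)
  · positivity
  · rw [div_le_div_iff₀ hHk (by norm_num)]
    linarith [hH2 k]
  · have h1 : (R k : ℝ) / (1 / D k) = R k * D k := by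
      rw [div_div_eq_mul_div, div_one]
    rw [h1]
    have h2 : 2 * (1 / H k) * (12 * (R k : ℝ) + R k * D k) = 2 * (12 * R k + R k * D k) / H k := by ring
    rw [h2, div_le_one hHk]
    exact hHge2 k
  · rw [hexpf, div_inv_eq_mul]
    have h1 : 32 * (J k : ℝ) ^ 2 * Real.exp (f k) ≤ e k := by rw [he]; exact Nat.le_ceil _
    refine h1.trans ?_
    exact_mod_cast (Nat.lt_two_pow_self (n := e k)).le
  · have h1 : 409600000 * (J k : ℝ) ^ 2 * (f k + 1) * (1 / H k) =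
        409600000 * (J k : ℝ) ^ 2 * (f k + 1) / H k := by ring
    rw [h1, div_le_one hHk]
    exact hHge1 k
  · have h1 : 1 / (1 / H k * (Real.exp (-(f k)) / 8)) = H k * (8 * Real.exp (f k)) := by
      rw [hexpf]; field_simp
    rw [h1, hT]
    exact Nat.le_ceil _
  · have h1 : Real.log (2 / (Real.exp (-(f k)) / 8)) ≤ 3 + f k := by
      have h2 : 2 / (Real.exp (-(f k)) / 8) = 2 ^ 4 * Real.exp (f k) := by
        rw [hexpf]; field_simp; norm_num
      rw [h2, Real.log_mul (by norm_num) hexp0.ne', Real.log_exp, Real.log_pow]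
      have := Real.log_two_lt_d9
      push_cast
      linarith
    have h2 : 2 * (((R k : ℝ) + 1) * Real.log (2 / (Real.exp (-(f k)) / 8))) / (1 / H k) ≤
        2 * (((R k : ℝ) + 1) * (3 + f k)) * H k := by
      rw [div_div_eq_mul_div, div_one]
      apply mul_le_mul_of_nonneg_right _ hHk.le
      apply mul_le_mul_of_nonneg_left _ (by norm_num)
      exact mul_le_mul_of_nonneg_left h1 (by positivity)
    refine h2.trans ?_
    rw [hQ]
    exact Nat.le_ceil _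
  · positivity
  · rw [hexpf]
    have h1 : 1 / B * (409600 * (J k : ℝ) ^ 2 * (f k + 1)) * (2 * (T k : ℝ) ^ Q k) =
        (409600 * (J k : ℝ) ^ 2 * (f k + 1) * (2 * (T k : ℝ) ^ Q k) * Real.exp (f k)) / B *
          (Real.exp (f k))⁻¹ := by
      field_simp
    rw [h1]
    have h2 : (409600 * (J k : ℝ) ^ 2 * (f k + 1) * (2 * (T k : ℝ) ^ Q k) * Real.exp (f k)) / B ≤ 1 := by
      rw [div_le_one hB0]; exact hVTe
    calc _ ≤ 1 * (Real.exp (f k))⁻¹ := mul_le_mul_of_nonneg_right h2 (by positivity)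
      _ = _ := one_mul _
  · have h1 : (2 : ℝ) * (T k : ℝ) ^ Q k ≤ n := h2TQ.trans hBn
    exact_mod_cast h1
  · rw [hexpf, div_inv_eq_mul, ← hU]
    have h1 : 51200 * (J k : ℝ) ^ 2 * (f k + 1) * U * (2 * (T k : ℝ) ^ Q k) * Real.exp (f k) ≤ n := by
      refine le_trans ?_ (hG.trans hBn)
      have h2 : 0 ≤ (J k : ℝ) ^ 2 * (f k + 1) * U * (2 * (T k : ℝ) ^ Q k) * Real.exp (f k) := by positivity
      linarith
    rw [← div_eq_inv_mul, le_div_iff₀ hexp0]
    exact h1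

end Pool.Agent.KQ
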