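import Pool.Agent.KN.Rich

/-! Lower tail for the sum of the inverse marginals, by the variational inequality. -/

namespace Pool.Agent.KQ

open Finset Pool.Agent.SemRO Pool.Agent.KN

variable {n R : ℕ}

lemma exp_neg_le_quad {x : ℝ} (hx : 0 ≤ x) : Real.exp (-x) ≤ 1 - x + x ^ 2 / 2 := by
  have h1 := Real.quadratic_le_exp_of_nonneg hx
  have h2 : 0 < 1 - x + x ^ 2 / 2 := by nlinarith [sq_nonneg (x - 1)]
  rw [Real.exp_neg, inv_le_iff_one_le_mul₀ (Real.exp_pos x)]
  calc (1 : ℝ) ≤ (1 - x + x ^ 2 / 2) * (1 + x + x ^ 2 / 2) := by nlinarith [sq_nonneg (x ^ 2)]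
    _ ≤ (1 - x + x ^ 2 / 2) * Real.exp x := mul_le_mul_of_nonneg_left h1 h2.le

lemma two_point_exp {p q b : ℝ} (hb : 0 < b) (hpb : b ≤ p) (hqb : b ≤ q) (hpq : p + q = 1) :
    p * Real.exp (-(0.05 * b * p⁻¹)) + q * Real.exp (-(0.05 * b * q⁻¹)) ≤
      Real.exp (-(1.95 * (0.05 * b))) := by
  have hp : 0 < p := hb.trans_le hpb
  have hq : 0 < q := hb.trans_le hqb
  have key : ∀ r : ℝ, b ≤ r → r * Real.exp (-(0.05 * b * r⁻¹)) ≤ r - 0.05 * b + 0.00125 * b := by
    intro r hr
    have hr0 : 0 < r := hb.trans_le hr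
    have h1 := exp_neg_le_quad (x := 0.05 * b * r⁻¹) (by positivity)
    have h2 := mul_le_mul_of_nonneg_left h1 hr0.le
    have e1 : r * (1 - 0.05 * b * r⁻¹ + (0.05 * b * r⁻¹) ^ 2 / 2) =
        r - 0.05 * b + 0.00125 * b * (b * r⁻¹) := by
      field_simp
      ring
    have h3 : b * r⁻¹ ≤ 1 := by
      rw [← div_eq_mul_inv, div_le_one hr0]; exact hr
    have h4 : 0.00125 * b * (b * r⁻¹) ≤ 0.00125 * b * 1 :=
      mul_le_mul_of_nonneg_left h3 (by positivity)
    linarith
  have h1 := key p hpb
  have h2 := key q hqb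
  have h3 := Real.add_one_le_exp (-(1.95 * (0.05 * b)))
  linarith

open Classical in
/-- the variational inequality for a class -/
lemma class_lower (G : Finset (Fin n → Bool)) (hne : G.Nonempty) {b : ℝ} (hb0 : 0 < b)
    (V : Finset (Fin n)) (hV : ∀ i ∈ V, ∀ y, b ≤ marg G i y) :
    0.0025 * b * V.card * ((G.filter (fun w => ∑ i ∈ V, (marg G i (w i))⁻¹ < 1.9 * V.card)).card : ℝ) ≤
      ∑ w ∈ G, ((∑ i, - Real.log (marg G i (w i))) - Real.log G.card) + G.card * Real.log 2 := by
  set v : ℝ := (V.card : ℝ) with hv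
  have hG : (0 : ℝ) < G.card := Nat.cast_pos.mpr (Finset.card_pos.mpr hne)
  set lam : ℝ := 0.05 * b with hlam
  have hlam0 : 0 < lam := by rw [hlam]; positivity
  let wg : (Fin n → Bool) → ℝ := fun z => 1 + Real.exp (lam * (1.95 * v - ∑ i ∈ V, (marg G i (z i))⁻¹))
  have hwg : ∀ z, 0 < wg z := fun z => by
    simp only [wg]
    have := Real.exp_pos (lam * (1.95 * v - ∑ i ∈ V, (marg G i (z i))⁻¹))
    linarith
  have hmp : ∀ z ∈ G, 0 < ∏ i, marg G i (z i) := fun z hz => Finset.prod_pos fun i _ => marg_pos hz i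
  -- the total weight
  have htot : ∑ z : Fin n → Bool, (∏ i, marg G i (z i)) * wg z ≤ 2 := by
    have e1 : ∀ z : Fin n → Bool, (∏ i, marg G i (z i)) * wg z = ∏ i, marg G i (z i) +
        Real.exp (1.95 * lam * v) * ∏ i, (marg G i (z i) *
          (if i ∈ V then Real.exp (-(lam * (marg G i (z i))⁻¹)) else 1)) := by
      intro z
      have e2 : Real.exp (lam * (1.95 * v - ∑ i ∈ V, (marg G i (z i))⁻¹)) =
          Real.exp (1.95 * lam * v) * ∏ i ∈ V, Real.exp (-(lam * (marg G i (z i))⁻¹)) := by
        rw [← Real.exp_sum, ← Real.exp_add]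
        congr 1
        rw [Finset.sum_neg_distrib, ← Finset.mul_sum]
        ring
      have e3 : ∏ i, (if i ∈ V then Real.exp (-(lam * (marg G i (z i))⁻¹)) else 1) =
          ∏ i ∈ V, Real.exp (-(lam * (marg G i (z i))⁻¹)) := by
        rw [Finset.prod_ite_mem]; simp
      simp only [wg]
      rw [e2, Finset.prod_mul_distrib, e3]
      ring
    rw [Finset.sum_congr rfl fun z _ => e1 z, Finset.sum_add_distrib, ← Finset.mul_sum]
    have e4 : ∑ z : Fin n → Bool, ∏ i, marg G i (z i) = 1 := by
      have := mass_univ (p := marg G) (marg_sum hne)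
      exact this
    have e5 : ∑ z : Fin n → Bool, ∏ i, (marg G i (z i) *
          (if i ∈ V then Real.exp (-(lam * (marg G i (z i))⁻¹)) else 1)) =
        ∏ i, ∑ y : Bool, (marg G i y *
          (if i ∈ V then Real.exp (-(lam * (marg G i y)⁻¹)) else 1)) := by
      have h := Finset.prod_univ_sum (fun _ : Fin n => (Finset.univ : Finset Bool))
        (fun i y => marg G i y * (if i ∈ V then Real.exp (-(lam * (marg G i y)⁻¹)) else 1))
      rw [Fintype.piFinset_univ] at h
      rw [h]
    have e6 : ∏ i, ∑ y : Bool, (marg G i y *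
          (if i ∈ V then Real.exp (-(lam * (marg G i y)⁻¹)) else 1)) ≤
        ∏ i, (if i ∈ V then Real.exp (-(1.95 * lam)) else 1) := by
      apply Finset.prod_le_prod
      · intro i _
        apply Finset.sum_nonneg
        intro y _
        apply mul_nonneg (marg_nonneg _ _ _)
        split_ifs
        · exact (Real.exp_pos _).le
        · exact zero_le_one
      · intro i _
        rw [Fintype.sum_bool]
        by_cases hi : i ∈ V
        · simp only [hi, if_true]
          rw [hlam]
          have h1 := two_point_exp hb0 (hV i hi true) (hV i hi false) (by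
            rw [add_comm]; exact marg_sum hne i)
          exact h1
        · simp only [hi, if_false, mul_one]
          rw [add_comm]; exact (marg_sum hne i).le
    have e7 : ∏ i : Fin n, (if i ∈ V then Real.exp (-(1.95 * lam)) else 1) =
        Real.exp (-(1.95 * lam * v)) := by
      rw [Finset.prod_ite_mem]
      simp only [Finset.univ_inter, Finset.prod_const]
      rw [← Real.exp_nat_mul, hv]
      congr 1
      ring
    rw [e4, e5]
    have h2 : Real.exp (1.95 * lam * v) * ∏ i, ∑ y : Bool, (marg G i y *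
          (if i ∈ V then Real.exp (-(lam * (marg G i y)⁻¹)) else 1)) ≤ 1 := by
      calc _ ≤ Real.exp (1.95 * lam * v) * Real.exp (-(1.95 * lam * v)) := by
            apply mul_le_mul_of_nonneg_left _ (Real.exp_pos _).le
            rw [← e7]; exact e6
        _ = 1 := by rw [← Real.exp_add]; simp
    linarith
  have hg := gibbs G (fun z => G.card * ((∏ i, marg G i (z i)) * wg z) / 2)
    (fun z hz => by
      have := hmp z hz
      have := hwg z
      positivity)
    (by
      rw [← Finset.sum_div, ← Finset.mul_sum]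
      have h1 : ∑ z ∈ G, (∏ i, marg G i (z i)) * wg z ≤ ∑ z : Fin n → Bool, (∏ i, marg G i (z i)) * wg z :=
        Finset.sum_le_sum_of_subset_of_nonneg (Finset.subset_univ G) fun z _ _ =>
          mul_nonneg (Finset.prod_nonneg fun i _ => marg_nonneg _ _ _) (hwg z).le
      have h2 := h1.trans htot
      have h3 := mul_le_mul_of_nonneg_left h2 hG.le
      linarith)
  have hlog : ∀ z ∈ G, Real.log (G.card * ((∏ i, marg G i (z i)) * wg z) / 2) =
      Real.log (wg z) - (((∑ i, - Real.log (marg G i (z i))) - Real.log G.card) + Real.log 2) := by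
    intro z hz
    have h1 := hmp z hz
    rw [Real.log_div (mul_pos hG (mul_pos h1 (hwg z))).ne' (by norm_num),
      Real.log_mul hG.ne' (mul_pos h1 (hwg z)).ne', Real.log_mul h1.ne' (hwg z).ne',
      Real.log_prod (fun i _ => (marg_pos hz i).ne'), Finset.sum_neg_distrib]
    ring
  rw [Finset.sum_congr rfl hlog, Finset.sum_sub_distrib, Finset.sum_add_distrib, Finset.sum_const,
    nsmul_eq_mul] at hg
  have hlow : 0.0025 * b * v * ((G.filter (fun w => ∑ i ∈ V, (marg G i (w i))⁻¹ < 1.9 * v)).card : ℝ) ≤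
      ∑ z ∈ G, Real.log (wg z) := by
    have h1 : ∑ z ∈ G, (if ∑ i ∈ V, (marg G i (z i))⁻¹ < 1.9 * v then 0.0025 * b * v else 0) ≤
        ∑ z ∈ G, Real.log (wg z) := by
      refine Finset.sum_le_sum fun z _ => ?_
      split_ifs with h
      · have h2 : Real.log (Real.exp (lam * (1.95 * v - ∑ i ∈ V, (marg G i (z i))⁻¹))) ≤
            Real.log (wg z) := by
          apply Real.log_le_log (Real.exp_pos _)
          simp only [wg]
          linarith
        rw [Real.log_exp] at h2
        refine le_trans ?_ h2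
        have h3 : 0.05 * v ≤ 1.95 * v - ∑ i ∈ V, (marg G i (z i))⁻¹ := by linarith
        have h4 := mul_le_mul_of_nonneg_left h3 hlam0.le
        rw [hlam] at h4 ⊢
        linarith
      · apply Real.log_nonneg
        simp only [wg]
        have := Real.exp_pos (lam * (1.95 * v - ∑ i ∈ V, (marg G i (z i))⁻¹))
        linarith
    rw [← Finset.sum_filter, Finset.sum_const, nsmul_eq_mul] at h1
    linarith
  linarith

variable {c : Fin R → (Fin n → Bool) → Fin n → Option Bool} {W : Finset (Fin n → Bool)}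

open Classical in
/-- most points have a large sum of inverse marginals -/
lemma card_few (M : Finset (Fin n)) (S : Finset (Fin R)) {b : ℝ} (hb : 0 < b) {v : ℕ}
    (hW : ∀ z ∈ W, v ≤ (Vf M b (fib W (uu c M S) z)).card) :
    0.0025 * b * v * ((W.filter (fun z =>
        ∑ i ∈ Vc M b v (fib W (uu c M S) z), (qs W c M S i z)⁻¹ < 1.9 * (v : ℝ))).card : ℝ) ≤
      TC W c M S + W.card := by
  have h1 : ∑ z ∈ W, (if ∑ i ∈ Vc M b v (fib W (uu c M S) z), (qs W c M S i z)⁻¹ < 1.9 * (v : ℝ)
      then 0.0025 * b * v else 0) ≤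
      ∑ z ∈ W, (((∑ i, - Real.log (qs W c M S i z)) - Real.log (fib W (uu c M S) z).card) + 1) := by
    apply sum_le_of_fib W (uu c M S)
    intro z hz
    set G := fib W (uu c M S) z with hGdef
    have hGw : ∀ w ∈ G, fib W (uu c M S) w = G := fun w hw => fib_congr (mem_fib.mp hw).2
    have hne : G.Nonempty := ⟨z, self_mem_fib hz⟩
    have hVc : (Vc M b v G).card = v := Vc_card (hW z hz)
    have h2 := class_lower G hne hb (Vc M b v G) (fun i hi y => Vf_marg (Vc_sub _ _ _ _ hi) y)
    rw [hVc] at h2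
    have e1 : ∑ w ∈ G, (if ∑ i ∈ Vc M b v (fib W (uu c M S) w), (qs W c M S i w)⁻¹ < 1.9 * (v : ℝ)
        then 0.0025 * b * v else 0) = 0.0025 * b * v *
        ((G.filter (fun w => ∑ i ∈ Vc M b v G, (marg G i (w i))⁻¹ < 1.9 * (v : ℝ))).card : ℝ) := by
      rw [← Finset.sum_filter, Finset.sum_const, nsmul_eq_mul, mul_comm]
      congr 3
      apply Finset.filter_congr
      intro w hw
      rw [hGw w hw]
      have : ∑ i ∈ Vc M b v G, (qs W c M S i w)⁻¹ = ∑ i ∈ Vc M b v G, (marg G i (w i))⁻¹ :=
        Finset.sum_congr rfl fun i _ => by rw [qs_class i hw]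
      rw [this]
    have e2 : ∑ w ∈ G, (((∑ i, - Real.log (qs W c M S i w)) -
        Real.log (fib W (uu c M S) w).card) + 1) =
        ∑ w ∈ G, ((∑ i, - Real.log (marg G i (w i))) - Real.log G.card) + G.card := by
      rw [Finset.sum_add_distrib]
      congr 1
      · refine Finset.sum_congr rfl fun w hw => ?_
        rw [hGw w hw]
        congr 1
        exact Finset.sum_congr rfl fun i _ => by rw [qs_class i hw]
      · simp
    rw [e1, e2]
    refine h2.trans ?_
    have hl : Real.log 2 ≤ 1 := by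
      have := Real.log_two_lt_d9; linarith
    have hG0 : (0 : ℝ) ≤ G.card := Nat.cast_nonneg _
    nlinarith
  rw [← Finset.sum_filter, Finset.sum_const, nsmul_eq_mul, Finset.sum_add_distrib, TC_eq] at h1
  simp only [Finset.sum_const, nsmul_eq_mul, mul_one] at h1
  linarith

end Pool.Agent.KQ
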