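import Pool.Agent.KQ.Rich1

/-! Many rich pairs, when all classes have many undecided coordinates and the total correlation is
relatively small. -/

namespace Pool.Agent.KQ

open Finset Pool.Agent.SemRO Pool.Agent.KN

variable {n R : ℕ} {c : Fin R → (Fin n → Bool) → Fin n → Option Bool} {W : Finset (Fin n → Bool)}

open Classical in
/-- **Rich pairs.** -/
theorem rich_pairs' (hW : W.Nonempty)
    (M : Finset (Fin n)) (S : Finset (Fin R)) {b0 : ℝ} (hb : 0 < b0) {v0 t1 : ℕ}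
    (hVf : ∀ z ∈ W, v0 ≤ (Vf M b0 (fib W (uu c M S) z)).card)
    (ht : 100 ≤ t1) (ht1 : 10 * (t1 : ℝ) ≤ b0 * v0)
    (hTC : TC W c M S + W.card ≤ t1 * W.card / 1000) :
    0.4 * W.card * (1.8 * b0 * v0) ^ t1 ≤
      t1.factorial * (((W ×ˢ M.powersetCard t1).filter (fun p =>
        (∀ i ∈ p.2, qs W c M S i p.1 < 1) ∧
        (2 : ℝ) ^ (0.8 * (t1 : ℝ)) ≤ (fib W (uu c p.2 S) p.1).card)).card : ℝ) := by
  have hWc : (0 : ℝ) < W.card := Nat.cast_pos.mpr (Finset.card_pos.mpr hW)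
  have ht' : (100 : ℝ) ≤ t1 := by exact_mod_cast ht
  have hv0pos : (0 : ℝ) < v0 := by
    by_contra hcon
    have : (v0 : ℝ) = 0 := le_antisymm (not_lt.mp hcon) (Nat.cast_nonneg _)
    rw [this] at ht1
    linarith
  -- the exceptional sets
  obtain ⟨B0, hB0⟩ : ∃ B0, B0 = W.filter (fun z =>
        ∑ i ∈ Vc M b0 v0 (fib W (uu c M S) z), (qs W c M S i z)⁻¹ < 1.9 * (v0 : ℝ)) := ⟨_, rfl⟩
  have hB0c : (B0.card : ℝ) ≤ 0.04 * W.card := by
    have h1 := (card_few M S hb hVf).trans hTC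
    rw [← hB0] at h1
    have h2 : (t1 : ℝ) * W.card / 1000 ≤ (b0 * v0 / 10) * W.card / 1000 := by
      have : (t1 : ℝ) * W.card ≤ (b0 * v0 / 10) * W.card :=
        mul_le_mul_of_nonneg_right (by linarith) hWc.le
      linarith
    have hbv : 0 < b0 * v0 := mul_pos hb hv0pos
    have h3 : (b0 * v0) * (B0.card : ℝ) ≤ (b0 * v0) * (0.04 * W.card) := by
      have e1 : (b0 * v0) * (B0.card : ℝ) = 400 * (0.0025 * b0 * v0 * B0.card) := by ring
      have e2 : (b0 * v0) * (0.04 * (W.card : ℝ)) = 400 * ((b0 * v0 / 10) * W.card / 1000) := by ring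
      rw [e1, e2]
      linarith
    exact le_of_mul_le_mul_left h3 hbv
  obtain ⟨B, hB⟩ : ∃ B, B = W.filter (fun z => rho W c M S z < - (0.01 * t1)) := ⟨_, rfl⟩
  have hBc : (B.card : ℝ) ≤ 0.1 * W.card := by
    have h1 := (card_small_rho (W := W) (c := c) M S (τ := 0.01 * t1)).trans hTC
    rw [← hB] at h1
    have h2 : (t1 : ℝ) * (B.card) ≤ t1 * (0.1 * W.card) := by
      calc (t1 : ℝ) * B.card = 100 * (0.01 * t1 * B.card) := by ring
        _ ≤ 100 * (t1 * W.card / 1000) := by linarith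
        _ = t1 * (0.1 * W.card) := by ring
    exact le_of_mul_le_mul_left h2 (by linarith)
  obtain ⟨W3, hW3⟩ : ∃ W3, W3 = W \ (B0 ∪ B) := ⟨_, rfl⟩
  have hW3c : 0.86 * (W.card : ℝ) ≤ W3.card := by
    have h1 : (W.card : ℝ) ≤ W3.card + (B0 ∪ B).card := by
      rw [hW3]
      exact_mod_cast Finset.card_le_card_sdiff_add_card
    have h2 : ((B0 ∪ B).card : ℝ) ≤ B0.card + B.card := by exact_mod_cast Finset.card_union_le _ _
    linarith
  have hW3W : W3 ⊆ W := by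
    rw [hW3]; exact Finset.sdiff_subset
  have hW3b : ∀ z ∈ W3, 1.9 * (v0 : ℝ) ≤
      ∑ i ∈ Vc M b0 v0 (fib W (uu c M S) z), (qs W c M S i z)⁻¹ := by
    intro z hz
    by_contra hcon
    push Not at hcon
    have h1 : z ∈ B0 := by rw [hB0]; exact Finset.mem_filter.mpr ⟨hW3W hz, hcon⟩
    rw [hW3] at hz
    exact (Finset.mem_sdiff.mp hz).2 (Finset.mem_union_left _ h1)
  have hW3rho : ∀ z ∈ W3, - (0.01 * (t1 : ℝ)) ≤ rho W c M S z := by
    intro z hz
    by_contra hcon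
    push Not at hcon
    have h1 : z ∈ B := by rw [hB]; exact Finset.mem_filter.mpr ⟨hW3W hz, hcon⟩
    rw [hW3] at hz
    exact (Finset.mem_sdiff.mp hz).2 (Finset.mem_union_right _ h1)
  -- lower bound for the weight
  obtain ⟨K, hK⟩ : ∃ K : ℝ, K = 2 ^ (0.8 * (t1 : ℝ)) := ⟨_, rfl⟩
  rw [← hK]
  have hK0 : 0 ≤ K := by rw [hK]; positivity
  have hlow : (W3.card : ℝ) * (1.8 * v0) ^ t1 ≤ t1.factorial *
      ∑ z ∈ W3, ∑ T ∈ (Vc M b0 v0 (fib W (uu c M S) z)).powersetCard t1,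
        ∏ i ∈ T, (qs W c M S i z)⁻¹ := by
    rw [Finset.mul_sum, ← nsmul_eq_mul, ← Finset.sum_const]
    refine Finset.sum_le_sum fun z hz => ?_
    have hzW := hW3W hz
    have hz4 := hW3b z hz
    apply esymm_lower _ _ (b := b0⁻¹) (fun i _ => inv_nonneg.mpr (qs_pos hzW i).le)
      (fun i hi => ?_) (by positivity) _ _ (by positivity)
    · refine le_trans ?_ hz4
      have h1 : (t1 : ℝ) * b0⁻¹ ≤ v0 / 10 := by
        rw [← div_eq_mul_inv, div_le_iff₀ hb]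
        linarith
      linarith
    · apply inv_anti₀ hb
      rw [qs_class i (self_mem_fib hzW)]
      exact Vf_marg (Vc_sub _ _ _ _ hi) _
  -- splitting into rich and other pairs
  have hsplit : ∑ z ∈ W3, ∑ T ∈ (Vc M b0 v0 (fib W (uu c M S) z)).powersetCard t1,
        ∏ i ∈ T, (qs W c M S i z)⁻¹ =
      ∑ z ∈ W3, ∑ T ∈ ((Vc M b0 v0 (fib W (uu c M S) z)).powersetCard t1).filter
        (fun T => K ≤ ((fib W (uu c T S) z).card : ℝ)), ∏ i ∈ T, (qs W c M S i z)⁻¹ +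
      ∑ z ∈ W3, ∑ T ∈ ((Vc M b0 v0 (fib W (uu c M S) z)).powersetCard t1).filter
        (fun T => ¬ K ≤ ((fib W (uu c T S) z).card : ℝ)), ∏ i ∈ T, (qs W c M S i z)⁻¹ := by
    rw [← Finset.sum_add_distrib]
    refine Finset.sum_congr rfl fun z _ => ?_
    rw [Finset.sum_filter_add_sum_filter_not]
  have hnon := nonrich (W := W) (c := c) M S (b := b0) (v := v0) (t := t1) (τ := 0.01 * t1) hK0 W3
    hW3W hW3rho
  obtain ⟨Pr, hPr⟩ : ∃ Pr, Pr = (W ×ˢ M.powersetCard t1).filter (fun p =>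
        (∀ i ∈ p.2, qs W c M S i p.1 < 1) ∧ K ≤ (fib W (uu c p.2 S) p.1).card) := ⟨_, rfl⟩
  rw [← hPr]
  have hrich : ∑ z ∈ W3, ∑ T ∈ ((Vc M b0 v0 (fib W (uu c M S) z)).powersetCard t1).filter
        (fun T => K ≤ ((fib W (uu c T S) z).card : ℝ)), ∏ i ∈ T, (qs W c M S i z)⁻¹ ≤
      Pr.card * (b0 ^ t1)⁻¹ := by
    have h1 : ∑ z ∈ W3, ∑ T ∈ ((Vc M b0 v0 (fib W (uu c M S) z)).powersetCard t1).filter
        (fun T => K ≤ ((fib W (uu c T S) z).card : ℝ)), ∏ i ∈ T, (qs W c M S i z)⁻¹ ≤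
        ∑ z ∈ W3, ∑ _T ∈ ((Vc M b0 v0 (fib W (uu c M S) z)).powersetCard t1).filter
        (fun T => K ≤ ((fib W (uu c T S) z).card : ℝ)), (b0 ^ t1)⁻¹ := by
      refine Finset.sum_le_sum fun z hz => Finset.sum_le_sum fun T hT => ?_
      obtain ⟨hT1, hT2⟩ := Finset.mem_powersetCard.mp (Finset.mem_filter.mp hT).1
      rw [Finset.prod_inv_distrib]
      apply inv_anti₀ (by positivity)
      rw [← hT2, ← Finset.prod_const]
      apply Finset.prod_le_prod (fun _ _ => hb.le)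
      intro i hi
      rw [qs_class i (self_mem_fib (hW3W hz))]
      exact Vf_marg (Vc_sub _ _ _ _ (hT1 hi)) _
    refine h1.trans ?_
    have h2 : ∑ z ∈ W3, ∑ _T ∈ ((Vc M b0 v0 (fib W (uu c M S) z)).powersetCard t1).filter
        (fun T => K ≤ ((fib W (uu c T S) z).card : ℝ)), (b0 ^ t1)⁻¹ =
        ((W3.sigma (fun z => ((Vc M b0 v0 (fib W (uu c M S) z)).powersetCard t1).filter
        (fun T => K ≤ ((fib W (uu c T S) z).card : ℝ)))).card : ℝ) * (b0 ^ t1)⁻¹ := by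
      rw [Finset.card_sigma, Nat.cast_sum, Finset.sum_mul]
      refine Finset.sum_congr rfl fun z _ => ?_
      rw [Finset.sum_const, nsmul_eq_mul]
    rw [h2]
    apply mul_le_mul_of_nonneg_right _ (by positivity)
    rw [Nat.cast_le]
    apply Finset.card_le_card_of_injOn (fun p => (p.1, p.2))
    · rintro ⟨z, T⟩ hp
      obtain ⟨hz, hT⟩ := Finset.mem_sigma.mp hp
      obtain ⟨hT1, hT2⟩ := Finset.mem_filter.mp hT
      obtain ⟨hT3, hT4⟩ := Finset.mem_powersetCard.mp hT1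
      simp only at hz hT3 hT4 hT2
      rw [hPr]
      refine Finset.mem_coe.mpr (Finset.mem_filter.mpr ⟨Finset.mem_product.mpr ⟨hW3W hz,
        Finset.mem_powersetCard.mpr ⟨fun i hi => (mem_Vf.mp (Vc_sub _ _ _ _ (hT3 hi))).1, hT4⟩⟩,
        fun i hi => ?_, hT2⟩)
      have h3 := Vc_sub _ _ _ _ (hT3 hi)
      have h4 := Vf_marg h3 (!(z i))
      rw [marg_not ⟨z, self_mem_fib (hW3W hz)⟩, ← qs_class i (self_mem_fib (hW3W hz))] at h4
      change qs W c M S i z < 1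
      linarith
    · rintro ⟨z, T⟩ _ ⟨z', T'⟩ _ h
      simp only [Prod.mk.injEq] at h
      obtain ⟨rfl, rfl⟩ := h
      rfl
  -- the non-rich pairs
  have hKt : Real.exp (0.01 * t1) * K ≤ (1.8 / 1.02) ^ t1 := by
    have e1 : Real.exp (0.01 * (t1 : ℝ)) = Real.exp 0.01 ^ t1 := by
      rw [← Real.exp_nat_mul]; congr 1; ring
    have e2 : K = ((2 : ℝ) ^ (0.8 : ℝ)) ^ t1 := by
      rw [hK, Real.rpow_mul (by norm_num), Real.rpow_natCast]
    rw [e1, e2, ← mul_pow]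
    apply pow_le_pow_left₀ (by positivity)
    calc Real.exp 0.01 * (2 : ℝ) ^ (0.8 : ℝ) ≤ 1.0102 * 1.7412 :=
          mul_le_mul exp_001 two_rpow_08 (by positivity) (by norm_num)
      _ ≤ 1.8 / 1.02 := by norm_num
  have hch : (t1.factorial : ℝ) * (v0.choose t1) ≤ (v0 : ℝ) ^ t1 := by
    have h1 := Nat.descFactorial_le_pow v0 t1
    rw [Nat.descFactorial_eq_factorial_mul_choose] at h1
    exact_mod_cast h1
  have hmain : (W3.card : ℝ) * (1.8 * v0) ^ t1 ≤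
      t1.factorial * (Pr.card * (b0 ^ t1)⁻¹) + W.card * (v0 ^ t1 * (1.8 / 1.02) ^ t1) := by
    refine hlow.trans ?_
    rw [hsplit, mul_add]
    have h1 := mul_le_mul_of_nonneg_left hrich (Nat.cast_nonneg (α := ℝ) t1.factorial)
    have h2 := mul_le_mul_of_nonneg_left hnon (Nat.cast_nonneg (α := ℝ) t1.factorial)
    have h3 : (t1.factorial : ℝ) * (W.card * (v0.choose t1 * (Real.exp (0.01 * t1) * K))) ≤
        W.card * (v0 ^ t1 * (1.8 / 1.02) ^ t1) := by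
      calc (t1.factorial : ℝ) * (W.card * (v0.choose t1 * (Real.exp (0.01 * t1) * K)))
          = W.card * ((t1.factorial * v0.choose t1) * (Real.exp (0.01 * t1) * K)) := by ring
        _ ≤ W.card * (v0 ^ t1 * (1.8 / 1.02) ^ t1) := by
          apply mul_le_mul_of_nonneg_left _ (Nat.cast_nonneg _)
          exact mul_le_mul hch hKt (by positivity) (by positivity)
    linarith
  have hexp : (1.8 / 1.02 : ℝ) ^ t1 * v0 ^ t1 ≤ 0.4 * (1.8 * v0) ^ t1 := by
    have h1 : (1.8 / 1.02 : ℝ) ^ t1 * v0 ^ t1 = (1.8 * v0) ^ t1 / 1.02 ^ t1 := by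
      rw [div_pow, mul_pow]; ring
    rw [h1, div_le_iff₀ (by positivity)]
    have h2 : 1 ≤ 0.4 * (1.02 : ℝ) ^ t1 := by
      have h3 := one_add_mul_le_pow (show (-2 : ℝ) ≤ 0.02 by norm_num) t1
      have h4 : (1 + 0.02 : ℝ) = 1.02 := by norm_num
      rw [h4] at h3
      linarith
    have h3 : (0 : ℝ) ≤ (1.8 * v0) ^ t1 := by positivity
    calc (1.8 * (v0 : ℝ)) ^ t1 = 1 * (1.8 * v0) ^ t1 := by ring
      _ ≤ (0.4 * (1.02 : ℝ) ^ t1) * (1.8 * v0) ^ t1 := mul_le_mul_of_nonneg_right h2 h3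
      _ = _ := by ring
  have h9 : 0.4 * (W.card : ℝ) * (1.8 * v0) ^ t1 ≤
      t1.factorial * (Pr.card * (b0 ^ t1)⁻¹) := by
    have h3 : (0 : ℝ) ≤ (1.8 * v0) ^ t1 := by positivity
    have h4 := mul_le_mul_of_nonneg_right hW3c h3
    have h5 : (W.card : ℝ) * (v0 ^ t1 * (1.8 / 1.02) ^ t1) ≤
        W.card * (0.4 * (1.8 * v0) ^ t1) := by
      apply mul_le_mul_of_nonneg_left _ (Nat.cast_nonneg _)
      rw [mul_comm ((v0 : ℝ) ^ t1)]
      exact hexp
    have h8 : 0 ≤ (W.card : ℝ) * (1.8 * v0) ^ t1 := by positivity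
    nlinarith
  have h10 : (0 : ℝ) < b0 ^ t1 := by positivity
  have h11 := mul_le_mul_of_nonneg_right h9 h10.le
  have e1 : 0.4 * (W.card : ℝ) * (1.8 * v0) ^ t1 * b0 ^ t1 =
      0.4 * W.card * (1.8 * b0 * v0) ^ t1 := by
    rw [mul_assoc, ← mul_pow]
    congr 2
    ring
  have e2 : (t1.factorial : ℝ) * (Pr.card * (b0 ^ t1)⁻¹) * b0 ^ t1 = t1.factorial * Pr.card := by
    field_simp
  rw [e1, e2] at h11
  exact h11

end Pool.Agent.KQ
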