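import Pool.Agent.KQ.Rich2
import Pool.Agent.KN.Num

/-! Selection of the classes and of the level of the marginals. -/

namespace Pool.Agent.KQ

open Finset Pool.Agent.SemRO Pool.Agent.KN

variable {n R : ℕ} {c : Fin R → (Fin n → Bool) → Fin n → Option Bool} {W : Finset (Fin n → Bool)}

/-- sum of the entropies of the bits in a class -/
noncomputable def HG (M : Finset (Fin n)) (G : Finset (Fin n → Bool)) : ℝ :=
  ∑ i ∈ M, Real.binEntropy (marg G i false)

/-- total correlation of a class, per point -/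
noncomputable def tcG (M : Finset (Fin n)) (G : Finset (Fin n → Bool)) : ℝ :=
  HG M G - Real.log G.card

lemma HG_nonneg (M : Finset (Fin n)) (G : Finset (Fin n → Bool)) (hne : G.Nonempty) : 0 ≤ HG M G :=
  Finset.sum_nonneg fun i _ => Real.binEntropy_nonneg (marg_nonneg _ _ _) (marg_le_one hne _ _)

lemma HG_le (M : Finset (Fin n)) (G : Finset (Fin n → Bool)) : HG M G ≤ M.card := by
  unfold HG
  calc ∑ i ∈ M, Real.binEntropy (marg G i false) ≤ ∑ _i ∈ M, (1 : ℝ) := by
        refine Finset.sum_le_sum fun i _ => ?_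
        have h1 := Real.binEntropy_le_log_two (p := marg G i false)
        have := Real.log_two_lt_d9
        linarith
    _ = M.card := by simp

lemma sum_HG (M : Finset (Fin n)) (S : Finset (Fin R)) :
    ∑ z ∈ W, HG M (fib W (uu c M S) z) = Gs W c M S + TC W c M S := by
  have key : ∀ z ∈ W, ∑ w ∈ fib W (uu c M S) z, HG M (fib W (uu c M S) w) =
      ∑ w ∈ fib W (uu c M S) z, ∑ i ∈ M, - Real.log (qs W c M S i w) := by
    intro z hz
    set G := fib W (uu c M S) z with hGdef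
    have hGw : ∀ w ∈ G, fib W (uu c M S) w = G := fun w hw => fib_congr (mem_fib.mp hw).2
    have hne : G.Nonempty := ⟨z, self_mem_fib hz⟩
    have e1 : ∑ w ∈ G, HG M (fib W (uu c M S) w) = ∑ i ∈ M, G.card * Real.binEntropy (marg G i false) := by
      rw [Finset.sum_congr rfl fun w hw => by rw [hGw w hw], Finset.sum_const, nsmul_eq_mul,
        ← Finset.mul_sum]
      rfl
    rw [e1, Finset.sum_comm]
    refine Finset.sum_congr rfl fun i _ => ?_
    rw [← class_entropy G hne]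
    refine Finset.sum_congr rfl fun w hw => ?_
    rw [qs_class i hw]
  have h1 : ∑ z ∈ W, HG M (fib W (uu c M S) z) = ∑ z ∈ W, ∑ i ∈ M, - Real.log (qs W c M S i z) :=
    le_antisymm (sum_le_of_fib W (uu c M S) _ _ fun z hz => (key z hz).le)
      (sum_le_of_fib W (uu c M S) _ _ fun z hz => (key z hz).ge)
  rw [h1, Finset.sum_comm, Finset.sum_congr rfl fun i _ => sum_neg_log_qs]
  unfold TC
  ring

open Classical in
/-- a union of classes -/
lemma fib_filter (P : Finset (Fin n → Bool) → Prop) (M : Finset (Fin n)) (S : Finset (Fin R))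
    {z : Fin n → Bool} (hz : z ∈ W.filter (fun z => P (fib W (uu c M S) z))) :
    fib (W.filter (fun z => P (fib W (uu c M S) z))) (uu c M S) z = fib W (uu c M S) z := by
  obtain ⟨_, hP⟩ := Finset.mem_filter.mp hz
  ext w
  rw [mem_fib, mem_fib, Finset.mem_filter]
  constructor
  · rintro ⟨⟨h1, _⟩, h3⟩
    exact ⟨h1, h3⟩
  · rintro ⟨h1, h3⟩
    refine ⟨⟨h1, ?_⟩, h3⟩
    rw [fib_congr h3]
    exact hP

open Classical in
lemma TC_filter (P : Finset (Fin n → Bool) → Prop) (M : Finset (Fin n)) (S : Finset (Fin R)) :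
    TC (W.filter (fun z => P (fib W (uu c M S) z))) c M S =
      ∑ z ∈ W.filter (fun z => P (fib W (uu c M S) z)), tcG M (fib W (uu c M S) z) := by
  have h1 := sum_HG (W := W.filter (fun z => P (fib W (uu c M S) z))) (c := c) M S
  have h2 : TC (W.filter (fun z => P (fib W (uu c M S) z))) c M S =
      ∑ z ∈ W.filter (fun z => P (fib W (uu c M S) z)),
        HG M (fib (W.filter (fun z => P (fib W (uu c M S) z))) (uu c M S) z) -
      Gs (W.filter (fun z => P (fib W (uu c M S) z))) c M S := by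
    linarith
  rw [h2]
  unfold Gs
  rw [← Finset.sum_sub_distrib]
  refine Finset.sum_congr rfl fun z hz => ?_
  rw [fib_filter P M S hz]
  rfl

/-- entropy of one bit, by the dyadic levels of its smaller marginal -/
lemma entropy_levels (M : Finset (Fin n)) (G : Finset (Fin n → Bool)) (hne : G.Nonempty) {J : ℕ}
    (hJ1 : 1 ≤ J) {x : ℝ} (hx : Real.binEntropy ((1 / 2) ^ J) ≤ x) (hx0 : 0 ≤ x) {i : Fin n} (hi : i ∈ M) :
    open Classical in
    Real.binEntropy (marg G i false) ≤ x + ∑ j ∈ Finset.Icc 1 J,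
      (if i ∈ Vf M ((1 / 2) ^ j) G then 2 * (1 / 2) ^ j * (j : ℝ) else 0) := by
  classical
  have hsum := marg_sum hne i
  have h0 := marg_nonneg G i false
  have h1 := marg_nonneg G i true
  set b : ℝ := min (marg G i false) (marg G i true) with hb
  have hb0 : 0 ≤ b := le_min h0 h1
  have hb12 : b ≤ 1 / 2 := by
    rcases le_total (marg G i false) (marg G i true) with h | h
    · rw [hb, min_eq_left h]; linarith
    · rw [hb, min_eq_right h]; linarith
  have hent : Real.binEntropy (marg G i false) = Real.binEntropy b := by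
    rcases le_total (marg G i false) (marg G i true) with h | h
    · rw [hb, min_eq_left h]
    · rw [hb, min_eq_right h, ← Real.binEntropy_one_sub]
      congr 1; linarith
  have hmono : ∀ y : ℝ, b ≤ y → y ≤ 1 / 2 → Real.binEntropy b ≤ Real.binEntropy y := by
    intro y hby hy
    apply (Real.binEntropy_strictMonoOn.monotoneOn)
    · exact ⟨hb0, by norm_num; linarith⟩
    · exact ⟨hb0.trans hby, by norm_num; linarith⟩
    · exact hby
  have hnn : ∀ j ∈ Finset.Icc 1 J, (0 : ℝ) ≤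
      (if i ∈ Vf M ((1 / 2) ^ j) G then 2 * (1 / 2) ^ j * (j : ℝ) else 0) := by
    intro j _
    split_ifs
    · positivity
    · exact le_rfl
  rw [hent]
  by_cases hJ : (1 / 2 : ℝ) ^ J ≤ b
  · -- the first level below `b`
    have hex : ∃ j : ℕ, (1 / 2 : ℝ) ^ j ≤ b := ⟨J, hJ⟩
    set j := Nat.find hex with hj
    have hjb : (1 / 2 : ℝ) ^ j ≤ b := Nat.find_spec hex
    have hjJ : j ≤ J := Nat.find_min' hex hJ
    have hj1 : 1 ≤ j := by
      by_contra hcon
      have : j = 0 := by omega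
      rw [this, pow_zero] at hjb
      linarith
    have hmem : i ∈ Vf M ((1 / 2) ^ j) G :=
      mem_Vf.mpr ⟨hi, hjb.trans (min_le_left _ _), hjb.trans (min_le_right _ _)⟩
    have hterm : 2 * (1 / 2) ^ j * (j : ℝ) ≤ ∑ j ∈ Finset.Icc 1 J,
        (if i ∈ Vf M ((1 / 2) ^ j) G then 2 * (1 / 2) ^ j * (j : ℝ) else 0) := by
      have := Finset.single_le_sum hnn (Finset.mem_Icc.mpr ⟨hj1, hjJ⟩)
      rw [if_pos hmem] at this
      exact this
    have hl2 := Real.log_two_lt_d9
    have hl20 : 0 ≤ Real.log 2 := Real.log_nonneg (by norm_num)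
    have hmain : Real.binEntropy b ≤ 2 * (1 / 2) ^ j * (j : ℝ) := by
      rcases Nat.lt_or_ge j 2 with hj2 | hj2
      · have : j = 1 := by omega
        rw [this]
        have h2 := Real.binEntropy_le_log_two (p := b)
        norm_num
        linarith
      · obtain ⟨j', hj'⟩ : ∃ j', j = j' + 1 := ⟨j - 1, by omega⟩
        have hj'1 : 1 ≤ j' := by omega
        have hlt : b < (1 / 2 : ℝ) ^ j' := by
          by_contra hcon
          push Not at hcon
          have := Nat.find_min' hex hcon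
          omega
        have hle : (1 / 2 : ℝ) ^ j' ≤ 1 / 2 := by
          calc (1 / 2 : ℝ) ^ j' ≤ (1 / 2) ^ 1 := pow_le_pow_of_le_one (by norm_num) (by norm_num) hj'1
            _ = 1 / 2 := by norm_num
        have h2 := (hmono _ hlt.le hle).trans (Pool.Agent.KN.binEntropy_le (l := (1 / 2 : ℝ) ^ j') (by linarith))
        have h3 : Real.log (1 / (1 / 2 : ℝ) ^ j') = j' * Real.log 2 := by
          rw [one_div_pow, one_div_one_div, Real.log_pow]
        rw [h3] at h2
        refine h2.trans ?_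
        have e1 : 2 * (1 / 2 : ℝ) ^ j * (j : ℝ) = (1 / 2) ^ j' * ((j' : ℝ) + 1) := by
          rw [hj', pow_succ]; push_cast; ring
        rw [e1]
        apply mul_le_mul_of_nonneg_left _ (by positivity)
        have h4 : (j' : ℝ) * Real.log 2 ≤ j' * 1 :=
          mul_le_mul_of_nonneg_left (by linarith) (Nat.cast_nonneg _)
        linarith
    linarith
  · push Not at hJ
    have hJ12 : (1 / 2 : ℝ) ^ J ≤ 1 / 2 := by
      calc (1 / 2 : ℝ) ^ J ≤ (1 / 2) ^ 1 := pow_le_pow_of_le_one (by norm_num) (by norm_num) hJ1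
        _ = 1 / 2 := by norm_num
    have hs0 := Finset.sum_nonneg hnn
    have := (hmono _ hJ.le hJ12).trans hx
    linarith

/-- some level carries a good part of the entropy of the class -/
lemma exists_level (M : Finset (Fin n)) (G : Finset (Fin n → Bool)) (hne : G.Nonempty) {J : ℕ}
    (hJ1 : 1 ≤ J) {x : ℝ} (hx : Real.binEntropy ((1 / 2) ^ J) ≤ x) (hx0 : 0 ≤ x)
    (hH : 2 * x * M.card ≤ HG M G) :
    ∃ j ∈ Finset.Icc 1 J, HG M G ≤ 4 * (J : ℝ) ^ 2 * ((1 / 2) ^ j * (Vf M ((1 / 2) ^ j) G).card) := by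
  classical
  have hJr : (1 : ℝ) ≤ J := by exact_mod_cast hJ1
  have h1 : HG M G ≤ x * M.card + ∑ j ∈ Finset.Icc 1 J,
      2 * (1 / 2) ^ j * (j : ℝ) * (Vf M ((1 / 2) ^ j) G).card := by
    unfold HG
    calc ∑ i ∈ M, Real.binEntropy (marg G i false)
        ≤ ∑ i ∈ M, (x + ∑ j ∈ Finset.Icc 1 J,
          (if i ∈ Vf M ((1 / 2) ^ j) G then 2 * (1 / 2) ^ j * (j : ℝ) else 0)) :=
          Finset.sum_le_sum fun i hi => entropy_levels M G hne hJ1 hx hx0 hi
      _ = _ := by
          rw [Finset.sum_add_distrib, Finset.sum_const, nsmul_eq_mul, Finset.sum_comm, mul_comm]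
          congr 1
          refine Finset.sum_congr rfl fun j _ => ?_
          rw [← Finset.sum_filter, Finset.sum_const, nsmul_eq_mul, mul_comm]
          congr 2
          congr 1
          ext i
          simp only [Finset.mem_filter]
          exact ⟨fun h => h.2, fun h => ⟨(mem_Vf.mp h).1, h⟩⟩
  by_contra hcon
  push Not at hcon
  have hHpos : 0 < HG M G := by
    have h2 := hcon 1 (Finset.mem_Icc.mpr ⟨le_rfl, hJ1⟩)
    exact lt_of_le_of_lt (by positivity) h2
  have h2 : ∑ j ∈ Finset.Icc 1 J, 2 * (1 / 2) ^ j * (j : ℝ) * (Vf M ((1 / 2) ^ j) G).card <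
      ∑ _j ∈ Finset.Icc 1 J, HG M G / (2 * J) := by
    apply Finset.sum_lt_sum_of_nonempty (Finset.nonempty_Icc.mpr hJ1)
    intro j hj
    have h3 := hcon j hj
    have hjJ : (j : ℝ) ≤ J := by exact_mod_cast (Finset.mem_Icc.mp hj).2
    rw [lt_div_iff₀ (by positivity)]
    have h4 : 0 ≤ (1 / 2 : ℝ) ^ j * (Vf M ((1 / 2) ^ j) G).card := by positivity
    calc 2 * (1 / 2) ^ j * (j : ℝ) * (Vf M ((1 / 2) ^ j) G).card * (2 * J)
        = 4 * (j * J) * ((1 / 2 : ℝ) ^ j * (Vf M ((1 / 2) ^ j) G).card) := by ring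
      _ ≤ 4 * (J * J) * ((1 / 2 : ℝ) ^ j * (Vf M ((1 / 2) ^ j) G).card) := by gcongr
      _ = 4 * (J : ℝ) ^ 2 * ((1 / 2) ^ j * (Vf M ((1 / 2) ^ j) G).card) := by ring
      _ < HG M G := h3
  rw [Finset.sum_const, Nat.card_Icc, nsmul_eq_mul] at h2
  have h3 : ((J + 1 - 1 : ℕ) : ℝ) * (HG M G / (2 * J)) = HG M G / 2 := by
    rw [Nat.add_sub_cancel]; field_simp
  rw [h3] at h2
  linarith

open Classical in
/-- **Selection.** -/
theorem selection (hW : W.Nonempty) (M : Finset (Fin n)) (hM : M.Nonempty) (S : Finset (Fin R))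
    {Φ0 η η2 : ℝ} (hΦ0 : 0 < Φ0) (hη0 : 0 < η) (hη2 : 32 * η ≤ η2)
    (hG : Φ0 / 2 * (W.card * M.card) ≤ Gs W c M S) (hTC : TC W c M S ≤ 8 * η * Gs W c M S)
    {J e : ℕ} (hJ1 : 1 ≤ J) (hJ : Real.binEntropy ((1 / 2) ^ J) ≤ Φ0 / 16)
    (he : 32 * (J : ℝ) ^ 2 / Φ0 ≤ 2 ^ e) :
    ∃ (j v0 : ℕ) (W1 : Finset (Fin n → Bool)), W1 ⊆ W ∧ 1 ≤ j ∧ j ≤ J ∧ v0 ≤ M.card ∧
      Φ0 * M.card / (64 * (J : ℝ) ^ 2) ≤ (1 / 2) ^ j * v0 ∧
      Φ0 / 4 * W.card ≤ (J * (e + 1)) * W1.card ∧
      (∀ z ∈ W1, v0 ≤ (Vf M ((1 / 2) ^ j) (fib W1 (uu c M S) z)).card) ∧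
      TC W1 c M S ≤ 8 * (J : ℝ) ^ 2 * η2 * ((1 / 2) ^ j * v0) * W1.card := by
  have hWc : (0 : ℝ) < W.card := Nat.cast_pos.mpr (Finset.card_pos.mpr hW)
  have hMc : (0 : ℝ) < M.card := Nat.cast_pos.mpr (Finset.card_pos.mpr hM)
  have hJr : (1 : ℝ) ≤ J := by exact_mod_cast hJ1
  have hη20 : 0 < η2 := by linarith
  set GG : (Fin n → Bool) → Finset (Fin n → Bool) := fun z => fib W (uu c M S) z with hGG
  have hGne : ∀ z ∈ W, (GG z).Nonempty := fun z hz => ⟨z, self_mem_fib hz⟩
  have hH0 : ∀ z ∈ W, 0 ≤ HG M (GG z) := fun z hz => HG_nonneg M _ (hGne z hz)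
  have hTC0 := TC_nonneg (W := W) (c := c) M S
  have hGpos : 0 < Gs W c M S := lt_of_lt_of_le (by positivity) hG
  have hsH : ∑ z ∈ W, HG M (GG z) = Gs W c M S + TC W c M S := sum_HG M S
  have hsT : ∑ z ∈ W, tcG M (GG z) = TC W c M S := by
    unfold tcG
    rw [Finset.sum_sub_distrib, hsH]
    unfold Gs
    ring
  -- per class nonnegativity of the total correlation, in summed form
  have htc0 : ∀ z ∈ W, 0 ≤ tcG M (GG z) := by
    intro z hz
    have hne := hGne z hz
    have h1 := tc_class_nonneg (GG z)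
    have h2 : ∑ w ∈ GG z, ((∑ i, - Real.log (marg (GG z) i (w i))) - Real.log (GG z).card) =
        (GG z).card * tcG M (GG z) := by
      rw [Finset.sum_sub_distrib, Finset.sum_const, nsmul_eq_mul]
      unfold tcG HG
      rw [mul_sub, Finset.mul_sum]
      congr 1
      rw [Finset.sum_comm, ← Finset.sum_subset (Finset.subset_univ M)]
      · exact Finset.sum_congr rfl fun i _ => class_entropy (GG z) hne i
      · intro i _ hi
        apply Finset.sum_eq_zero
        intro w hw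
        have h3 := qs_off (W := W) (c := c) (M := M) (S := S) (mem_fib.mp hw).1 hi
        rw [qs_class i hw] at h3
        have h4 : marg (GG z) i (w i) = 1 := h3
        rw [h4]; simp
    rw [h2] at h1
    have hc : (0 : ℝ) < (GG z).card := Nat.cast_pos.mpr (Finset.card_pos.mpr hne)
    exact nonneg_of_mul_nonneg_right h1 hc
  -- good points
  obtain ⟨Gd, hGd⟩ : ∃ Gd, Gd = W.filter (fun z => tcG M (GG z) ≤ η2 * HG M (GG z) ∧
      Φ0 / 8 * M.card ≤ HG M (GG z)) := ⟨_, rfl⟩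
  have hgood : Φ0 / 4 * W.card ≤ Gd.card := by
    have h1 : ∀ z ∈ W, HG M (GG z) ≤ (if z ∈ Gd then (M.card : ℝ) else 0) +
        (1 / η2) * tcG M (GG z) + Φ0 / 8 * M.card := by
      intro z hz
      have ht := htc0 z hz
      have ht' : 0 ≤ (1 / η2) * tcG M (GG z) := by positivity
      have hp : 0 ≤ Φ0 / 8 * M.card := by positivity
      by_cases hzG : z ∈ Gd
      · rw [if_pos hzG]
        have := HG_le M (GG z)
        linarith
      · rw [if_neg hzG, zero_add]
        by_cases h2 : tcG M (GG z) ≤ η2 * HG M (GG z)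
        · have h3 : ¬ Φ0 / 8 * M.card ≤ HG M (GG z) := fun h => hzG (by
            rw [hGd]; exact Finset.mem_filter.mpr ⟨hz, h2, h⟩)
          push Not at h3
          linarith
        · push Not at h2
          have h3 : HG M (GG z) ≤ (1 / η2) * tcG M (GG z) := by
            rw [one_div, ← div_eq_inv_mul, le_div_iff₀ hη20]; linarith
          linarith
    have h2 := Finset.sum_le_sum h1
    rw [hsH, Finset.sum_add_distrib, Finset.sum_add_distrib, ← Finset.mul_sum, hsT,
      ← Finset.sum_filter, Finset.sum_const, Finset.sum_const, nsmul_eq_mul, nsmul_eq_mul] at h2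
    have e1 : W.filter (fun z => z ∈ Gd) = Gd := by
      ext z
      simp only [Finset.mem_filter]
      exact ⟨fun h => h.2, fun h => ⟨by rw [hGd] at h; exact (Finset.mem_filter.mp h).1, h⟩⟩
    rw [e1] at h2
    have h3 : (1 / η2) * TC W c M S ≤ Gs W c M S / 4 := by
      calc (1 / η2) * TC W c M S ≤ (1 / η2) * (8 * η * Gs W c M S) :=
            mul_le_mul_of_nonneg_left hTC (by positivity)
        _ = (32 * η / η2) * (Gs W c M S / 4) := by ring
        _ ≤ 1 * (Gs W c M S / 4) := by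
            apply mul_le_mul_of_nonneg_right _ (by linarith)
            rw [div_le_one hη20]; exact hη2
        _ = _ := one_mul _
    have h4 : (W.card : ℝ) * (Φ0 / 8 * M.card) ≤ Gs W c M S / 4 := by linarith
    have h5 : (Φ0 / 4 * W.card) * M.card ≤ Gd.card * M.card := by linarith
    exact le_of_mul_le_mul_right h5 hMc
  -- the cells
  set lM : ℕ := Nat.log 2 M.card with hlM
  obtain ⟨P, hPd⟩ : ∃ P : ℕ → ℕ → Finset (Fin n → Bool) → Prop, ∀ j d G, P j d G ↔
      (2 ^ (lM - d) ≤ (Vf M ((1 / 2) ^ j) G).card ∧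
      tcG M G ≤ 8 * (J : ℝ) ^ 2 * η2 * ((1 / 2) ^ j * (2 ^ (lM - d) : ℕ)) ∧
      Φ0 * M.card / (64 * (J : ℝ) ^ 2) ≤ (1 / 2) ^ j * (2 ^ (lM - d) : ℕ)) :=
    ⟨fun j d G => _, fun j d G => Iff.rfl⟩
  have hcell : ∀ z ∈ Gd, ∃ j ∈ Finset.Icc 1 J, ∃ d ∈ Finset.range (e + 1), P j d (GG z) := by
    intro z hz
    rw [hGd] at hz
    obtain ⟨hzW, hz1, hz2⟩ := Finset.mem_filter.mp hz
    obtain ⟨j, hj, hjH⟩ := exists_level M (GG z) (hGne z hzW) hJ1 hJ (by linarith) (by linarith)
    set V := (Vf M ((1 / 2) ^ j) (GG z)).card with hV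
    have hHpos : 0 < HG M (GG z) := lt_of_lt_of_le (by positivity) hz2
    have hVpos : 0 < V := by
      rw [Nat.pos_iff_ne_zero]
      intro h0
      rw [h0] at hjH
      simp at hjH
      linarith
    have hVM : V ≤ M.card := Finset.card_le_card fun i hi => (mem_Vf.mp hi).1
    set l := Nat.log 2 V with hl
    have hl1 : 2 ^ l ≤ V := Nat.pow_log_le_self 2 hVpos.ne'
    have hl2 : V < 2 ^ (l + 1) := Nat.lt_pow_succ_log_self (by norm_num) V
    have hllM : l ≤ lM := Nat.log_mono_right hVM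
    have hlMM : 2 ^ lM ≤ M.card := Nat.pow_log_le_self 2 (Finset.card_pos.mpr hM).ne'
    have hp2 : (0 : ℝ) < (1 / 2) ^ j := by positivity
    have hp21 : (1 / 2 : ℝ) ^ j ≤ 1 / 2 := by
      calc (1 / 2 : ℝ) ^ j ≤ (1 / 2) ^ 1 :=
            pow_le_pow_of_le_one (by norm_num) (by norm_num) (Finset.mem_Icc.mp hj).1
        _ = 1 / 2 := by norm_num
    have hl2r : (V : ℝ) ≤ 2 * (2 ^ l : ℕ) := by
      have h1 : V ≤ 2 * 2 ^ l := by rw [pow_succ] at hl2; omega
      exact_mod_cast h1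
    have hHv : HG M (GG z) ≤ 8 * (J : ℝ) ^ 2 * ((1 / 2) ^ j * (2 ^ l : ℕ)) := by
      refine hjH.trans ?_
      calc 4 * (J : ℝ) ^ 2 * ((1 / 2) ^ j * V) ≤ 4 * (J : ℝ) ^ 2 * ((1 / 2) ^ j * (2 * (2 ^ l : ℕ))) := by
            gcongr
        _ = _ := by ring
    -- the distance from the top
    have hd : lM ≤ l + e := by
      have h1 : (Φ0 / 8 * M.card) ≤ 8 * (J : ℝ) ^ 2 * (1 / 2 * (2 ^ l : ℕ)) := by
        refine hz2.trans (hHv.trans ?_)
        gcongr
      have h2 : ((2 ^ lM : ℕ) : ℝ) ≤ M.card := by exact_mod_cast hlMM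
      have h3 : 32 * (J : ℝ) ^ 2 ≤ 2 ^ e * Φ0 := by
        rwa [div_le_iff₀ hΦ0] at he
      have h4 : Φ0 * ((2 ^ lM : ℕ) : ℝ) ≤ Φ0 * ((2 ^ e : ℕ) * (2 ^ l : ℕ)) := by
        have h5 : Φ0 * ((2 ^ lM : ℕ) : ℝ) ≤ Φ0 * M.card := mul_le_mul_of_nonneg_left h2 hΦ0.le
        have h6 : 32 * (J : ℝ) ^ 2 * (2 ^ l : ℕ) ≤ 2 ^ e * Φ0 * (2 ^ l : ℕ) :=
          mul_le_mul_of_nonneg_right h3 (Nat.cast_nonneg _)
        push_cast at h1 h5 h6 ⊢
        linarith
      have h5 := le_of_mul_le_mul_left h4 hΦ0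
      have h6 : 2 ^ lM ≤ 2 ^ e * 2 ^ l := by exact_mod_cast h5
      have h7 : 2 ^ lM ≤ 2 ^ (l + e) := by
        calc 2 ^ lM ≤ 2 ^ e * 2 ^ l := h6
          _ = 2 ^ (l + e) := by rw [pow_add]; ring
      exact (Nat.pow_le_pow_iff_right (by norm_num)).mp h7
    refine ⟨j, hj, lM - l, Finset.mem_range.mpr (by omega), ?_⟩
    have hsub : lM - (lM - l) = l := by omega
    rw [hPd, hsub]
    refine ⟨hl1, ?_, ?_⟩
    · calc tcG M (GG z) ≤ η2 * HG M (GG z) := hz1
        _ ≤ η2 * (8 * (J : ℝ) ^ 2 * ((1 / 2) ^ j * (2 ^ l : ℕ))) := mul_le_mul_of_nonneg_left hHv hη20.le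
        _ = _ := by ring
    · rw [div_le_iff₀ (by positivity)]
      have h1 := hz2.trans hHv
      linarith
  -- pigeonhole
  have hpig : ∃ q ∈ (Finset.Icc 1 J) ×ˢ (Finset.range (e + 1)),
      Φ0 / 4 * (W.card : ℝ) / (J * (e + 1)) ≤ ((W.filter (fun z => P q.1 q.2 (GG z))).card : ℝ) := by
    apply Finset.exists_le_of_sum_le
    · exact ⟨(1, 0), by simp [hJ1]⟩
    · rw [Finset.sum_const, Finset.card_product, Nat.card_Icc, Finset.card_range, nsmul_eq_mul]
      push_cast
      have e1 : ((J : ℝ) * (e + 1)) * (Φ0 / 4 * W.card / (J * (e + 1))) = Φ0 / 4 * W.card := by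
        field_simp
      rw [e1]
      refine hgood.trans ?_
      have h1 : Gd ⊆ ((Finset.Icc 1 J) ×ˢ (Finset.range (e + 1))).biUnion
          (fun q => W.filter (fun z => P q.1 q.2 (GG z))) := by
        intro z hz
        obtain ⟨j, hj, d, hd, hP⟩ := hcell z hz
        rw [Finset.mem_biUnion]
        refine ⟨(j, d), Finset.mem_product.mpr ⟨hj, hd⟩, Finset.mem_filter.mpr ⟨?_, hP⟩⟩
        rw [hGd] at hz
        exact (Finset.mem_filter.mp hz).1
      exact_mod_cast (Finset.card_le_card h1).trans Finset.card_biUnion_le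
  obtain ⟨⟨j, d⟩, hq, hcard⟩ := hpig
  obtain ⟨hj, _⟩ := Finset.mem_product.mp hq
  simp only at hj hcard
  have hne1 : (W.filter (fun z => P j d (GG z))).Nonempty := by
    rw [← Finset.card_pos]
    have : (0 : ℝ) < ((W.filter (fun z => P j d (GG z))).card : ℝ) := lt_of_lt_of_le (by positivity) hcard
    exact_mod_cast this
  have hfib : ∀ z ∈ W.filter (fun z => P j d (GG z)),
      fib (W.filter (fun z => P j d (GG z))) (uu c M S) z = GG z := fun z hz =>
    fib_filter (W := W) (c := c) (fun G => P j d G) M S hz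
  refine ⟨j, 2 ^ (lM - d), W.filter (fun z => P j d (GG z)), Finset.filter_subset _ _,
    (Finset.mem_Icc.mp hj).1, (Finset.mem_Icc.mp hj).2, ?_, ?_, ?_, ?_, ?_⟩
  · calc 2 ^ (lM - d) ≤ 2 ^ lM := Nat.pow_le_pow_right (by norm_num) (Nat.sub_le _ _)
      _ ≤ M.card := Nat.pow_log_le_self 2 (Finset.card_pos.mpr hM).ne'
  · obtain ⟨z, hz⟩ := hne1
    exact ((hPd _ _ _).mp (Finset.mem_filter.mp hz).2).2.2
  · rw [div_le_iff₀ (by positivity)] at hcard
    linarith
  · intro z hz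
    rw [hfib z hz]
    exact ((hPd _ _ _).mp (Finset.mem_filter.mp hz).2).1
  · have h1 : TC (W.filter (fun z => P j d (GG z))) c M S =
        ∑ z ∈ W.filter (fun z => P j d (GG z)), tcG M (GG z) := TC_filter (W := W) (c := c) (fun G => P j d G) M S
    rw [h1]
    calc ∑ z ∈ W.filter (fun z => P j d (GG z)), tcG M (GG z)
        ≤ ∑ _z ∈ W.filter (fun z => P j d (GG z)),
          8 * (J : ℝ) ^ 2 * η2 * ((1 / 2) ^ j * (2 ^ (lM - d) : ℕ)) :=
          Finset.sum_le_sum fun z hz => ((hPd _ _ _).mp (Finset.mem_filter.mp hz).2).2.1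
      _ = _ := by rw [Finset.sum_const, nsmul_eq_mul]; ring

end Pool.Agent.KQ
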